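import Pool.Agent.Y415.Frac.I

set_option autoImplicit false
set_option linter.unusedSectionVars false

open Finset
open scoped Classical

noncomputable section

namespace Pool.Agent.Y415.Frac

section params

variable (a b C : ℝ)

/-- next threshold -/
def T2 (s : ℝ × ℝ × ℝ) : ℝ :=
  s.1 + 8 * a * (C * Real.exp (2 * (s.1 + a)) * (s.2.2 * Real.exp b) + 1)

/-- sampling rate -/
def rh (s : ℝ × ℝ × ℝ) : ℝ :=
  64 * a * C ^ 2 * Real.exp (6 * (T2 a b C s + a)) * (s.2.2 * Real.exp b) + 2

/-- one step of the recursion -/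
def stp (s : ℝ × ℝ × ℝ) : ℝ × ℝ × ℝ :=
  (T2 a b C s, (1 / rh a b C s) ^ 2 * s.2.1 ^ 3 / (3 * rh a b C s),
    s.2.2 * Real.exp (2 * rh a b C s * (1 / ((1 / rh a b C s) * s.2.1)) ^ 2))

/-- first threshold -/
def T1 : ℝ := 8 * a * (C * Real.exp (2 * a) * (Real.exp b) + 1)

/-- the sequence of states -/
def st : ℕ → ℝ × ℝ × ℝ
  | 0 => (T1 a b C, 1 / (64 * a * C ^ 2 * Real.exp (6 * (T1 a b C + a)) * Real.exp b + 1), 1)
  | (j + 1) => stp a b C (st j)

variable {a b C}

theorem st_inv (ha : 0 < a) (hC : 0 < C) (j : ℕ) :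
    0 ≤ (st a b C j).1 ∧ 0 < (st a b C j).2.1 ∧ (st a b C j).2.1 ≤ 1 ∧ 1 ≤ (st a b C j).2.2 ∧
      2 ≤ rh a b C (st a b C j) ∧ (st a b C j).1 ≤ T2 a b C (st a b C j) := by
  have hrh : ∀ s : ℝ × ℝ × ℝ, 1 ≤ s.2.2 → 2 ≤ rh a b C s := by
    intro s hs
    have hs0 : 0 < s.2.2 := by linarith
    unfold rh
    have : 0 ≤ 64 * a * C ^ 2 * Real.exp (6 * (T2 a b C s + a)) * (s.2.2 * Real.exp b) := by
      positivity
    linarith
  have hT2 : ∀ s : ℝ × ℝ × ℝ, 1 ≤ s.2.2 → s.1 ≤ T2 a b C s := by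
    intro s hs
    have hs0 : 0 < s.2.2 := by linarith
    unfold T2
    have : 0 ≤ 8 * a * (C * Real.exp (2 * (s.1 + a)) * (s.2.2 * Real.exp b) + 1) := by
      positivity
    linarith
  induction j with
  | zero =>
    refine ⟨?_, ?_, ?_, ?_, hrh _ ?_, hT2 _ ?_⟩
    · simp only [st, T1]; positivity
    · simp only [st]; positivity
    · simp only [st]
      rw [div_le_one (by positivity)]
      have : 0 ≤ 64 * a * C ^ 2 * Real.exp (6 * (T1 a b C + a)) * Real.exp b := by positivity
      linarith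
    · simp only [st]; exact le_rfl
    · simp only [st]; exact le_rfl
    · simp only [st]; exact le_rfl
  | succ j ih =>
    obtain ⟨h1, h2, h3, h4, h5, h6⟩ := ih
    have hQ : 1 ≤ (st a b C (j + 1)).2.2 := by
      simp only [st, stp]
      have : 1 ≤ Real.exp (2 * rh a b C (st a b C j) *
          (1 / ((1 / rh a b C (st a b C j)) * (st a b C j).2.1)) ^ 2) := by
        apply Real.one_le_exp
        have : 0 ≤ rh a b C (st a b C j) := by linarith
        positivity
      nlinarith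
    refine ⟨?_, ?_, ?_, hQ, hrh _ hQ, hT2 _ hQ⟩
    · simp only [st, stp]; linarith
    · simp only [st, stp]
      have : 0 < rh a b C (st a b C j) := by linarith
      positivity
    · simp only [st, stp]
      have hr : 0 < rh a b C (st a b C j) := by linarith
      rw [div_le_one (by positivity)]
      have e1 : (1 / rh a b C (st a b C j)) ≤ 1 := by
        rw [div_le_one hr]; linarith
      have e1' : 0 ≤ (1 / rh a b C (st a b C j)) := by positivity
      have e2 : (1 / rh a b C (st a b C j)) ^ 2 ≤ 1 := pow_le_one₀ e1' e1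
      have e3 : (st a b C j).2.1 ^ 3 ≤ 1 := pow_le_one₀ h2.le h3
      have e4 : (1 / rh a b C (st a b C j)) ^ 2 * (st a b C j).2.1 ^ 3 ≤ 1 * 1 :=
        mul_le_mul e2 e3 (by positivity) (by norm_num)
      linarith

/-- Existence of parameters. -/
theorem params (R : ℕ) {C : ℝ} (hC : 0 < C) :
    ∃ ρ ε η T : ℕ → ℝ, Par ρ ε η ∧ Monotone T ∧ T 0 = 0 ∧
      (∀ L, 8 * ((R:ℝ) + 1) * (C * Real.exp (2 * (T L + (R + 1))) *
        (Qp ρ ε η (L - 1) * Real.exp (13 * R)) + 1) ≤ T (L + 1)) ∧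
      (∀ j, 64 * ((R:ℝ) + 1) * C ^ 2 * Real.exp (6 * (T (j + 1) + (R + 1))) *
        xi ρ ε η R j ≤ 1) := by
  set a : ℝ := (R:ℝ) + 1 with hadef
  have ha : 0 < a := by positivity
  set b : ℝ := 13 * (R:ℝ) with hbdef
  set S := st a b C with hS
  set ρ : ℕ → ℝ := fun j => rh a b C (S j) with hρ
  set ε : ℕ → ℝ := fun j => 1 / ρ j with hε
  set η : ℕ → ℝ := fun j => (S j).2.1 with hη
  set T : ℕ → ℝ := fun j => Nat.casesOn j 0 (fun i => (S i).1) with hT
  have hT0 : T 0 = 0 := rfl
  have hTs : ∀ j, T (j + 1) = (S j).1 := fun j => rfl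
  have hinv := fun j => st_inv (a := a) (b := b) (C := C) ha hC j
  have hρ2 : ∀ j, 2 ≤ ρ j := fun j => (hinv j).2.2.2.2.1
  have hρ0 : ∀ j, 0 < ρ j := fun j => by linarith [hρ2 j]
  have hpar : Par ρ ε η := by
    refine ⟨?_, ?_, ?_, ?_, hρ0, ?_, ?_⟩
    · intro i
      exact one_div_pos.2 (hρ0 i)
    · intro i
      exact one_div_le_one_div_of_le (by norm_num) (hρ2 i)
    · intro i
      exact (hinv i).2.1
    · intro i
      exact (hinv i).2.2.1
    · intro i
      have := (hρ0 i).ne'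
      show 1 / ρ i * ρ i = 1
      field_simp
    · intro i
      have h0 := hρ0 i
      have e : η (i + 1) = (1 / ρ i) ^ 2 * η i ^ 3 / (3 * ρ i) := rfl
      rw [e]
      show 3 * ρ i * ((1 / ρ i) ^ 2 * η i ^ 3 / (3 * ρ i)) ≤ (1 / ρ i) ^ 2 * η i ^ 3
      apply le_of_eq
      field_simp
  have hQ : ∀ j, Qp ρ ε η j = (S j).2.2 := by
    intro j
    induction j with
    | zero => simp [Qp, hS, st]
    | succ j ih =>
      have e : Qp ρ ε η (j + 1) = Qp ρ ε η j * Mi ρ ε η j := by
        unfold Qp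
        rw [Finset.prod_range_succ]
      rw [e, ih]
      rfl
  refine ⟨ρ, ε, η, T, hpar, ?_, hT0, ?_, ?_⟩
  · apply monotone_nat_of_le_succ
    intro j
    rcases j with _ | j
    · rw [hT0, hTs]
      exact (hinv 0).1
    · rw [hTs, hTs]
      exact (hinv j).2.2.2.2.2
  · intro L
    rcases L with _ | L
    · rw [hT0, hTs, hQ, zero_add]
      show 8 * a * (C * Real.exp (2 * a) * (1 * Real.exp b) + 1) ≤ T1 a b C
      rw [one_mul]
      exact le_rfl
    · rw [hTs, hTs, hQ, Nat.add_sub_cancel]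
      show _ ≤ T2 a b C (S L)
      unfold T2
      have := (hinv L).1
      linarith
  · intro j
    rcases j with _ | j
    · rw [hTs]
      show 64 * a * C ^ 2 * Real.exp (6 * (T1 a b C + a)) *
        (1 / (64 * a * C ^ 2 * Real.exp (6 * (T1 a b C + a)) * Real.exp b + 1) * Real.exp b) ≤ 1
      have hX : 0 < 64 * a * C ^ 2 * Real.exp (6 * (T1 a b C + a)) * Real.exp b := by positivity
      rw [← mul_assoc, mul_assoc _ (1 / _) (Real.exp b), mul_comm (1 / _) (Real.exp b), ← mul_assoc,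
        mul_one_div, div_le_one (by linarith)]
      linarith
    · rw [hTs]
      show 64 * a * C ^ 2 * Real.exp (6 * (T2 a b C (S j) + a)) *
        (Qp ρ ε η j * Real.exp b / ρ j) ≤ 1
      rw [hQ, ← mul_div_assoc, div_le_one (hρ0 j)]
      show _ ≤ rh a b C (S j)
      unfold rh
      linarith

end params

/-- The combinatorial core, with everything quantified. -/
theorem frac_core (R : ℕ) (hR : 1 ≤ R) {e : ℝ} (he : 0 < e) :
    ∃ D : ℕ, ∀ d : ℕ, D ≤ d → ∀ (n : ℕ) (N : Fin n → Finset (Fin n))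
      (adj : Fin n → Fin n → Prop), (∀ x, ∀ y ∈ N x, y < x) → (∀ x, (N x).card ≤ d) →
      (∀ z y, y ∈ N z → adj z y ∧ adj y z) →
      (∀ u, ∀ x ∈ N u, Cl adj (R + 1) (N x ∩ N u) = ∅) →
      ∃ w : Finset (Fin n) → ℝ, (∀ I, 0 ≤ w I) ∧ (∀ I, w I ≠ 0 → ∀ x ∈ I, ∀ y ∈ N x, y ∉ I) ∧
      (∀ v, 1 ≤ ∑ I ∈ Finset.univ.filter (fun I : Finset (Fin n) => v ∈ I), w I) ∧
      ∑ I, w I ≤ e * d := by
  have hC : 0 < 2 / e := by positivity
  obtain ⟨ρ, ε, η, T, hp, hTm, hT0, n1, n2⟩ := params R hC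
  set X : ℝ := 2 * (2 / e * (8 * Qp ρ ε η R) * Real.exp (2 * T (R + 1))) with hX
  have hQ := Qp_ge_one hp R
  have hX0 : 0 < X := by
    rw [hX]
    have : 0 < Qp ρ ε η R := by linarith
    positivity
  have hS0 : 0 ≤ ∑ i ∈ Finset.range R, ρ i := Finset.sum_nonneg fun i _ => (hp.ρ0 i).le
  refine ⟨⌈X + ∑ i ∈ Finset.range R, ρ i⌉₊ + 1, ?_⟩
  intro d hd n N adj hN hNd hadj hK
  have hd0 : 0 < d := by omega
  have hdR : (0:ℝ) < d := by exact_mod_cast hd0
  have hd1 : X + ∑ i ∈ Finset.range R, ρ i ≤ d := by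
    have h1 := Nat.le_ceil (X + ∑ i ∈ Finset.range R, ρ i)
    have h2 : ((⌈X + ∑ i ∈ Finset.range R, ρ i⌉₊ + 1 : ℕ) : ℝ) ≤ d := by exact_mod_cast hd
    push_cast at h2
    linarith
  have hρ : ∀ i, i < R → ρ i ≤ d := by
    intro i hi
    have : ρ i ≤ ∑ i ∈ Finset.range R, ρ i :=
      Finset.single_le_sum (f := ρ) (fun i _ => (hp.ρ0 i).le) (Finset.mem_range.2 hi)
    linarith
  have hB : 2 / e / d * (8 * Qp ρ ε η R) * Real.exp (2 * T (R + 1)) ≤ 1 / 2 := by
    have : 2 / e / d * (8 * Qp ρ ε η R) * Real.exp (2 * T (R + 1)) = X / 2 / d := by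
      rw [hX]; field_simp
    rw [this, div_le_iff₀ hdR]
    linarith
  obtain ⟨w, w0, w1, w2, w3⟩ := static_main hN hd0 hNd hadj hR hK hp hρ hTm hT0 hC hB
    (fun L _ => n1 L) (fun j _ => n2 j)
  refine ⟨fun I => e * d * w I, ?_, ?_, ?_, ?_⟩
  · intro I
    have := w0 I
    positivity
  · intro I hI
    exact w1 I (fun h => hI (by simp [h]))
  · intro v
    rw [← Finset.mul_sum]
    have h := w2 v
    have hed : 0 < e * d := by positivity
    calc (1:ℝ) = e * d * (2 / e / (2 * d)) := by field_simp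
      _ ≤ _ := mul_le_mul_of_nonneg_left h hed.le
  · rw [← Finset.mul_sum, w3, mul_one]

/-- Degenerate graphs have good orderings. -/
theorem exists_rank {n : ℕ} (A : Fin n → Fin n → Prop) (d : ℕ)
    (hdeg : ∀ S : Finset (Fin n), S.Nonempty → ∃ v ∈ S, (S.filter (fun u => A v u)).card ≤ d) :
    ∀ (m : ℕ) (S : Finset (Fin n)), S.card = m → ∃ f : Fin n → ℕ,
      (∀ x ∈ S, f x < m) ∧ (∀ x ∈ S, ∀ y ∈ S, f x = f y → x = y) ∧
      (∀ v ∈ S, (S.filter (fun u => A v u ∧ f u < f v)).card ≤ d) := by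
  intro m
  induction m with
  | zero =>
    intro S hS
    rw [Finset.card_eq_zero] at hS
    subst hS
    exact ⟨fun _ => 0, by simp, by simp, by simp⟩
  | succ m ih =>
    intro S hS
    have hne : S.Nonempty := by
      rw [← Finset.card_pos]; omega
    obtain ⟨v, hv, hvd⟩ := hdeg S hne
    obtain ⟨f, f1, f2, f3⟩ := ih (S.erase v) (by rw [Finset.card_erase_of_mem hv, hS]; rfl)
    refine ⟨Function.update f v m, ?_, ?_, ?_⟩
    · intro x hx
      by_cases c : x = v
      · subst c; simp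
      · rw [Function.update_of_ne c]
        have := f1 x (Finset.mem_erase.2 ⟨c, hx⟩)
        omega
    · intro x hx y hy hxy
      by_cases c : x = v
      · by_cases c' : y = v
        · rw [c, c']
        · rw [c, Function.update_self, Function.update_of_ne c'] at hxy
          have := f1 y (Finset.mem_erase.2 ⟨c', hy⟩)
          omega
      · by_cases c' : y = v
        · rw [c', Function.update_self, Function.update_of_ne c] at hxy
          have := f1 x (Finset.mem_erase.2 ⟨c, hx⟩)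
          omega
        · rw [Function.update_of_ne c, Function.update_of_ne c'] at hxy
          exact f2 x (Finset.mem_erase.2 ⟨c, hx⟩) y (Finset.mem_erase.2 ⟨c', hy⟩) hxy
    · intro x hx
      by_cases c : x = v
      · subst c
        refine le_trans (Finset.card_le_card ?_) hvd
        intro u hu
        rw [Finset.mem_filter] at hu ⊢
        exact ⟨hu.1, hu.2.1⟩
      · refine le_trans (Finset.card_le_card ?_) (f3 x (Finset.mem_erase.2 ⟨c, hx⟩))
        intro u hu
        rw [Finset.mem_filter] at hu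
        obtain ⟨hu, hA, hlt⟩ := hu
        have cu : u ≠ v := by
          intro h
          rw [h, Function.update_self, Function.update_of_ne c] at hlt
          have := f1 x (Finset.mem_erase.2 ⟨c, hx⟩)
          omega
        rw [Function.update_of_ne c, Function.update_of_ne cu] at hlt
        rw [Finset.mem_filter]
        exact ⟨Finset.mem_erase.2 ⟨cu, hu⟩, hA, hlt⟩

theorem exists_order {n : ℕ} (A : Fin n → Fin n → Prop) (d : ℕ)
    (hdeg : ∀ S : Finset (Fin n), S.Nonempty → ∃ v ∈ S, (S.filter (fun u => A v u)).card ≤ d) :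
    ∃ σ : Fin n ≃ Fin n, ∀ v, (Finset.univ.filter (fun u => A v u ∧ σ u < σ v)).card ≤ d := by
  obtain ⟨f, f1, f2, f3⟩ := exists_rank A d hdeg n Finset.univ (by simp)
  have hinj : Function.Injective (fun x : Fin n => (⟨f x, f1 x (Finset.mem_univ x)⟩ : Fin n)) := by
    intro x y h
    exact f2 x (Finset.mem_univ _) y (Finset.mem_univ _) (Fin.mk.inj h)
  have hbij := Finite.injective_iff_bijective.1 hinj
  refine ⟨Equiv.ofBijective _ hbij, ?_⟩
  intro v
  refine le_trans (le_of_eq ?_) (f3 v (Finset.mem_univ _))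
  congr 1

/-- Final form for graphs. -/
theorem frac_graph (r : ℕ) (hr : 4 ≤ r) (e : ℝ) (he : 0 < e) : ∃ D : ℕ, ∀ d : ℕ, D ≤ d →
      ∀ (n : ℕ) (G : SimpleGraph (Fin n)),
        G.CliqueFree r →
        (∀ S : Finset (Fin n), S.Nonempty →
            ∃ v ∈ S, (S.filter (fun u => G.Adj v u)).card ≤ d) →
        ∃ w : Finset (Fin n) → ℝ,
          (∀ I, 0 ≤ w I) ∧
          (∀ I, w I ≠ 0 → G.IsIndepSet (↑I : Set (Fin n))) ∧
          (∀ v : Fin n, 1 ≤ ∑ I ∈ Finset.univ.filter (fun I : Finset (Fin n) => v ∈ I), w I) ∧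
          (∑ I, w I) ≤ e * (d : ℝ) := by
  obtain ⟨R, rfl⟩ : ∃ R, r = R + 3 := ⟨r - 3, by omega⟩
  obtain ⟨D, hD⟩ := frac_core R (by omega) he
  refine ⟨D, ?_⟩
  intro d hd n G hG hdeg
  obtain ⟨σ, hσ⟩ := exists_order G.Adj d hdeg
  let N : Fin n → Finset (Fin n) :=
    fun x => Finset.univ.filter (fun y => y < x ∧ G.Adj (σ.symm x) (σ.symm y))
  let adj : Fin n → Fin n → Prop := fun x y => G.Adj (σ.symm x) (σ.symm y)
  have hmem : ∀ x y, y ∈ N x ↔ y < x ∧ G.Adj (σ.symm x) (σ.symm y) := by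
    intro x y
    simp [N]
  have g1 : ∀ x, ∀ y ∈ N x, y < x := fun x y hy => ((hmem x y).1 hy).1
  have g2 : ∀ x, (N x).card ≤ d := by
    intro x
    have h := hσ (σ.symm x)
    refine le_trans (le_of_eq ?_) h
    apply Finset.card_bij (fun y _ => σ.symm y)
    · intro y hy
      rw [hmem] at hy
      rw [Finset.mem_filter]
      refine ⟨Finset.mem_univ _, hy.2, ?_⟩
      simpa using hy.1
    · intro y _ y' _ h
      exact σ.symm.injective h
    · intro y hy
      rw [Finset.mem_filter] at hy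
      refine ⟨σ y, ?_, by simp⟩
      rw [hmem]
      refine ⟨?_, by simpa using hy.2.1⟩
      simpa using hy.2.2
  have g3 : ∀ z y, y ∈ N z → adj z y ∧ adj y z := by
    intro z y hy
    have := ((hmem z y).1 hy).2
    exact ⟨this, this.symm⟩
  have g4 : ∀ u, ∀ x ∈ N u, Cl adj (R + 1) (N x ∩ N u) = ∅ := by
    intro u x hx
    rw [Finset.eq_empty_iff_forall_notMem]
    intro T hT
    rw [mem_Cl] at hT
    obtain ⟨hT1, hT2⟩ := hT
    rw [SimpleGraph.cliqueFree_iff] at hG
    have hux := ((hmem u x).1 hx).2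
    have hTu : ∀ i, G.Adj (σ.symm u) (σ.symm (T i)) := fun i =>
      ((hmem u _).1 (Finset.mem_inter.1 (hT1 i)).2).2
    have hTx : ∀ i, G.Adj (σ.symm x) (σ.symm (T i)) := fun i =>
      ((hmem x _).1 (Finset.mem_inter.1 (hT1 i)).1).2
    have hTT : ∀ i j, i ≠ j → G.Adj (σ.symm (T i)) (σ.symm (T j)) := hT2
    set F : Fin (R + 3) → Fin n :=
      Fin.cons (σ.symm u) (Fin.cons (σ.symm x) (fun i => σ.symm (T i))) with hF
    have hFadj : ∀ i j, i ≠ j → G.Adj (F i) (F j) := by
      intro i j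
      refine Fin.cases ?_ (fun i => ?_) i
      · refine Fin.cases ?_ (fun j => ?_) j
        · intro h; exact absurd rfl h
        · intro _
          refine Fin.cases ?_ (fun j => ?_) j
          · simpa [hF] using hux
          · simpa [hF] using hTu j
      · refine Fin.cases ?_ (fun j => ?_) j
        · intro _
          refine Fin.cases ?_ (fun i => ?_) i
          · simpa [hF] using hux.symm
          · simpa [hF] using (hTu i).symm
        · refine Fin.cases ?_ (fun i => ?_) i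
          · refine Fin.cases ?_ (fun j => ?_) j
            · intro h; exact absurd rfl h
            · intro _
              simpa [hF] using hTx j
          · refine Fin.cases ?_ (fun j => ?_) j
            · intro _
              simpa [hF] using (hTx i).symm
            · intro h
              simpa [hF] using hTT i j (fun h' => h (by rw [h']))
    refine hG.false ⟨⟨F, ?_⟩, ?_⟩
    · intro i j hij
      exact hFadj i j ((SimpleGraph.completeGraph (Fin (R + 3))).ne_of_adj hij)
    · intro i j hij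
      by_contra hne
      exact (G.ne_of_adj (hFadj i j hne)) hij
  obtain ⟨w, w0, w1, w2, w3⟩ := hD d hd n N adj g1 g2 g3 g4
  refine ⟨fun I => w (σ.finsetCongr I), fun I => w0 _, ?_, ?_, ?_⟩
  · intro I hI x hx y hy hxy hadj
    have hx' : σ x ∈ σ.finsetCongr I := by simpa using hx
    have hy' : σ y ∈ σ.finsetCongr I := by simpa using hy
    have hne : σ x ≠ σ y := fun h => hxy (σ.injective h)
    rcases lt_or_gt_of_ne hne with h | h
    · refine w1 _ hI (σ y) hy' (σ x) ?_ hx'
      rw [hmem]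
      simp only [Equiv.symm_apply_apply]
      exact ⟨h, hadj.symm⟩
    · refine w1 _ hI (σ x) hx' (σ y) ?_ hy'
      rw [hmem]
      simp only [Equiv.symm_apply_apply]
      exact ⟨h, hadj⟩
  · intro v
    have h := w2 (σ v)
    rw [Finset.sum_filter] at h ⊢
    rw [← Equiv.sum_comp σ.finsetCongr] at h
    refine h.trans (le_of_eq ?_)
    apply Finset.sum_congr rfl
    intro I _
    have : σ v ∈ σ.finsetCongr I ↔ v ∈ I := by simp
    simp only [this]
  · rw [Equiv.sum_comp σ.finsetCongr (fun I => w I)]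
    exact w3

end Pool.Agent.Y415.Frac
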