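import Pool.Agent.Y415.Frac.L

set_option autoImplicit false
set_option linter.unusedSectionVars false

open Finset
open scoped Classical

noncomputable section

namespace Pool.Agent.Y415.Frac

/-- The ordered structure attached to a degenerate clique-free graph. -/
theorem graph_order (R d n : ℕ) (G : SimpleGraph (Fin n)) (hG : G.CliqueFree (R + 3))
    (hdeg : ∀ S : Finset (Fin n), S.Nonempty →
      ∃ v ∈ S, (S.filter (fun u => G.Adj v u)).card ≤ d) :
    ∃ (σ : Fin n ≃ Fin n) (N : Fin n → Finset (Fin n)),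
      (∀ x y, y ∈ N x ↔ y < x ∧ G.Adj (σ.symm x) (σ.symm y)) ∧
      (∀ x, ∀ y ∈ N x, y < x) ∧ (∀ x, (N x).card ≤ d) ∧
      (∀ z y, y ∈ N z → G.Adj (σ.symm z) (σ.symm y) ∧ G.Adj (σ.symm y) (σ.symm z)) ∧
      (∀ u, ∀ x ∈ N u,
        Cl (fun x y => G.Adj (σ.symm x) (σ.symm y)) (R + 1) (N x ∩ N u) = ∅) := by
  obtain ⟨σ, hσ⟩ := exists_order G.Adj d hdeg
  let N : Fin n → Finset (Fin n) :=
    fun x => Finset.univ.filter (fun y => y < x ∧ G.Adj (σ.symm x) (σ.symm y))
  have hmem : ∀ x y, y ∈ N x ↔ y < x ∧ G.Adj (σ.symm x) (σ.symm y) := by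
    intro x y
    simp [N]
  refine ⟨σ, N, hmem, fun x y hy => ((hmem x y).1 hy).1, ?_, ?_, ?_⟩
  · intro x
    have h := hσ (σ.symm x)
    refine le_trans (le_of_eq ?_) h
    apply Finset.card_bij (fun y _ => σ.symm y)
    · intro y hy
      rw [hmem] at hy
      rw [Finset.mem_filter]
      refine ⟨Finset.mem_univ _, hy.2, ?_⟩
      simpa using hy.1
    · intro y _ y' _ h
      exact σ.symm.injective h
    · intro y hy
      rw [Finset.mem_filter] at hy
      refine ⟨σ y, ?_, by simp⟩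
      rw [hmem]
      refine ⟨?_, by simpa using hy.2.1⟩
      simpa using hy.2.2
  · intro z y hy
    have := ((hmem z y).1 hy).2
    exact ⟨this, this.symm⟩
  · intro u x hx
    rw [Finset.eq_empty_iff_forall_notMem]
    intro T hT
    rw [mem_Cl] at hT
    obtain ⟨hT1, hT2⟩ := hT
    rw [SimpleGraph.cliqueFree_iff] at hG
    have hux := ((hmem u x).1 hx).2
    have hTu : ∀ i, G.Adj (σ.symm u) (σ.symm (T i)) := fun i =>
      ((hmem u _).1 (Finset.mem_inter.1 (hT1 i)).2).2
    have hTx : ∀ i, G.Adj (σ.symm x) (σ.symm (T i)) := fun i =>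
      ((hmem x _).1 (Finset.mem_inter.1 (hT1 i)).1).2
    have hTT : ∀ i j, i ≠ j → G.Adj (σ.symm (T i)) (σ.symm (T j)) := hT2
    set F : Fin (R + 3) → Fin n :=
      Fin.cons (σ.symm u) (Fin.cons (σ.symm x) (fun i => σ.symm (T i))) with hF
    have hFadj : ∀ i j, i ≠ j → G.Adj (F i) (F j) := by
      intro i j
      refine Fin.cases ?_ (fun i => ?_) i
      · refine Fin.cases ?_ (fun j => ?_) j
        · intro h; exact absurd rfl h
        · intro _
          refine Fin.cases ?_ (fun j => ?_) j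
          · simpa [hF] using hux
          · simpa [hF] using hTu j
      · refine Fin.cases ?_ (fun j => ?_) j
        · intro _
          refine Fin.cases ?_ (fun i => ?_) i
          · simpa [hF] using hux.symm
          · simpa [hF] using (hTu i).symm
        · refine Fin.cases ?_ (fun i => ?_) i
          · refine Fin.cases ?_ (fun j => ?_) j
            · intro h; exact absurd rfl h
            · intro _
              simpa [hF] using hTx j
          · refine Fin.cases ?_ (fun j => ?_) j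
            · intro _
              simpa [hF] using (hTx i).symm
            · intro h
              simpa [hF] using hTT i j (fun h' => h (by rw [h']))
    refine hG.false ⟨⟨F, ?_⟩, ?_⟩
    · intro i j hij
      exact hFadj i j ((SimpleGraph.completeGraph (Fin (R + 3))).ne_of_adj hij)
    · intro i j hij
      by_contra hne
      exact (G.ne_of_adj (hFadj i j hne)) hij

/-- Few vertices force a proper colouring with `d` colours. -/
theorem color_graph (r : ℕ) (hr : 3 ≤ r) : ∃ c : ℝ, 0 < c ∧ ∃ D : ℕ, ∀ d : ℕ, D ≤ d →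
      ∀ (n : ℕ) (G : SimpleGraph (Fin n)), G.CliqueFree r →
        (∀ S : Finset (Fin n), S.Nonempty →
            ∃ v ∈ S, (S.filter (fun u => G.Adj v u)).card ≤ d) →
        (n : ℝ) < Real.exp (c * d) → G.Colorable d := by
  obtain ⟨R, rfl⟩ : ∃ R, r = R + 3 := ⟨r - 3, by omega⟩
  obtain ⟨c, hc, D, hD⟩ := color_core R
  refine ⟨c, hc, D, ?_⟩
  intro d hd n G hG hdeg hn
  obtain ⟨σ, N, hmem, g1, g2, g3, g4⟩ := graph_order R d n G hG hdeg
  obtain ⟨f, f1, f2⟩ := hD d hd n N _ g1 g2 g3 g4 hn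
  refine ⟨SimpleGraph.Coloring.mk (fun v => (⟨f (σ v), f1 (σ v)⟩ : Fin d)) ?_⟩
  intro v w hvw he
  have he' : f (σ v) = f (σ w) := Fin.mk.inj he
  have hne : σ v ≠ σ w := fun h => (G.ne_of_adj hvw) (σ.injective h)
  rcases lt_or_gt_of_ne hne with h | h
  · refine f2 (σ w) (σ v) ?_ he'.symm
    rw [hmem]
    simp only [Equiv.symm_apply_apply]
    exact ⟨h, hvw.symm⟩
  · refine f2 (σ v) (σ w) ?_ he'
    rw [hmem]
    simp only [Equiv.symm_apply_apply]
    exact ⟨h, hvw⟩

/-- The order of `K_r`-free `d`-degenerate graphs with chromatic number `d + 1`. -/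
theorem order_bound (r : ℕ) (hr : 3 ≤ r) : ∃ c : ℝ, 0 < c ∧ ∃ d₀ : ℕ, ∀ d : ℕ, d₀ ≤ d →
      ∀ (V : Type) [Fintype V] (G : SimpleGraph V),
        G.CliqueFree r →
        (∀ s : Set V, s.Nonempty → ∃ v ∈ s, (G.neighborSet v ∩ s).ncard ≤ d) →
        G.chromaticNumber = ((d + 1 : ℕ) : ℕ∞) →
        Real.exp (c * (d : ℝ)) ≤ (Fintype.card V : ℝ) := by
  obtain ⟨c, hc, D, hD⟩ := color_graph r hr
  refine ⟨c, hc, D, ?_⟩
  intro d hd V _ G hG hdeg hchi
  by_contra hcon
  push Not at hcon
  set n := Fintype.card V with hn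
  let e : V ≃ Fin n := Fintype.equivFin V
  let G' : SimpleGraph (Fin n) := G.comap e.symm
  have hadj : ∀ i j, G'.Adj i j ↔ G.Adj (e.symm i) (e.symm j) := fun i j => Iff.rfl
  have hG' : G'.CliqueFree r := hG.comap ⟨(SimpleGraph.Embedding.comap e.symm.toEmbedding G).toCopy⟩
  have hcol : G'.Colorable d := by
    apply hD d hd n G' hG' _ hcon
    intro S hS
    obtain ⟨v, hv, hvd⟩ := hdeg (e.symm '' (S : Set (Fin n))) (hS.to_set.image _)
    obtain ⟨i, hi, rfl⟩ := hv
    refine ⟨i, hi, ?_⟩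
    refine le_trans ?_ hvd
    rw [← Set.ncard_coe_finset, ← Set.ncard_image_of_injective _ e.symm.injective]
    apply Set.ncard_le_ncard _ (Set.toFinite _)
    rintro _ ⟨j, hj, rfl⟩
    rw [Finset.mem_coe, Finset.mem_filter] at hj
    exact ⟨hj.2, ⟨j, hj.1, rfl⟩⟩
  have hcolG : G.Colorable d := by
    obtain ⟨C⟩ := hcol
    refine ⟨SimpleGraph.Coloring.mk (fun v => C (e v)) ?_⟩
    intro v w hvw
    apply C.valid
    rw [hadj]
    simpa using hvw
  have h1 := hcolG.chromaticNumber_le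
  rw [hchi] at h1
  have h2 : d + 1 ≤ d := by exact_mod_cast h1
  omega

end Pool.Agent.Y415.Frac
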