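import Mathlib

set_option autoImplicit false

open Finset

namespace Pool.Agent.Y415.Frac

variable {n : ℕ}

/-- local factor of a sequential random subset -/
noncomputable def fac (α : Fin n → Finset (Fin n) → ℝ) (I : Finset (Fin n)) (x : Fin n) : ℝ :=
  if x ∈ I then α x I else 1 - α x I

/-- `α x I` depends only on the part of `I` below `x` -/
def Adapted (α : Fin n → Finset (Fin n) → ℝ) : Prop :=
  ∀ x I J, (∀ y, y < x → (y ∈ I ↔ y ∈ J)) → α x I = α x J

theorem fac_insert_lt {α : Fin n → Finset (Fin n) → ℝ} (h : Adapted α) (I : Finset (Fin n))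
    (a x : Fin n) (hx : x < a) : fac α (insert a I) x = fac α I x := by
  have h1 : (x ∈ insert a I) ↔ x ∈ I := by
    rw [Finset.mem_insert]
    constructor
    · rintro (h | h)
      · exact absurd h hx.ne
      · exact h
    · exact Or.inr
  have h2 : α x (insert a I) = α x I := by
    apply h
    intro y hy
    rw [Finset.mem_insert]
    constructor
    · rintro (h | h)
      · exact absurd h (hy.trans hx).ne
      · exact h
    · exact Or.inr
  unfold fac
  by_cases hxI : x ∈ I
  · rw [if_pos (h1.2 hxI), if_pos hxI, h2]
  · rw [if_neg (fun hh => hxI (h1.1 hh)), if_neg hxI, h2]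

theorem alpha_insert_le {α : Fin n → Finset (Fin n) → ℝ} (h : Adapted α) (I : Finset (Fin n))
    (a x : Fin n) (hx : x ≤ a) : α x (insert a I) = α x I := by
  apply h
  intro y hy
  rw [Finset.mem_insert]
  constructor
  · rintro (h | h)
    · exact absurd h (hy.trans_le hx).ne
    · exact h
  · exact Or.inr

theorem sum_fac {α : Fin n → Finset (Fin n) → ℝ} (h : Adapted α) (P : Finset (Fin n)) :
    ∑ I ∈ P.powerset, ∏ x ∈ P, fac α I x = 1 := by
  induction P using Finset.induction_on_max with
  | empty => simp
  | insert a s hs ih =>
    have ha : a ∉ s := fun hh => lt_irrefl _ (hs a hh)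
    rw [Finset.sum_powerset_insert ha, ← Finset.sum_add_distrib, ← ih]
    apply Finset.sum_congr rfl
    intro I hI
    have hI' : I ⊆ s := Finset.mem_powerset.1 hI
    have haI : a ∉ I := fun hh => ha (hI' hh)
    rw [Finset.prod_insert ha, Finset.prod_insert ha]
    have e1 : ∏ x ∈ s, fac α (insert a I) x = ∏ x ∈ s, fac α I x :=
      Finset.prod_congr rfl (fun x hx => fac_insert_lt h I a x (hs x hx))
    rw [e1]
    have e2 : fac α I a = 1 - α a I := by unfold fac; rw [if_neg haI]
    have e3 : fac α (insert a I) a = α a I := by
      unfold fac; rw [if_pos (Finset.mem_insert_self a I)]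
      exact alpha_insert_le h I a a le_rfl
    rw [e2, e3]; ring

theorem sum_fac_mem {α : Fin n → Finset (Fin n) → ℝ} (h : Adapted α) (P : Finset (Fin n))
    (x : Fin n) (hx : x ∈ P) :
    ∑ I ∈ P.powerset, (∏ y ∈ P, fac α I y) * ((if x ∈ I then (1:ℝ) else 0) - α x I) = 0 := by
  induction P using Finset.induction_on_max with
  | empty => simp at hx
  | insert a s hs ih =>
    have ha : a ∉ s := fun hh => lt_irrefl _ (hs a hh)
    rw [Finset.sum_powerset_insert ha, ← Finset.sum_add_distrib]
    by_cases hxa : x = a
    · subst hxa
      apply Finset.sum_eq_zero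
      intro I hI
      have hI' : I ⊆ s := Finset.mem_powerset.1 hI
      have haI : x ∉ I := fun hh => ha (hI' hh)
      rw [Finset.prod_insert ha, Finset.prod_insert ha]
      have e1 : ∏ y ∈ s, fac α (insert x I) y = ∏ y ∈ s, fac α I y :=
        Finset.prod_congr rfl (fun y hy => fac_insert_lt h I x y (hs y hy))
      rw [e1]
      have e2 : fac α I x = 1 - α x I := by unfold fac; rw [if_neg haI]
      have e3 : fac α (insert x I) x = α x I := by
        unfold fac; rw [if_pos (Finset.mem_insert_self x I)]
        exact alpha_insert_le h I x x le_rfl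
      rw [e2, e3, if_neg haI, if_pos (Finset.mem_insert_self x I), alpha_insert_le h I x x le_rfl]
      ring
    · have hxs : x ∈ s := by
        rcases Finset.mem_insert.1 hx with hh | hh
        · exact absurd hh hxa
        · exact hh
      refine Eq.trans ?_ (ih hxs)
      apply Finset.sum_congr rfl
      intro I hI
      have hI' : I ⊆ s := Finset.mem_powerset.1 hI
      have haI : a ∉ I := fun hh => ha (hI' hh)
      rw [Finset.prod_insert ha, Finset.prod_insert ha]
      have e1 : ∏ y ∈ s, fac α (insert a I) y = ∏ y ∈ s, fac α I y :=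
        Finset.prod_congr rfl (fun y hy => fac_insert_lt h I a y (hs y hy))
      rw [e1]
      have e2 : fac α I a = 1 - α a I := by unfold fac; rw [if_neg haI]
      have e3 : fac α (insert a I) a = α a I := by
        unfold fac; rw [if_pos (Finset.mem_insert_self a I)]
        exact alpha_insert_le h I a a le_rfl
      have e4 : (x ∈ insert a I) ↔ x ∈ I := by
        rw [Finset.mem_insert]
        constructor
        · rintro (hh | hh)
          · exact absurd hh hxa
          · exact hh
        · exact Or.inr
      have e5 : (if x ∈ insert a I then (1:ℝ) else 0) = if x ∈ I then 1 else 0 := by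
        by_cases hxI : x ∈ I
        · rw [if_pos (e4.2 hxI), if_pos hxI]
        · rw [if_neg (fun hh => hxI (e4.1 hh)), if_neg hxI]
      rw [e2, e3, e5, alpha_insert_le h I a x (hs x hxs).le]
      ring

end Pool.Agent.Y415.Frac
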