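import Pool.Agent.Y415.Frac.A

set_option autoImplicit false

open Finset
open scoped Classical

noncomputable section

namespace Pool.Agent.Y415.Frac

variable {n : ℕ}

/-- the part of the common back-neighbourhood of `x` and `u` of level exactly `j` -/
def DD (N : Fin n → Finset (Fin n)) (lev : Fin n → Fin n → ℕ) (j : ℕ) (x u : Fin n) :
    Finset (Fin n) :=
  (N x ∩ N u).filter (fun z => max (lev z u) (lev z x) = j)

/-- `x` is bad for `u` -/
def Bad (N : Fin n → Finset (Fin n)) (lev : Fin n → Fin n → ℕ) (R : ℕ) (m : Fin n → ℝ)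
    (x u : Fin n) : Prop :=
  ∃ j, lev x u ≤ j ∧ j ≤ R ∧ 1 < ∑ z ∈ DD N lev j x u, m z

/-- `u` is good before time `x` -/
def GB (N : Fin n → Finset (Fin n)) (lev : Fin n → Fin n → ℕ) (R : ℕ) (T : ℕ → ℝ)
    (m : Fin n → ℝ) (u x : Fin n) : Prop :=
  (∀ L, L ≤ R + 1 → ∑ y ∈ (N u).filter (fun y => lev y u < L ∧ y < x), m y ≤ T L) ∧
    ∑ y ∈ (N u).filter (fun y => y < x ∧ Bad N lev R m y u), m y ≤ 1 / 4

theorem DD_subset (N : Fin n → Finset (Fin n)) (lev : Fin n → Fin n → ℕ) (j : ℕ) (x u : Fin n) :
    DD N lev j x u ⊆ N x ∩ N u := Finset.filter_subset _ _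

theorem Bad_congr {N : Fin n → Finset (Fin n)} {lev : Fin n → Fin n → ℕ} {R : ℕ}
    {m m' : Fin n → ℝ} {x u : Fin n} (h : ∀ z ∈ N x ∩ N u, m z = m' z) :
    Bad N lev R m x u ↔ Bad N lev R m' x u := by
  have e : ∀ j, ∑ z ∈ DD N lev j x u, m z = ∑ z ∈ DD N lev j x u, m' z := fun j =>
    Finset.sum_congr rfl (fun z hz => h z (DD_subset N lev j x u hz))
  unfold Bad
  constructor
  · rintro ⟨j, h1, h2, h3⟩
    exact ⟨j, h1, h2, by rw [← e j]; exact h3⟩
  · rintro ⟨j, h1, h2, h3⟩
    exact ⟨j, h1, h2, by rw [e j]; exact h3⟩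

theorem GB_congr {N : Fin n → Finset (Fin n)} (hN : ∀ x, ∀ y ∈ N x, y < x)
    {lev : Fin n → Fin n → ℕ} {R : ℕ} {T : ℕ → ℝ}
    {m m' : Fin n → ℝ} {u x : Fin n} (h : ∀ z ∈ N u, z < x → m z = m' z) :
    GB N lev R T m u x ↔ GB N lev R T m' u x := by
  have hB : ∀ y ∈ N u, y < x → (Bad N lev R m y u ↔ Bad N lev R m' y u) := by
    intro y hy hyx
    apply Bad_congr
    intro z hz
    rw [Finset.mem_inter] at hz
    exact h z hz.2 ((hN y z hz.1).trans hyx)
  have e1 : ∀ L, ∑ y ∈ (N u).filter (fun y => lev y u < L ∧ y < x), m y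
      = ∑ y ∈ (N u).filter (fun y => lev y u < L ∧ y < x), m' y := by
    intro L
    apply Finset.sum_congr rfl
    intro y hy
    rw [Finset.mem_filter] at hy
    exact h y hy.1 hy.2.2
  have e2 : (N u).filter (fun y => y < x ∧ Bad N lev R m y u)
      = (N u).filter (fun y => y < x ∧ Bad N lev R m' y u) := by
    apply Finset.filter_congr
    intro y hy
    constructor
    · rintro ⟨h1, h2⟩; exact ⟨h1, (hB y hy h1).1 h2⟩
    · rintro ⟨h1, h2⟩; exact ⟨h1, (hB y hy h1).2 h2⟩
  have e3 : ∑ y ∈ (N u).filter (fun y => y < x ∧ Bad N lev R m y u), m y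
      = ∑ y ∈ (N u).filter (fun y => y < x ∧ Bad N lev R m' y u), m' y := by
    rw [e2]
    apply Finset.sum_congr rfl
    intro y hy
    rw [Finset.mem_filter] at hy
    exact h y hy.1 hy.2.1
  unfold GB
  rw [e3]
  constructor
  · rintro ⟨h1, h2⟩
    exact ⟨fun L hL => by rw [← e1 L]; exact h1 L hL, h2⟩
  · rintro ⟨h1, h2⟩
    exact ⟨fun L hL => by rw [e1 L]; exact h1 L hL, h2⟩

theorem GB_mono {N : Fin n → Finset (Fin n)}
    {lev : Fin n → Fin n → ℕ} {R : ℕ} {T : ℕ → ℝ}
    {m : Fin n → ℝ} (hm : ∀ y, 0 ≤ m y) {u x y : Fin n} (hyx : y ≤ x)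
    (h : GB N lev R T m u x) : GB N lev R T m u y := by
  refine ⟨fun L hL => le_trans ?_ (h.1 L hL), le_trans ?_ h.2⟩
  · apply Finset.sum_le_sum_of_subset_of_nonneg
    · intro z hz
      rw [Finset.mem_filter] at hz ⊢
      exact ⟨hz.1, hz.2.1, hz.2.2.trans_le hyx⟩
    · intro z _ _; exact hm z
  · apply Finset.sum_le_sum_of_subset_of_nonneg
    · intro z hz
      rw [Finset.mem_filter] at hz ⊢
      exact ⟨hz.1, hz.2.1.trans_le hyx, hz.2.2⟩
    · intro z _ _; exact hm z

/-- stopping lemma -/
theorem stop {N : Fin n → Finset (Fin n)}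
    {lev : Fin n → Fin n → ℕ} {R : ℕ} {T : ℕ → ℝ}
    {m : Fin n → ℝ} (hm : ∀ y, 0 ≤ m y) {u : Fin n}
    (h1 : ∀ L, L ≤ R + 1 →
      ∑ y ∈ (N u).filter (fun y => lev y u < L), (if GB N lev R T m u y then m y else 0) ≤ T L)
    (h2 : ∑ y ∈ (N u).filter (fun y => Bad N lev R m y u),
      (if GB N lev R T m u y then m y else 0) ≤ 1 / 4) (x : Fin n) :
    GB N lev R T m u x := by
  induction x using WellFoundedLT.induction with
  | ind x ih =>
    refine ⟨fun L hL => le_trans ?_ (h1 L hL), le_trans ?_ h2⟩
    · calc ∑ y ∈ (N u).filter (fun y => lev y u < L ∧ y < x), m y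
          = ∑ y ∈ (N u).filter (fun y => lev y u < L ∧ y < x),
              (if GB N lev R T m u y then m y else 0) := by
            apply Finset.sum_congr rfl
            intro y hy
            rw [Finset.mem_filter] at hy
            rw [if_pos (ih y hy.2.2)]
        _ ≤ _ := by
            apply Finset.sum_le_sum_of_subset_of_nonneg
            · intro z hz
              rw [Finset.mem_filter] at hz ⊢
              exact ⟨hz.1, hz.2.1⟩
            · intro z _ _
              split_ifs
              · exact hm z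
              · exact le_rfl
    · calc ∑ y ∈ (N u).filter (fun y => y < x ∧ Bad N lev R m y u), m y
          = ∑ y ∈ (N u).filter (fun y => y < x ∧ Bad N lev R m y u),
              (if GB N lev R T m u y then m y else 0) := by
            apply Finset.sum_congr rfl
            intro y hy
            rw [Finset.mem_filter] at hy
            rw [if_pos (ih y hy.2.1)]
        _ ≤ _ := by
            apply Finset.sum_le_sum_of_subset_of_nonneg
            · intro z hz
              rw [Finset.mem_filter] at hz ⊢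
              exact ⟨hz.1, hz.2.2⟩
            · intro z _ _
              split_ifs
              · exact hm z
              · exact le_rfl

/-- the mass lemma -/
theorem massL {N : Fin n → Finset (Fin n)} {lev : Fin n → Fin n → ℕ} {R : ℕ}
    (hlev : ∀ x u, lev x u ≤ R) {m : Fin n → ℝ} (hm : ∀ y, 0 ≤ m y) {x u : Fin n}
    (hN : ∀ x, ∀ y ∈ N x, y < x) (j0 : ℕ) (t : ℝ)
    (h1 : ∑ y ∈ (N u).filter (fun y => lev y u < j0 ∧ y < x), m y ≤ t)
    (h2 : ∀ j, j0 ≤ j → j ≤ R → ∑ z ∈ DD N lev j x u, m z ≤ 1) :
    ∑ y ∈ N x ∩ N u, m y ≤ t + (R + 1) := by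
  have e1 : ∀ y ∈ N x ∩ N u, m y ≤
      (if max (lev y u) (lev y x) < j0 then m y else 0) +
      ∑ j ∈ Finset.range (R + 1),
        (if j0 ≤ j then (if max (lev y u) (lev y x) = j then m y else 0) else 0) := by
    intro y _
    by_cases hj : max (lev y u) (lev y x) < j0
    · rw [if_pos hj]
      have : 0 ≤ ∑ j ∈ Finset.range (R + 1),
        (if j0 ≤ j then (if max (lev y u) (lev y x) = j then m y else 0) else 0) := by
        apply Finset.sum_nonneg
        intro j _
        split_ifs
        · exact hm y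
        · exact le_rfl
        · exact le_rfl
      linarith
    · rw [if_neg hj, zero_add]
      have hmem : max (lev y u) (lev y x) ∈ Finset.range (R + 1) := by
        rw [Finset.mem_range]
        have := hlev y u
        have := hlev y x
        omega
      calc m y = (if j0 ≤ max (lev y u) (lev y x) then
            (if max (lev y u) (lev y x) = max (lev y u) (lev y x) then m y else 0) else 0) := by
            rw [if_pos (not_lt.1 hj), if_pos rfl]
        _ ≤ _ := by
            apply Finset.single_le_sum (f := fun j =>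
              (if j0 ≤ j then (if max (lev y u) (lev y x) = j then m y else 0) else 0)) _ hmem
            intro j _
            split_ifs
            · exact hm y
            · exact le_rfl
            · exact le_rfl
  calc ∑ y ∈ N x ∩ N u, m y
      ≤ ∑ y ∈ N x ∩ N u, ((if max (lev y u) (lev y x) < j0 then m y else 0) +
      ∑ j ∈ Finset.range (R + 1),
        (if j0 ≤ j then (if max (lev y u) (lev y x) = j then m y else 0) else 0)) :=
        Finset.sum_le_sum e1
    _ = ∑ y ∈ N x ∩ N u, (if max (lev y u) (lev y x) < j0 then m y else 0) +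
        ∑ j ∈ Finset.range (R + 1), ∑ y ∈ N x ∩ N u,
        (if j0 ≤ j then (if max (lev y u) (lev y x) = j then m y else 0) else 0) := by
        rw [Finset.sum_add_distrib, Finset.sum_comm]
    _ ≤ t + ∑ j ∈ Finset.range (R + 1), (1 : ℝ) := by
        apply add_le_add
        · refine le_trans ?_ h1
          rw [← Finset.sum_filter]
          apply Finset.sum_le_sum_of_subset_of_nonneg
          · intro z hz
            rw [Finset.mem_filter, Finset.mem_inter] at hz
            rw [Finset.mem_filter]
            exact ⟨hz.1.2, lt_of_le_of_lt (le_max_left _ _) hz.2, hN x z hz.1.1⟩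
          · intro z _ _; exact hm z
        · apply Finset.sum_le_sum
          intro j hj
          by_cases hj0 : j0 ≤ j
          · simp only [if_pos hj0]
            rw [← Finset.sum_filter]
            exact h2 j hj0 (by rw [Finset.mem_range] at hj; omega)
          · simp only [if_neg hj0, Finset.sum_const_zero]
            norm_num
    _ = t + (R + 1) := by simp

end Pool.Agent.Y415.Frac
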