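import Pool.Agent.Y415.Frac.B

set_option autoImplicit false

open Finset
open scoped Classical

noncomputable section

namespace Pool.Agent.Y415.Frac

variable {n : ℕ}

/-- conditional inclusion probability -/
def pr (N : Fin n → Finset (Fin n)) (lev : Fin n → Fin n → ℕ) (R : ℕ) (T : ℕ → ℝ)
    (c : ℝ) (b : Fin n → ℝ) (B : ℝ) (x : Fin n) (I : Finset (Fin n)) : ℝ :=
  if (∀ y ∈ N x, y ∉ I) ∧
      GB N lev R T (fun y => if _h : y < x then pr N lev R T c b B y I else 0) x x ∧ b x ≤ B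
  then c * b x * ∏ y ∈ N x, (1 - (if _h : y < x then pr N lev R T c b B y I else 0))⁻¹
  else 0
termination_by x
decreasing_by all_goals exact _h

theorem pr_eq {N : Fin n → Finset (Fin n)} (hN : ∀ x, ∀ y ∈ N x, y < x)
    (lev : Fin n → Fin n → ℕ) (R : ℕ) (T : ℕ → ℝ)
    (c : ℝ) (b : Fin n → ℝ) (B : ℝ) (x : Fin n) (I : Finset (Fin n)) :
    pr N lev R T c b B x I =
      if (∀ y ∈ N x, y ∉ I) ∧ GB N lev R T (fun y => pr N lev R T c b B y I) x x ∧ b x ≤ B
      then c * b x * ∏ y ∈ N x, (1 - pr N lev R T c b B y I)⁻¹ else 0 := by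
  rw [pr]
  have e1 : GB N lev R T (fun y => if _h : y < x then pr N lev R T c b B y I else 0) x x ↔
      GB N lev R T (fun y => pr N lev R T c b B y I) x x := by
    apply GB_congr hN
    intro z _ hz
    simp [hz]
  have e2 : ∏ y ∈ N x, (1 - (if _h : y < x then pr N lev R T c b B y I else 0))⁻¹
      = ∏ y ∈ N x, (1 - pr N lev R T c b B y I)⁻¹ := by
    apply Finset.prod_congr rfl
    intro y hy
    simp [hN x y hy]
  rw [e2]
  by_cases hc : (∀ y ∈ N x, y ∉ I) ∧ GB N lev R T (fun y => pr N lev R T c b B y I) x x ∧ b x ≤ B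
  · rw [if_pos hc, if_pos ⟨hc.1, e1.2 hc.2.1, hc.2.2⟩]
  · rw [if_neg hc, if_neg]
    rintro ⟨h1, h2, h3⟩
    exact hc ⟨h1, e1.1 h2, h3⟩

theorem pr_adapted {N : Fin n → Finset (Fin n)} (hN : ∀ x, ∀ y ∈ N x, y < x)
    (lev : Fin n → Fin n → ℕ) (R : ℕ) (T : ℕ → ℝ)
    (c : ℝ) (b : Fin n → ℝ) (B : ℝ) : Adapted (pr N lev R T c b B) := by
  intro x
  induction x using WellFoundedLT.induction with
  | ind x ih =>
    intro I J hIJ
    have h0 : ∀ y, y < x → pr N lev R T c b B y I = pr N lev R T c b B y J :=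
      fun y hy => ih y hy I J (fun z hz => hIJ z (hz.trans hy))
    rw [pr_eq hN, pr_eq hN]
    have e1 : GB N lev R T (fun y => pr N lev R T c b B y I) x x ↔
        GB N lev R T (fun y => pr N lev R T c b B y J) x x := by
      apply GB_congr hN
      intro z _ hz
      exact h0 z hz
    have e2 : ∏ y ∈ N x, (1 - pr N lev R T c b B y I)⁻¹
        = ∏ y ∈ N x, (1 - pr N lev R T c b B y J)⁻¹ := by
      apply Finset.prod_congr rfl
      intro y hy
      rw [h0 y (hN x y hy)]
    have e3 : (∀ y ∈ N x, y ∉ I) ↔ (∀ y ∈ N x, y ∉ J) := by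
      constructor
      · intro h y hy hyJ
        exact h y hy ((hIJ y (hN x y hy)).2 hyJ)
      · intro h y hy hyJ
        exact h y hy ((hIJ y (hN x y hy)).1 hyJ)
    rw [e2]
    by_cases hc : (∀ y ∈ N x, y ∉ I) ∧ GB N lev R T (fun y => pr N lev R T c b B y I) x x ∧ b x ≤ B
    · rw [if_pos hc, if_pos ⟨e3.1 hc.1, e1.1 hc.2.1, hc.2.2⟩]
    · rw [if_neg hc, if_neg]
      rintro ⟨h1, h2, h3⟩
      exact hc ⟨e3.2 h1, e1.2 h2, h3⟩

/-- elementary inequality -/
theorem inv_le_exp {p : ℝ} (h0 : 0 ≤ p) (h1 : p ≤ 1 / 2) : (1 - p)⁻¹ ≤ Real.exp (2 * p) := by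
  have h2 : 0 < 1 - p := by linarith
  rw [inv_le_comm₀ h2 (Real.exp_pos _), ← Real.exp_neg]
  -- exp (-2p) ≤ 1 - p
  have hc : ConvexOn ℝ Set.univ Real.exp := convexOn_exp
  -- use exp(-2p) ≤ 1 - 2p + 2p^2 ≤ 1 - p
  have h3 : Real.exp (-(2 * p)) ≤ 1 - (2 * p) + (2 * p) ^ 2 / 2 := by
    have hq := Real.quadratic_le_exp_of_nonneg (x := 2 * p) (by linarith)
    -- exp(2p) ≥ 1 + 2p + 2p², so exp(-2p) ≤ 1/(1+2p+2p²)
    have h4 : Real.exp (-(2 * p)) ≤ (1 + 2 * p + (2 * p) ^ 2 / 2)⁻¹ := by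
      rw [Real.exp_neg]
      apply inv_anti₀ _ hq
      positivity
    refine h4.trans ?_
    rw [inv_le_iff_one_le_mul₀ (by positivity)]
    nlinarith [sq_nonneg p, sq_nonneg (p ^ 2)]
  nlinarith

theorem prod_inv_le {m : Fin n → ℝ} (A : Finset (Fin n))
    (hm : ∀ y ∈ A, 0 ≤ m y ∧ m y ≤ 1 / 2) :
    ∏ y ∈ A, (1 - m y)⁻¹ ≤ Real.exp (2 * ∑ y ∈ A, m y) := by
  rw [Finset.mul_sum, Real.exp_sum]
  apply Finset.prod_le_prod
  · intro y hy
    have := (hm y hy).2
    exact inv_nonneg.2 (by linarith)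
  · intro y hy
    exact inv_le_exp (hm y hy).1 (hm y hy).2

theorem sum_le_of_GB {N : Fin n → Finset (Fin n)} (hN : ∀ x, ∀ y ∈ N x, y < x)
    {lev : Fin n → Fin n → ℕ} {R : ℕ} (hlev : ∀ x u, lev x u ≤ R) {T : ℕ → ℝ}
    {m : Fin n → ℝ} {u : Fin n} (h : GB N lev R T m u u) :
    ∑ y ∈ N u, m y ≤ T (R + 1) := by
  have h1 := h.1 (R + 1) le_rfl
  have e : (N u).filter (fun y => lev y u < R + 1 ∧ y < u) = N u := by
    apply Finset.filter_true_of_mem
    intro y hy
    exact ⟨Nat.lt_succ_of_le (hlev y u), hN u y hy⟩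
  rwa [e] at h1

theorem pr_bound {N : Fin n → Finset (Fin n)} (hN : ∀ x, ∀ y ∈ N x, y < x)
    {lev : Fin n → Fin n → ℕ} {R : ℕ} (hlev : ∀ x u, lev x u ≤ R) {T : ℕ → ℝ}
    {c : ℝ} (hc : 0 ≤ c) {b : Fin n → ℝ} (hb : ∀ x, 0 ≤ b x) {B : ℝ}
    (hB : c * B * Real.exp (2 * T (R + 1)) ≤ 1 / 2) (x : Fin n) (I : Finset (Fin n)) :
    0 ≤ pr N lev R T c b B x I ∧ pr N lev R T c b B x I ≤ 1 / 2 := by
  induction x using WellFoundedLT.induction with
  | ind x ih =>
    rw [pr_eq hN]
    split_ifs with hcond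
    · have hprod : ∏ y ∈ N x, (1 - pr N lev R T c b B y I)⁻¹ ≤ Real.exp (2 * T (R + 1)) := by
        refine (prod_inv_le (N x) (fun y hy => ih y (hN x y hy))).trans ?_
        apply Real.exp_le_exp.2
        have := sum_le_of_GB hN hlev hcond.2.1
        linarith
      have hprod0 : 0 ≤ ∏ y ∈ N x, (1 - pr N lev R T c b B y I)⁻¹ := by
        apply Finset.prod_nonneg
        intro y hy
        have := (ih y (hN x y hy)).2
        exact inv_nonneg.2 (by linarith)
      constructor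
      · exact mul_nonneg (mul_nonneg hc (hb x)) hprod0
      · refine le_trans ?_ hB
        apply mul_le_mul _ hprod hprod0
        · exact mul_nonneg hc ((hb x).trans hcond.2.2)
        · exact mul_le_mul_of_nonneg_left hcond.2.2 hc
    · norm_num

/-- modified probabilities: vertices of `S` are never included -/
def prS (N : Fin n → Finset (Fin n)) (lev : Fin n → Fin n → ℕ) (R : ℕ) (T : ℕ → ℝ)
    (c : ℝ) (b : Fin n → ℝ) (B : ℝ) (S : Finset (Fin n)) (x : Fin n) (I : Finset (Fin n)) : ℝ :=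
  if x ∈ S then 0 else pr N lev R T c b B x I

/-- the weight of `I` in the process in which `S` is excluded -/
def W (N : Fin n → Finset (Fin n)) (lev : Fin n → Fin n → ℕ) (R : ℕ) (T : ℕ → ℝ)
    (c : ℝ) (b : Fin n → ℝ) (B : ℝ) (S : Finset (Fin n)) (I : Finset (Fin n)) : ℝ :=
  ∏ x, fac (prS N lev R T c b B S) I x

section
variable {N : Fin n → Finset (Fin n)} (hN : ∀ x, ∀ y ∈ N x, y < x)
    {lev : Fin n → Fin n → ℕ} {R : ℕ} (hlev : ∀ x u, lev x u ≤ R) {T : ℕ → ℝ}
    {c : ℝ} (hc : 0 ≤ c) {b : Fin n → ℝ} (hb : ∀ x, 0 ≤ b x) {B : ℝ}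
    (hB : c * B * Real.exp (2 * T (R + 1)) ≤ 1 / 2)

include hN in
theorem prS_adapted (S : Finset (Fin n)) : Adapted (prS N lev R T c b B S) := by
  intro x I J h
  unfold prS
  rw [pr_adapted hN lev R T c b B x I J h]

include hN in
theorem W_sum (S : Finset (Fin n)) : ∑ I, W N lev R T c b B S I = 1 := by
  have := sum_fac (prS_adapted (lev := lev) (R := R) (T := T) (c := c) (b := b) (B := B) hN S)
    (Finset.univ : Finset (Fin n))
  rw [Finset.powerset_univ] at this
  exact this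

include hN in
theorem W_mem (x : Fin n) : ∑ I, W N lev R T c b B ∅ I * (if x ∈ I then (1:ℝ) else 0)
    = ∑ I, W N lev R T c b B ∅ I * pr N lev R T c b B x I := by
  have := sum_fac_mem (prS_adapted (lev := lev) (R := R) (T := T) (c := c) (b := b) (B := B) hN ∅)
    (Finset.univ : Finset (Fin n)) x (Finset.mem_univ x)
  rw [Finset.powerset_univ] at this
  have e : ∀ I, prS N lev R T c b B ∅ x I = pr N lev R T c b B x I := by
    intro I; unfold prS; simp
  simp only [e, mul_sub, Finset.sum_sub_distrib] at this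
  unfold W
  linarith

include hN hlev hc hb hB in
theorem W_nonneg (S I : Finset (Fin n)) : 0 ≤ W N lev R T c b B S I := by
  apply Finset.prod_nonneg
  intro x _
  have h := pr_bound hN hlev hc hb hB x I
  unfold fac prS
  split_ifs
  · exact le_rfl
  · exact h.1
  · norm_num
  · linarith [h.2]

include hN in
theorem W_indep (I : Finset (Fin n)) (h : W N lev R T c b B ∅ I ≠ 0) :
    ∀ x ∈ I, ∀ y ∈ N x, y ∉ I := by
  intro x hx
  by_contra hcon
  apply h
  apply Finset.prod_eq_zero (Finset.mem_univ x)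
  unfold fac prS
  rw [if_pos hx, if_neg (Finset.notMem_empty x), pr_eq hN, if_neg]
  intro hh
  exact hcon hh.1

/-- splitting off the exclusion of `A` -/
theorem W_split (S A I : Finset (Fin n)) (hA : ∀ y ∈ A, y ∉ I) :
    W N lev R T c b B S I =
      W N lev R T c b B (S ∪ A) I * ∏ y ∈ A \ S, (1 - pr N lev R T c b B y I) := by
  have e : ∏ y ∈ A \ S, (1 - pr N lev R T c b B y I)
      = ∏ y, (if y ∈ A \ S then (1 - pr N lev R T c b B y I) else 1) := by
    rw [Finset.prod_ite_mem, Finset.univ_inter]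
  unfold W
  rw [e, ← Finset.prod_mul_distrib]
  apply Finset.prod_congr rfl
  intro y _
  unfold fac prS
  by_cases hyA : y ∈ A
  · have hyI := hA y hyA
    by_cases hyS : y ∈ S
    · simp [hyI, hyS, hyA]
    · simp [hyI, hyS, hyA]
  · by_cases hyS : y ∈ S
    · simp [hyS, hyA]
    · simp [hyS, hyA]

include hN hlev hc hb hB in
theorem W_tilt (S I : Finset (Fin n)) (x : Fin n) (hA : ∀ y ∈ N x, y ∉ I) :
    W N lev R T c b B S I * ∏ y ∈ N x, (1 - pr N lev R T c b B y I)⁻¹ =
      W N lev R T c b B (S ∪ N x) I * ∏ y ∈ N x ∩ S, (1 - pr N lev R T c b B y I)⁻¹ := by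
  rw [W_split S (N x) I hA]
  have e : ∏ y ∈ N x, (1 - pr N lev R T c b B y I)⁻¹
      = (∏ y ∈ N x ∩ S, (1 - pr N lev R T c b B y I)⁻¹) *
        ∏ y ∈ N x \ S, (1 - pr N lev R T c b B y I)⁻¹ := by
    rw [← Finset.prod_union (Finset.disjoint_sdiff_inter (N x) S).symm]
    congr 1
    ext y
    simp only [Finset.mem_union, Finset.mem_inter, Finset.mem_sdiff]
    tauto
  rw [e]
  have e2 : (∏ y ∈ N x \ S, (1 - pr N lev R T c b B y I)) *
      ∏ y ∈ N x \ S, (1 - pr N lev R T c b B y I)⁻¹ = 1 := by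
    rw [← Finset.prod_mul_distrib]
    apply Finset.prod_eq_one
    intro y _
    apply mul_inv_cancel₀
    have := (pr_bound hN hlev hc hb hB y I).2
    linarith
  calc _ = W N lev R T c b B (S ∪ N x) I * (∏ y ∈ N x ∩ S, (1 - pr N lev R T c b B y I)⁻¹) *
      ((∏ y ∈ N x \ S, (1 - pr N lev R T c b B y I)) *
      ∏ y ∈ N x \ S, (1 - pr N lev R T c b B y I)⁻¹) := by ring
    _ = _ := by rw [e2]; ring

include hN hlev hc hb hB in
/-- the main one-step inequality -/
theorem W_pr (S I : Finset (Fin n)) (x : Fin n) :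
    W N lev R T c b B S I * pr N lev R T c b B x I ≤
      c * b x * (W N lev R T c b B (S ∪ N x) I *
        (if GB N lev R T (fun y => pr N lev R T c b B y I) x x then
          Real.exp (2 * ∑ y ∈ N x ∩ S, pr N lev R T c b B y I) else 0)) := by
  have hW := W_nonneg hN hlev hc hb hB (S ∪ N x) I
  have hcb : 0 ≤ c * b x := mul_nonneg hc (hb x)
  have hR : 0 ≤ c * b x * (W N lev R T c b B (S ∪ N x) I *
        (if GB N lev R T (fun y => pr N lev R T c b B y I) x x then
          Real.exp (2 * ∑ y ∈ N x ∩ S, pr N lev R T c b B y I) else 0)) := by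
    apply mul_nonneg hcb
    apply mul_nonneg hW
    split_ifs
    · exact (Real.exp_pos _).le
    · exact le_rfl
  rw [pr_eq hN lev R T c b B x I]
  split_ifs with hcond hg
  · calc _ = c * b x * (W N lev R T c b B S I * ∏ y ∈ N x, (1 - pr N lev R T c b B y I)⁻¹) := by
          ring
      _ = c * b x * (W N lev R T c b B (S ∪ N x) I *
          ∏ y ∈ N x ∩ S, (1 - pr N lev R T c b B y I)⁻¹) := by
          rw [W_tilt hN hlev hc hb hB S I x hcond.1]
      _ ≤ _ := by
          apply mul_le_mul_of_nonneg_left _ hcb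
          apply mul_le_mul_of_nonneg_left _ hW
          exact prod_inv_le _ (fun y _ => pr_bound hN hlev hc hb hB y I)
  · exact absurd hcond.2.1 hg
  · rw [mul_zero]
    exact mul_nonneg hcb (mul_nonneg hW (Real.exp_pos _).le)
  · rw [mul_zero, mul_zero, mul_zero]

include hN hlev hc hb hB in
/-- exact formula for the top vertex -/
theorem W_pr_top (I : Finset (Fin n)) (x : Fin n) :
    W N lev R T c b B ∅ I * pr N lev R T c b B x I =
      c * b x * (W N lev R T c b B (N x) I *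
        (if GB N lev R T (fun y => pr N lev R T c b B y I) x x ∧ b x ≤ B then 1 else 0)) := by
  rw [pr_eq hN lev R T c b B x I]
  by_cases h1 : ∀ y ∈ N x, y ∉ I
  · by_cases h2 : GB N lev R T (fun y => pr N lev R T c b B y I) x x ∧ b x ≤ B
    · rw [if_pos ⟨h1, h2⟩, if_pos h2]
      have := W_tilt hN hlev hc hb hB ∅ I x h1
      rw [Finset.inter_empty, Finset.prod_empty, Finset.empty_union, mul_one] at this
      rw [← this]; ring
    · rw [if_neg h2, if_neg (fun hh => h2 hh.2)]; ring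
  · rw [if_neg (fun hh => h1 hh.1)]
    have : W N lev R T c b B (N x) I = 0 := by
      push Not at h1
      obtain ⟨y, hy, hyI⟩ := h1
      apply Finset.prod_eq_zero (Finset.mem_univ y)
      unfold fac prS
      rw [if_pos hyI, if_pos hy]
    rw [this]; ring

end

end Pool.Agent.Y415.Frac
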