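import Pool.Agent.Y415.Frac.C

set_option autoImplicit false

open Finset
open scoped Classical

noncomputable section

namespace Pool.Agent.Y415.Frac

variable {n : ℕ}

section
variable {N : Fin n → Finset (Fin n)} (hN : ∀ x, ∀ y ∈ N x, y < x)
    {lev : Fin n → Fin n → ℕ} {R : ℕ} (hlev : ∀ x u, lev x u ≤ R) {T : ℕ → ℝ}
    {c : ℝ} (hc : 0 ≤ c) {b : Fin n → ℝ} (hb : ∀ x, 0 ≤ b x) {B : ℝ}
    (hB : c * B * Real.exp (2 * T (R + 1)) ≤ 1 / 2)

include hN hlev hc hb hB in
theorem stepE (S : Finset (Fin n)) (x : Fin n) (Q : Finset (Fin n) → Prop)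
    [DecidablePred Q] (t : ℝ)
    (h : ∀ I, Q I → GB N lev R T (fun y => pr N lev R T c b B y I) x x →
      ∑ y ∈ N x ∩ S, pr N lev R T c b B y I ≤ t) :
    ∑ I, W N lev R T c b B S I * (if Q I then pr N lev R T c b B x I else 0)
      ≤ c * b x * Real.exp (2 * t) := by
  have hcb : 0 ≤ c * b x := mul_nonneg hc (hb x)
  calc ∑ I, W N lev R T c b B S I * (if Q I then pr N lev R T c b B x I else 0)
      ≤ ∑ I, c * b x * (W N lev R T c b B (S ∪ N x) I * Real.exp (2 * t)) := by
        apply Finset.sum_le_sum
        intro I _
        have hW := W_nonneg hN hlev hc hb hB (S ∪ N x) I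
        by_cases hQ : Q I
        · rw [if_pos hQ]
          refine (W_pr hN hlev hc hb hB S I x).trans ?_
          apply mul_le_mul_of_nonneg_left _ hcb
          apply mul_le_mul_of_nonneg_left _ hW
          split_ifs with hg
          · apply Real.exp_le_exp.2
            have := h I hQ hg
            linarith
          · exact (Real.exp_pos _).le
        · rw [if_neg hQ, mul_zero]
          exact mul_nonneg hcb (mul_nonneg hW (Real.exp_pos _).le)
    _ = c * b x * Real.exp (2 * t) := by
        rw [← Finset.mul_sum, ← Finset.sum_mul, W_sum hN, one_mul]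

include hN hlev hc hb hB in
/-- the contribution of the vertices that are not bad -/
theorem M1 (u x : Fin n) :
    ∑ I, W N lev R T c b B (N u) I *
      (if GB N lev R T (fun y => pr N lev R T c b B y I) u x ∧
          ¬ Bad N lev R (fun y => pr N lev R T c b B y I) x u
        then pr N lev R T c b B x I else 0)
      ≤ c * b x * Real.exp (2 * (T (lev x u) + (R + 1))) := by
  apply stepE hN hlev hc hb hB
  rintro I ⟨h1, h2⟩ _
  apply massL hlev (fun y => (pr_bound hN hlev hc hb hB y I).1) hN (lev x u)
  · exact h1.1 (lev x u) ((hlev x u).trans (Nat.le_succ R))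
  · intro j hj1 hj2
    by_contra hcon
    exact h2 ⟨j, hj1, hj2, not_le.1 hcon⟩

/-- pointwise inequality for bad vertices -/
theorem bad_pointwise {m : Fin n → ℝ} (hm : ∀ y, 0 ≤ m y) {u x : Fin n}
    (hN : ∀ x, ∀ y ∈ N x, y < x) (hlev : ∀ x u, lev x u ≤ R)
    (h1 : GB N lev R T m u x) (h2 : Bad N lev R m x u) (h3 : GB N lev R T m x x) :
    Real.exp (2 * ∑ y ∈ N x ∩ N u, m y) ≤
      ∑ j ∈ Finset.range (R + 1), (if lev x u ≤ j then
        Real.exp (2 * (T (j + 1) + (R + 1))) *
          (2 * ∑ y ∈ DD N lev j x u, (if ¬ Bad N lev R m y u ∧ ¬ Bad N lev R m y x ∧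
            GB N lev R T m u y ∧ GB N lev R T m x y then m y else 0)) else 0) := by
  -- the largest bad level
  obtain ⟨J, hJ1, hJ2, hJ3, hJ4⟩ : ∃ J, lev x u ≤ J ∧ J ≤ R ∧ 1 < ∑ z ∈ DD N lev J x u, m z ∧
      ∀ j, J < j → j ≤ R → ∑ z ∈ DD N lev j x u, m z ≤ 1 := by
    obtain ⟨j0, ha, hb, hc⟩ := h2
    have hne : ((Finset.range (R + 1)).filter
        (fun j => lev x u ≤ j ∧ 1 < ∑ z ∈ DD N lev j x u, m z)).Nonempty :=
      ⟨j0, by rw [Finset.mem_filter, Finset.mem_range]; exact ⟨by omega, ha, hc⟩⟩
    have hmax := Finset.max'_mem _ hne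
    rw [Finset.mem_filter, Finset.mem_range] at hmax
    refine ⟨_, hmax.2.1, by omega, hmax.2.2, ?_⟩
    intro j hj hjR
    by_contra hcon
    have : j ∈ (Finset.range (R + 1)).filter
        (fun j => lev x u ≤ j ∧ 1 < ∑ z ∈ DD N lev j x u, m z) := by
      rw [Finset.mem_filter, Finset.mem_range]
      exact ⟨by omega, le_trans hmax.2.1 hj.le, not_le.1 hcon⟩
    have := Finset.le_max' _ _ this
    omega
  have hmass : ∑ y ∈ N x ∩ N u, m y ≤ T (J + 1) + (R + 1) := by
    apply massL hlev hm hN (J + 1)
    · exact h1.1 (J + 1) (by omega)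
    · intro j hj1 hj2
      exact hJ4 j hj1 hj2
  have hgood : 1 ≤ 2 * ∑ y ∈ DD N lev J x u, (if ¬ Bad N lev R m y u ∧ ¬ Bad N lev R m y x ∧
            GB N lev R T m u y ∧ GB N lev R T m x y then m y else 0) := by
    have hsplit : ∑ y ∈ DD N lev J x u, m y ≤
        ∑ y ∈ DD N lev J x u, (if ¬ Bad N lev R m y u ∧ ¬ Bad N lev R m y x ∧
            GB N lev R T m u y ∧ GB N lev R T m x y then m y else 0) +
        ∑ y ∈ (N u).filter (fun y => y < x ∧ Bad N lev R m y u), m y +
        ∑ y ∈ (N x).filter (fun y => y < x ∧ Bad N lev R m y x), m y := by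
      have e1 : ∑ y ∈ DD N lev J x u, (if Bad N lev R m y u then m y else 0) ≤
          ∑ y ∈ (N u).filter (fun y => y < x ∧ Bad N lev R m y u), m y := by
        rw [← Finset.sum_filter]
        apply Finset.sum_le_sum_of_subset_of_nonneg
        · intro z hz
          rw [Finset.mem_filter] at hz ⊢
          have := DD_subset N lev J x u hz.1
          rw [Finset.mem_inter] at this
          exact ⟨this.2, hN x z this.1, hz.2⟩
        · intro z _ _; exact hm z
      have e2 : ∑ y ∈ DD N lev J x u, (if Bad N lev R m y x then m y else 0) ≤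
          ∑ y ∈ (N x).filter (fun y => y < x ∧ Bad N lev R m y x), m y := by
        rw [← Finset.sum_filter]
        apply Finset.sum_le_sum_of_subset_of_nonneg
        · intro z hz
          rw [Finset.mem_filter] at hz ⊢
          have := DD_subset N lev J x u hz.1
          rw [Finset.mem_inter] at this
          exact ⟨this.1, hN x z this.1, hz.2⟩
        · intro z _ _; exact hm z
      calc ∑ y ∈ DD N lev J x u, m y ≤ ∑ y ∈ DD N lev J x u,
            ((if ¬ Bad N lev R m y u ∧ ¬ Bad N lev R m y x ∧
            GB N lev R T m u y ∧ GB N lev R T m x y then m y else 0) +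
            (if Bad N lev R m y u then m y else 0) +
            (if Bad N lev R m y x then m y else 0)) := by
            apply Finset.sum_le_sum
            intro y hy
            have hyx : y < x := by
              have := DD_subset N lev J x u hy
              rw [Finset.mem_inter] at this
              exact hN x y this.1
            have g1 : GB N lev R T m u y := GB_mono hm hyx.le h1
            have g2 : GB N lev R T m x y := GB_mono hm hyx.le h3
            have := hm y
            by_cases b1 : Bad N lev R m y u
            · by_cases b2 : Bad N lev R m y x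
              · simp [b1, b2]; linarith
              · simp [b1, b2]
            · by_cases b2 : Bad N lev R m y x
              · simp [b1, b2]
              · simp [b1, b2, g1, g2]
        _ = _ := by rw [Finset.sum_add_distrib, Finset.sum_add_distrib]
        _ ≤ _ := by linarith
    have := h1.2
    have := h3.2
    linarith
  calc Real.exp (2 * ∑ y ∈ N x ∩ N u, m y) ≤ Real.exp (2 * (T (J + 1) + (R + 1))) := by
        apply Real.exp_le_exp.2; linarith
    _ ≤ Real.exp (2 * (T (J + 1) + (R + 1))) *
          (2 * ∑ y ∈ DD N lev J x u, (if ¬ Bad N lev R m y u ∧ ¬ Bad N lev R m y x ∧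
            GB N lev R T m u y ∧ GB N lev R T m x y then m y else 0)) :=
        le_mul_of_one_le_right (Real.exp_pos _).le hgood
    _ = (if lev x u ≤ J then
        Real.exp (2 * (T (J + 1) + (R + 1))) *
          (2 * ∑ y ∈ DD N lev J x u, (if ¬ Bad N lev R m y u ∧ ¬ Bad N lev R m y x ∧
            GB N lev R T m u y ∧ GB N lev R T m x y then m y else 0)) else 0) := by
        rw [if_pos hJ1]
    _ ≤ _ := by
        apply Finset.single_le_sum (f := fun j => (if lev x u ≤ j then
        Real.exp (2 * (T (j + 1) + (R + 1))) *
          (2 * ∑ y ∈ DD N lev j x u, (if ¬ Bad N lev R m y u ∧ ¬ Bad N lev R m y x ∧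
            GB N lev R T m u y ∧ GB N lev R T m x y then m y else 0)) else 0))
        · intro j _
          split_ifs
          · apply mul_nonneg (Real.exp_pos _).le
            apply mul_nonneg (by norm_num)
            apply Finset.sum_nonneg
            intro y _
            split_ifs
            · exact hm y
            · exact le_rfl
          · exact le_rfl
        · rw [Finset.mem_range]; omega

include hN hlev hc hb hB in
/-- the contribution of one vertex `y` in the presence of `u` and `x` -/
theorem M2y (u x y : Fin n) (j : ℕ) (hjR : j ≤ R) (hy : y ∈ DD N lev j x u) :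
    ∑ I, W N lev R T c b B (N u ∪ N x) I *
      (if ¬ Bad N lev R (fun y => pr N lev R T c b B y I) y u ∧
          ¬ Bad N lev R (fun y => pr N lev R T c b B y I) y x ∧
          GB N lev R T (fun y => pr N lev R T c b B y I) u y ∧
          GB N lev R T (fun y => pr N lev R T c b B y I) x y
        then pr N lev R T c b B y I else 0)
      ≤ c * b y * Real.exp (2 * (2 * (T (j + 1) + (R + 1)))) := by
  apply stepE hN hlev hc hb hB
  rintro I ⟨h1, h2, h3, h4⟩ _
  have hp : ∀ z, 0 ≤ pr N lev R T c b B z I := fun z => (pr_bound hN hlev hc hb hB z I).1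
  unfold DD at hy
  rw [Finset.mem_filter] at hy
  have hl1 : lev y u ≤ j := hy.2 ▸ le_max_left _ _
  have hl2 : lev y x ≤ j := hy.2 ▸ le_max_right _ _
  have m1 : ∑ z ∈ N y ∩ N u, pr N lev R T c b B z I ≤ T (j + 1) + (R + 1) := by
    apply massL hlev hp hN (j + 1)
    · exact h3.1 (j + 1) (by omega)
    · intro i hi1 hi2
      by_contra hcon
      exact h1 ⟨i, by omega, hi2, not_le.1 hcon⟩
  have m2 : ∑ z ∈ N y ∩ N x, pr N lev R T c b B z I ≤ T (j + 1) + (R + 1) := by
    apply massL hlev hp hN (j + 1)
    · exact h4.1 (j + 1) (by omega)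
    · intro i hi1 hi2
      by_contra hcon
      exact h2 ⟨i, by omega, hi2, not_le.1 hcon⟩
  rw [Finset.inter_union_distrib_left]
  have m3 := Finset.sum_union_inter (s₁ := N y ∩ N u) (s₂ := N y ∩ N x)
    (f := fun z => pr N lev R T c b B z I)
  have m4 : 0 ≤ ∑ z ∈ N y ∩ N u ∩ (N y ∩ N x), pr N lev R T c b B z I :=
    Finset.sum_nonneg (fun z _ => hp z)
  linarith

include hN hlev hc hb hB in
/-- the contribution of the bad vertices -/
theorem M2 (u x : Fin n) :
    ∑ I, W N lev R T c b B (N u) I *
      (if GB N lev R T (fun y => pr N lev R T c b B y I) u x ∧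
          Bad N lev R (fun y => pr N lev R T c b B y I) x u
        then pr N lev R T c b B x I else 0)
      ≤ c * b x * ∑ j ∈ Finset.range (R + 1), (if lev x u ≤ j then
        Real.exp (2 * (T (j + 1) + (R + 1))) *
          (2 * ∑ y ∈ DD N lev j x u, c * b y * Real.exp (2 * (2 * (T (j + 1) + (R + 1)))))
          else 0) := by
  have hcb : 0 ≤ c * b x := mul_nonneg hc (hb x)
  have hp : ∀ I z, 0 ≤ pr N lev R T c b B z I := fun I z => (pr_bound hN hlev hc hb hB z I).1
  calc ∑ I, W N lev R T c b B (N u) I *
      (if GB N lev R T (fun y => pr N lev R T c b B y I) u x ∧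
          Bad N lev R (fun y => pr N lev R T c b B y I) x u
        then pr N lev R T c b B x I else 0)
      ≤ ∑ I, c * b x * (W N lev R T c b B (N u ∪ N x) I *
        ∑ j ∈ Finset.range (R + 1), (if lev x u ≤ j then
        Real.exp (2 * (T (j + 1) + (R + 1))) *
          (2 * ∑ y ∈ DD N lev j x u,
            (if ¬ Bad N lev R (fun y => pr N lev R T c b B y I) y u ∧
              ¬ Bad N lev R (fun y => pr N lev R T c b B y I) y x ∧
              GB N lev R T (fun y => pr N lev R T c b B y I) u y ∧
              GB N lev R T (fun y => pr N lev R T c b B y I) x y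
            then pr N lev R T c b B y I else 0)) else 0)) := by
        apply Finset.sum_le_sum
        intro I _
        have hW := W_nonneg hN hlev hc hb hB (N u ∪ N x) I
        have hsum : 0 ≤ ∑ j ∈ Finset.range (R + 1), (if lev x u ≤ j then
        Real.exp (2 * (T (j + 1) + (R + 1))) *
          (2 * ∑ y ∈ DD N lev j x u,
            (if ¬ Bad N lev R (fun y => pr N lev R T c b B y I) y u ∧
              ¬ Bad N lev R (fun y => pr N lev R T c b B y I) y x ∧
              GB N lev R T (fun y => pr N lev R T c b B y I) u y ∧
              GB N lev R T (fun y => pr N lev R T c b B y I) x y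
            then pr N lev R T c b B y I else 0)) else 0) := by
          apply Finset.sum_nonneg
          intro j _
          split_ifs
          · apply mul_nonneg (Real.exp_pos _).le
            apply mul_nonneg (by norm_num)
            apply Finset.sum_nonneg
            intro y _
            split_ifs
            · exact hp I y
            · exact le_rfl
          · exact le_rfl
        by_cases hQ : GB N lev R T (fun y => pr N lev R T c b B y I) u x ∧
          Bad N lev R (fun y => pr N lev R T c b B y I) x u
        · rw [if_pos hQ]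
          refine (W_pr hN hlev hc hb hB (N u) I x).trans ?_
          apply mul_le_mul_of_nonneg_left _ hcb
          apply mul_le_mul_of_nonneg_left _ hW
          by_cases hg : GB N lev R T (fun y => pr N lev R T c b B y I) x x
          · rw [if_pos hg]
            exact bad_pointwise (hp I) hN hlev hQ.1 hQ.2 hg
          · rw [if_neg hg]
            exact hsum
        · rw [if_neg hQ, mul_zero]
          exact mul_nonneg hcb (mul_nonneg hW hsum)
    _ = c * b x * ∑ j ∈ Finset.range (R + 1), (if lev x u ≤ j then
        Real.exp (2 * (T (j + 1) + (R + 1))) *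
          (2 * ∑ y ∈ DD N lev j x u, ∑ I, W N lev R T c b B (N u ∪ N x) I *
            (if ¬ Bad N lev R (fun y => pr N lev R T c b B y I) y u ∧
              ¬ Bad N lev R (fun y => pr N lev R T c b B y I) y x ∧
              GB N lev R T (fun y => pr N lev R T c b B y I) u y ∧
              GB N lev R T (fun y => pr N lev R T c b B y I) x y
            then pr N lev R T c b B y I else 0)) else 0) := by
        rw [← Finset.mul_sum]
        congr 1
        simp only [Finset.mul_sum]
        rw [Finset.sum_comm]
        apply Finset.sum_congr rfl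
        intro j _
        by_cases hj : lev x u ≤ j
        · simp only [if_pos hj]
          rw [Finset.sum_comm]
          apply Finset.sum_congr rfl
          intro I _
          rw [Finset.mul_sum]
          apply Finset.sum_congr rfl
          intro y _
          ring
        · simp only [if_neg hj, mul_zero, Finset.sum_const_zero]
    _ ≤ _ := by
        apply mul_le_mul_of_nonneg_left _ hcb
        apply Finset.sum_le_sum
        intro j hj
        rw [Finset.mem_range] at hj
        split_ifs
        · apply mul_le_mul_of_nonneg_left _ (Real.exp_pos _).le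
          apply mul_le_mul_of_nonneg_left _ (by norm_num)
          apply Finset.sum_le_sum
          intro y hy
          exact M2y hN hlev hc hb hB u x y j (by omega) hy
        · exact le_rfl

end

end Pool.Agent.Y415.Frac
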