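import Pool.Agent.Y415.Frac.D

set_option autoImplicit false

open Finset
open scoped Classical

noncomputable section

namespace Pool.Agent.Y415.Frac

variable {n : ℕ}

section
variable {N : Fin n → Finset (Fin n)} (hN : ∀ x, ∀ y ∈ N x, y < x)
    {lev : Fin n → Fin n → ℕ} {R : ℕ} (hlev : ∀ x u, lev x u ≤ R) {T : ℕ → ℝ}
    (hT0 : 0 ≤ T 0) (hTpos : ∀ L, 1 ≤ L → L ≤ R + 1 → 0 < T L)
    {c : ℝ} (hc : 0 ≤ c) {b : Fin n → ℝ} (hb : ∀ x, 0 ≤ b x) {B : ℝ}
    (hB : c * B * Real.exp (2 * T (R + 1)) ≤ 1 / 2)

include hT0 hTpos in
/-- pointwise Markov inequality -/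
theorem markov_pointwise {m : Fin n → ℝ} (hm : ∀ y, 0 ≤ m y) (u : Fin n) :
    (if GB N lev R T m u u then (0:ℝ) else 1) ≤
      ∑ L ∈ Finset.Icc 1 (R + 1), (1 / T L) * ∑ x ∈ (N u).filter (fun x => lev x u < L),
        (if GB N lev R T m u x then m x else 0) +
      4 * ∑ x ∈ N u, (if GB N lev R T m u x ∧ Bad N lev R m x u then m x else 0) := by
  have hA : ∀ L ∈ Finset.Icc 1 (R + 1), 0 ≤ (1 / T L) *
      ∑ x ∈ (N u).filter (fun x => lev x u < L), (if GB N lev R T m u x then m x else 0) := by
    intro L hL
    rw [Finset.mem_Icc] at hL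
    apply mul_nonneg
    · exact div_nonneg zero_le_one (hTpos L hL.1 hL.2).le
    · apply Finset.sum_nonneg
      intro x _
      split_ifs
      · exact hm x
      · exact le_rfl
  have hZ : 0 ≤ 4 * ∑ x ∈ N u, (if GB N lev R T m u x ∧ Bad N lev R m x u then m x else 0) := by
    apply mul_nonneg (by norm_num)
    apply Finset.sum_nonneg
    intro x _
    split_ifs
    · exact hm x
    · exact le_rfl
  have hZ' : ∑ y ∈ (N u).filter (fun y => Bad N lev R m y u),
      (if GB N lev R T m u y then m y else 0) =
      ∑ x ∈ N u, (if GB N lev R T m u x ∧ Bad N lev R m x u then m x else 0) := by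
    rw [Finset.sum_filter]
    apply Finset.sum_congr rfl
    intro x _
    by_cases h1 : Bad N lev R m x u <;> by_cases h2 : GB N lev R T m u x <;> simp [h1, h2]
  by_cases hG : GB N lev R T m u u
  · rw [if_pos hG]
    exact add_nonneg (Finset.sum_nonneg hA) hZ
  · rw [if_neg hG]
    by_cases h1 : ∀ L, L ≤ R + 1 →
      ∑ y ∈ (N u).filter (fun y => lev y u < L), (if GB N lev R T m u y then m y else 0) ≤ T L
    · have h2 : ¬ (∑ y ∈ (N u).filter (fun y => Bad N lev R m y u),
          (if GB N lev R T m u y then m y else 0) ≤ 1 / 4) := by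
        intro h2
        exact hG (stop hm h1 h2 u)
      rw [hZ'] at h2
      have := Finset.sum_nonneg hA
      linarith [not_le.1 h2]
    · push Not at h1
      obtain ⟨L, hL, hL2⟩ := h1
      have hL1 : 1 ≤ L := by
        rcases Nat.eq_zero_or_pos L with h | h
        · exfalso
          subst h
          simp at hL2
          linarith
        · exact h
      have hmem : L ∈ Finset.Icc 1 (R + 1) := Finset.mem_Icc.2 ⟨hL1, hL⟩
      have h3 := Finset.single_le_sum hA hmem
      have h4 : (1:ℝ) ≤ (1 / T L) * ∑ x ∈ (N u).filter (fun x => lev x u < L),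
          (if GB N lev R T m u x then m x else 0) := by
        rw [one_div, inv_mul_eq_div, one_le_div (hTpos L hL1 hL)]
        exact hL2.le
      linarith

include hN hlev hT0 hTpos hc hb hB in
/-- the probability (in the process with `N u` excluded) that `u` is not good -/
theorem M4 (u : Fin n) :
    ∑ I, W N lev R T c b B (N u) I *
      (if GB N lev R T (fun y => pr N lev R T c b B y I) u u then (0:ℝ) else 1)
      ≤ ∑ L ∈ Finset.Icc 1 (R + 1), (1 / T L) * ∑ x ∈ (N u).filter (fun x => lev x u < L),
          (c * b x * Real.exp (2 * (T (lev x u) + (R + 1))) +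
            c * b x * ∑ j ∈ Finset.range (R + 1), (if lev x u ≤ j then
              Real.exp (2 * (T (j + 1) + (R + 1))) *
                (2 * ∑ y ∈ DD N lev j x u, c * b y * Real.exp (2 * (2 * (T (j + 1) + (R + 1)))))
                else 0)) +
        4 * ∑ x ∈ N u, c * b x * ∑ j ∈ Finset.range (R + 1), (if lev x u ≤ j then
              Real.exp (2 * (T (j + 1) + (R + 1))) *
                (2 * ∑ y ∈ DD N lev j x u, c * b y * Real.exp (2 * (2 * (T (j + 1) + (R + 1)))))
                else 0) := by
  have hp : ∀ I z, 0 ≤ pr N lev R T c b B z I := fun I z => (pr_bound hN hlev hc hb hB z I).1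
  have hsum : ∀ x, ∑ I, W N lev R T c b B (N u) I *
      (if GB N lev R T (fun y => pr N lev R T c b B y I) u x then pr N lev R T c b B x I else 0)
      ≤ c * b x * Real.exp (2 * (T (lev x u) + (R + 1))) +
            c * b x * ∑ j ∈ Finset.range (R + 1), (if lev x u ≤ j then
              Real.exp (2 * (T (j + 1) + (R + 1))) *
                (2 * ∑ y ∈ DD N lev j x u, c * b y * Real.exp (2 * (2 * (T (j + 1) + (R + 1)))))
                else 0) := by
    intro x
    refine le_trans (le_of_eq ?_) (add_le_add (M1 hN hlev hc hb hB u x) (M2 hN hlev hc hb hB u x))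
    rw [← Finset.sum_add_distrib]
    apply Finset.sum_congr rfl
    intro I _
    rw [← mul_add]
    congr 1
    by_cases h1 : GB N lev R T (fun y => pr N lev R T c b B y I) u x <;>
      by_cases h2 : Bad N lev R (fun y => pr N lev R T c b B y I) x u <;> simp [h1, h2]
  calc ∑ I, W N lev R T c b B (N u) I *
      (if GB N lev R T (fun y => pr N lev R T c b B y I) u u then (0:ℝ) else 1)
      ≤ ∑ I, W N lev R T c b B (N u) I *
        (∑ L ∈ Finset.Icc 1 (R + 1), (1 / T L) * ∑ x ∈ (N u).filter (fun x => lev x u < L),
        (if GB N lev R T (fun y => pr N lev R T c b B y I) u x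
          then pr N lev R T c b B x I else 0) +
      4 * ∑ x ∈ N u, (if GB N lev R T (fun y => pr N lev R T c b B y I) u x ∧
        Bad N lev R (fun y => pr N lev R T c b B y I) x u
          then pr N lev R T c b B x I else 0)) := by
        apply Finset.sum_le_sum
        intro I _
        apply mul_le_mul_of_nonneg_left _ (W_nonneg hN hlev hc hb hB (N u) I)
        exact markov_pointwise hT0 hTpos (hp I) u
    _ = ∑ L ∈ Finset.Icc 1 (R + 1), (1 / T L) * ∑ x ∈ (N u).filter (fun x => lev x u < L),
          ∑ I, W N lev R T c b B (N u) I *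
            (if GB N lev R T (fun y => pr N lev R T c b B y I) u x
              then pr N lev R T c b B x I else 0) +
        4 * ∑ x ∈ N u, ∑ I, W N lev R T c b B (N u) I *
          (if GB N lev R T (fun y => pr N lev R T c b B y I) u x ∧
            Bad N lev R (fun y => pr N lev R T c b B y I) x u
              then pr N lev R T c b B x I else 0) := by
        simp only [mul_add, Finset.sum_add_distrib]
        congr 1
        · simp only [Finset.mul_sum]
          rw [Finset.sum_comm]
          apply Finset.sum_congr rfl
          intro L _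
          rw [Finset.sum_comm]
          apply Finset.sum_congr rfl
          intro x _
          apply Finset.sum_congr rfl
          intro I _
          ring
        · simp only [Finset.mul_sum]
          rw [Finset.sum_comm]
          apply Finset.sum_congr rfl
          intro x _
          apply Finset.sum_congr rfl
          intro I _
          ring
    _ ≤ _ := by
        apply add_le_add
        · apply Finset.sum_le_sum
          intro L hL
          rw [Finset.mem_Icc] at hL
          apply mul_le_mul_of_nonneg_left _ (div_nonneg zero_le_one (hTpos L hL.1 hL.2).le)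
          apply Finset.sum_le_sum
          intro x _
          exact hsum x
        · apply mul_le_mul_of_nonneg_left _ (by norm_num)
          apply Finset.sum_le_sum
          intro x _
          exact M2 hN hlev hc hb hB u x

end

end Pool.Agent.Y415.Frac
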