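import Pool.Agent.Y415.Frac.K

set_option autoImplicit false

open Finset
open scoped Classical

noncomputable section

namespace Pool.Agent.Y415.Frac

variable {n : ℕ}

/-- The main probabilistic statement: given the static weights `β`, there is a probability
distribution on independent sets hitting every vertex with probability at least `C / (2 d)`. -/
theorem frac_main2 {N : Fin n → Finset (Fin n)} (hN : ∀ x, ∀ y ∈ N x, y < x)
    {d : ℕ} (hd : 0 < d) (hNd : ∀ x, (N x).card ≤ d)
    {lev : Fin n → Fin n → ℕ} {R : ℕ} (hlev : ∀ x u, lev x u ≤ R)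
    {T : ℕ → ℝ} (hTm : Monotone T) (hT0 : T 0 = 0)
    {Ω : Type*} [Fintype Ω] (μ : Ω → ℝ) (hμ : ∀ ω, 0 ≤ μ ω) (hμ1 : ∑ ω, μ ω = 1)
    (β : Ω → Fin n → ℝ) (hβ : ∀ ω x, 0 ≤ β ω x)
    (h1 : ∀ u, ∑ ω, μ ω * β ω u = 1)
    {Q : ℝ} (hQ : 0 < Q) (h2 : ∀ u, ∑ ω, μ ω * (β ω u * β ω u) ≤ Q)
    {P : ℕ → ℝ} (hPm : Monotone P) (hP0 : ∀ L, 0 ≤ P L)
    (hpair : ∀ u, ∀ x ∈ N u, ∑ ω, μ ω * (β ω u * β ω x) ≤ P (lev x u))
    {ξ : ℕ → ℝ}
    (htrip : ∀ u, ∀ x ∈ N u, ∀ j, lev x u ≤ j → j ≤ R →
      ∑ y ∈ DD N lev j x u, ∑ ω, μ ω * (β ω u * β ω x * β ω y) ≤ d * ξ j)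
    {C : ℝ} (hC : 0 < C)
    (hB : C / d * (8 * Q) * Real.exp (2 * T (R + 1)) ≤ 1 / 2)
    (n1 : ∀ L, L ≤ R → 8 * ((R:ℝ) + 1) * (C * Real.exp (2 * (T L + (R + 1))) * P L + 1) ≤ T (L + 1))
    (n2 : ∀ j, j ≤ R → 64 * ((R:ℝ) + 1) * C ^ 2 * Real.exp (6 * (T (j + 1) + (R + 1))) * ξ j ≤ 1) :
    ∃ w : Finset (Fin n) → ℝ, (∀ I, 0 ≤ w I) ∧ (∀ I, w I ≠ 0 → ∀ x ∈ I, ∀ y ∈ N x, y ∉ I) ∧
      (∀ v, C / (2 * d) ≤ ∑ I ∈ Finset.univ.filter (fun I : Finset (Fin n) => v ∈ I), w I) ∧
      (∀ x x', x ≠ x' → ∑ I ∈ Finset.univ.filter (fun I : Finset (Fin n) => x ∈ I ∧ x' ∈ I), w I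
        ≤ (C / d) ^ 2 * Q * Real.exp (2 * T (R + 1))) ∧
      ∑ I, w I = 1 := by
  have hdR : (0:ℝ) < d := by exact_mod_cast hd
  set c : ℝ := C / d with hc_def
  have hcpos : 0 < c := div_pos hC hdR
  have hc : 0 ≤ c := hcpos.le
  set B : ℝ := 8 * Q with hB_def
  have hBpos : 0 < B := by positivity
  have hcd : c * d = C := by rw [hc_def]; field_simp
  have hapos : (0:ℝ) < (R:ℝ) + 1 := by positivity
  have hTpos : ∀ L, 1 ≤ L → L ≤ R + 1 → 0 < T L := by
    intro L hL1 hL2
    obtain ⟨L', rfl⟩ : ∃ L', L = L' + 1 := ⟨L - 1, by omega⟩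
    have := n1 L' (by omega)
    have h3 : 0 < 8 * ((R:ℝ) + 1) * (C * Real.exp (2 * (T L' + (R + 1))) * P L' + 1) := by
      have := hP0 L'
      positivity
    linarith
  have hT0' : 0 ≤ T 0 := hT0.ge
  refine ⟨fun I => ∑ ω, μ ω * W N lev R T c (β ω) B ∅ I, ?_, ?_, ?_, ?_, ?_⟩
  · intro I
    exact Finset.sum_nonneg (fun ω _ => mul_nonneg (hμ ω) (W_nonneg hN hlev hc (hβ ω) hB ∅ I))
  · intro I hI
    obtain ⟨ω, _, hω⟩ := Finset.exists_ne_zero_of_sum_ne_zero hI
    exact W_indep hN I (right_ne_zero_of_mul hω)
  · intro u
    -- rewrite the covering probability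
    have e0 : ∑ I ∈ Finset.univ.filter (fun I : Finset (Fin n) => u ∈ I),
        ∑ ω, μ ω * W N lev R T c (β ω) B ∅ I =
        ∑ ω, μ ω * ∑ I, W N lev R T c (β ω) B ∅ I * (if u ∈ I then (1:ℝ) else 0) := by
      rw [Finset.sum_filter]
      simp only [Finset.mul_sum]
      rw [Finset.sum_comm]
      apply Finset.sum_congr rfl
      intro I _
      by_cases hu : u ∈ I
      · simp [hu]
      · simp [hu]
    rw [e0]
    -- the function F
    set F : Ω → ℝ := fun ω =>
      ∑ L ∈ Finset.Icc 1 (R + 1), (1 / T L) * ∑ x ∈ (N u).filter (fun x => lev x u < L),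
          (c * β ω x * Real.exp (2 * (T (lev x u) + (R + 1))) +
            c * β ω x * ∑ j ∈ Finset.range (R + 1), (if lev x u ≤ j then
              Real.exp (2 * (T (j + 1) + (R + 1))) *
                (2 * ∑ y ∈ DD N lev j x u,
                  c * β ω y * Real.exp (2 * (2 * (T (j + 1) + (R + 1)))))
                else 0)) +
        4 * ∑ x ∈ N u, c * β ω x * ∑ j ∈ Finset.range (R + 1), (if lev x u ≤ j then
              Real.exp (2 * (T (j + 1) + (R + 1))) *
                (2 * ∑ y ∈ DD N lev j x u,
                  c * β ω y * Real.exp (2 * (2 * (T (j + 1) + (R + 1)))))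
                else 0) with hF_def
    have hM4 : ∀ ω, ∑ I, W N lev R T c (β ω) B (N u) I *
      (if GB N lev R T (fun y => pr N lev R T c (β ω) B y I) u u then (0:ℝ) else 1) ≤ F ω :=
      fun ω => M4 hN hlev hT0' hTpos hc (hβ ω) hB u
    -- lower bound for each ω
    have hlow : ∀ ω, c * β ω u * ((1 - β ω u / B) - F ω) ≤
        ∑ I, W N lev R T c (β ω) B ∅ I * (if u ∈ I then (1:ℝ) else 0) := by
      intro ω
      rw [W_mem hN u]
      have e1 : ∑ I, W N lev R T c (β ω) B ∅ I * pr N lev R T c (β ω) B u I =
          c * β ω u * ∑ I, W N lev R T c (β ω) B (N u) I *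
        (if GB N lev R T (fun y => pr N lev R T c (β ω) B y I) u u ∧ β ω u ≤ B
          then (1:ℝ) else 0) := by
        rw [Finset.mul_sum]
        exact Finset.sum_congr rfl (fun I _ => W_pr_top hN hlev hc (hβ ω) hB I u)
      rw [e1]
      apply mul_le_mul_of_nonneg_left _ (mul_nonneg hc (hβ ω u))
      have e2 : (1 - β ω u / B) - ∑ I, W N lev R T c (β ω) B (N u) I *
          (if GB N lev R T (fun y => pr N lev R T c (β ω) B y I) u u then (0:ℝ) else 1) =
          ∑ I, W N lev R T c (β ω) B (N u) I * ((1 - β ω u / B) -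
          (if GB N lev R T (fun y => pr N lev R T c (β ω) B y I) u u then (0:ℝ) else 1)) := by
        simp only [mul_sub, Finset.sum_sub_distrib]
        rw [← Finset.sum_mul, ← Finset.sum_mul, W_sum hN, one_mul, one_mul]
      refine le_trans (sub_le_sub_left (hM4 ω) _) ?_
      rw [e2]
      apply Finset.sum_le_sum
      intro I _
      apply mul_le_mul_of_nonneg_left _ (W_nonneg hN hlev hc (hβ ω) hB (N u) I)
      have hq : 0 ≤ β ω u / B := div_nonneg (hβ ω u) hBpos.le
      by_cases g1 : GB N lev R T (fun y => pr N lev R T c (β ω) B y I) u u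
      · by_cases g2 : β ω u ≤ B
        · rw [if_pos g1, if_pos ⟨g1, g2⟩]; linarith
        · rw [if_pos g1, if_neg (fun hh => g2 hh.2)]
          have : 1 ≤ β ω u / B := by
            rw [one_le_div hBpos]; exact (not_le.1 g2).le
          linarith
      · rw [if_neg g1, if_neg (fun hh => g1 hh.1)]; linarith
    -- integrate over ω
    have hA : ∀ x ∈ N u, ∑ ω, μ ω * β ω u * (c * β ω x * Real.exp (2 * (T (lev x u) + (R + 1))))
        ≤ c * Real.exp (2 * (T (lev x u) + (R + 1))) * P (lev x u) := by
      intro x hx
      calc ∑ ω, μ ω * β ω u * (c * β ω x * Real.exp (2 * (T (lev x u) + (R + 1))))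
          = c * Real.exp (2 * (T (lev x u) + (R + 1))) * ∑ ω, μ ω * (β ω u * β ω x) := by
            rw [Finset.mul_sum]
            apply Finset.sum_congr rfl
            intro ω _
            ring
        _ ≤ _ := by
            apply mul_le_mul_of_nonneg_left (hpair u x hx)
            exact mul_nonneg hc (Real.exp_pos _).le
    have hZ : ∀ x ∈ N u, ∑ ω, μ ω * β ω u * (c * β ω x *
        ∑ j ∈ Finset.range (R + 1), (if lev x u ≤ j then
              Real.exp (2 * (T (j + 1) + (R + 1))) *
                (2 * ∑ y ∈ DD N lev j x u,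
                  c * β ω y * Real.exp (2 * (2 * (T (j + 1) + (R + 1)))))
                else 0)) ≤ 1 / (32 * d) := by
      intro x hx
      have e1 : ∑ ω, μ ω * β ω u * (c * β ω x *
        ∑ j ∈ Finset.range (R + 1), (if lev x u ≤ j then
              Real.exp (2 * (T (j + 1) + (R + 1))) *
                (2 * ∑ y ∈ DD N lev j x u,
                  c * β ω y * Real.exp (2 * (2 * (T (j + 1) + (R + 1)))))
                else 0)) =
          ∑ j ∈ Finset.range (R + 1), (if lev x u ≤ j then
            2 * c * c * Real.exp (6 * (T (j + 1) + (R + 1))) *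
              ∑ y ∈ DD N lev j x u, ∑ ω, μ ω * (β ω u * β ω x * β ω y) else 0) := by
        simp only [Finset.mul_sum]
        rw [Finset.sum_comm]
        apply Finset.sum_congr rfl
        intro j _
        by_cases hj : lev x u ≤ j
        · simp only [if_pos hj]
          simp only [Finset.mul_sum]
          rw [Finset.sum_comm]
          apply Finset.sum_congr rfl
          intro y _
          apply Finset.sum_congr rfl
          intro ω _
          have : Real.exp (6 * (T (j + 1) + (R + 1))) =
              Real.exp (2 * (T (j + 1) + (R + 1))) *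
                Real.exp (2 * (2 * (T (j + 1) + (R + 1)))) := by
            rw [← Real.exp_add]; congr 1; ring
          rw [this]; ring
        · simp only [if_neg hj, mul_zero, Finset.sum_const_zero]
      rw [e1]
      calc ∑ j ∈ Finset.range (R + 1), (if lev x u ≤ j then
            2 * c * c * Real.exp (6 * (T (j + 1) + (R + 1))) *
              ∑ y ∈ DD N lev j x u, ∑ ω, μ ω * (β ω u * β ω x * β ω y) else 0)
          ≤ ∑ j ∈ Finset.range (R + 1), 1 / (32 * d * ((R:ℝ) + 1)) := by
            apply Finset.sum_le_sum
            intro j hj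
            rw [Finset.mem_range] at hj
            split_ifs with hjl
            · have ht := htrip u x hx j hjl (by omega)
              have hn := n2 j (by omega)
              have hpos : 0 ≤ 2 * c * c * Real.exp (6 * (T (j + 1) + (R + 1))) := by positivity
              calc _ ≤ 2 * c * c * Real.exp (6 * (T (j + 1) + (R + 1))) * (d * ξ j) :=
                    mul_le_mul_of_nonneg_left ht hpos
                _ = (64 * ((R:ℝ) + 1) * C ^ 2 * Real.exp (6 * (T (j + 1) + (R + 1))) * ξ j) *
                    (1 / (32 * d * ((R:ℝ) + 1))) := by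
                    rw [← hcd]; field_simp; ring
                _ ≤ 1 * (1 / (32 * d * ((R:ℝ) + 1))) := by
                    apply mul_le_mul_of_nonneg_right hn
                    positivity
                _ = _ := one_mul _
            · positivity
        _ = 1 / (32 * d) := by
            rw [Finset.sum_const, Finset.card_range, nsmul_eq_mul]
            push_cast
            field_simp
    have hsumF : ∑ ω, μ ω * β ω u * F ω ≤ 1 / 4 := by
      rw [hF_def]
      rw [swap_aux]
      have part1 : ∑ L ∈ Finset.Icc 1 (R + 1), 1 / T L *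
          ∑ x ∈ (N u).filter (fun x => lev x u < L), ∑ ω, μ ω * β ω u *
          (c * β ω x * Real.exp (2 * (T (lev x u) + (R + 1))) +
            c * β ω x * ∑ j ∈ Finset.range (R + 1), (if lev x u ≤ j then
              Real.exp (2 * (T (j + 1) + (R + 1))) *
                (2 * ∑ y ∈ DD N lev j x u,
                  c * β ω y * Real.exp (2 * (2 * (T (j + 1) + (R + 1)))))
                else 0)) ≤ 1 / 8 := by
        calc _ ≤ ∑ L ∈ Finset.Icc 1 (R + 1), 1 / (8 * ((R:ℝ) + 1)) := by
              apply Finset.sum_le_sum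
              intro L hL
              rw [Finset.mem_Icc] at hL
              obtain ⟨L', rfl⟩ : ∃ L', L = L' + 1 := ⟨L - 1, by omega⟩
              have hTL := hTpos (L' + 1) hL.1 hL.2
              have hsum : ∑ x ∈ (N u).filter (fun x => lev x u < L' + 1), ∑ ω, μ ω * β ω u *
                (c * β ω x * Real.exp (2 * (T (lev x u) + (R + 1))) +
                c * β ω x * ∑ j ∈ Finset.range (R + 1), (if lev x u ≤ j then
                Real.exp (2 * (T (j + 1) + (R + 1))) *
                (2 * ∑ y ∈ DD N lev j x u,
                  c * β ω y * Real.exp (2 * (2 * (T (j + 1) + (R + 1)))))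
                else 0)) ≤ C * Real.exp (2 * (T L' + (R + 1))) * P L' + 1 := by
                calc _ ≤ ∑ x ∈ (N u).filter (fun x => lev x u < L' + 1),
                      (c * Real.exp (2 * (T L' + (R + 1))) * P L' + 1 / (32 * d)) := by
                      apply Finset.sum_le_sum
                      intro x hx
                      rw [Finset.mem_filter] at hx
                      simp only [mul_add, Finset.sum_add_distrib]
                      simp only [← mul_add]
                      apply add_le_add
                      · refine (hA x hx.1).trans ?_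
                        have hl : lev x u ≤ L' := Nat.lt_succ_iff.1 hx.2
                        have hTl : T (lev x u) ≤ T L' := hTm hl
                        have hPl : P (lev x u) ≤ P L' := hPm hl
                        apply mul_le_mul _ hPl (hP0 _)
                        · exact mul_nonneg hc (Real.exp_pos _).le
                        · apply mul_le_mul_of_nonneg_left _ hc
                          apply Real.exp_le_exp.2
                          linarith
                      · exact hZ x hx.1
                  _ ≤ d * (c * Real.exp (2 * (T L' + (R + 1))) * P L' + 1 / (32 * d)) := by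
                      rw [Finset.sum_const, nsmul_eq_mul]
                      apply mul_le_mul_of_nonneg_right
                      · have h3 : ((N u).filter (fun x => lev x u < L' + 1)).card ≤ d :=
                          (Finset.card_filter_le _ _).trans (hNd u)
                        exact_mod_cast h3
                      · have := hP0 L'
                        positivity
                  _ = C * Real.exp (2 * (T L' + (R + 1))) * P L' + 1 / 32 := by
                      rw [← hcd]; field_simp
                  _ ≤ _ := by norm_num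
              have hn := n1 L' (by omega)
              calc 1 / T (L' + 1) * _ ≤ 1 / T (L' + 1) *
                    (C * Real.exp (2 * (T L' + (R + 1))) * P L' + 1) :=
                    mul_le_mul_of_nonneg_left hsum (div_nonneg zero_le_one hTL.le)
                _ ≤ 1 / (8 * ((R:ℝ) + 1)) := by
                    rw [one_div_mul_eq_div, div_le_div_iff₀ hTL (by positivity)]
                    linarith
          _ = 1 / 8 := by
              rw [Finset.sum_const, Nat.card_Icc, nsmul_eq_mul]
              push_cast
              field_simp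
      have part2 : 4 * ∑ x ∈ N u, ∑ ω, μ ω * β ω u * (c * β ω x *
        ∑ j ∈ Finset.range (R + 1), (if lev x u ≤ j then
              Real.exp (2 * (T (j + 1) + (R + 1))) *
                (2 * ∑ y ∈ DD N lev j x u,
                  c * β ω y * Real.exp (2 * (2 * (T (j + 1) + (R + 1)))))
                else 0)) ≤ 1 / 8 := by
        calc _ ≤ 4 * ∑ x ∈ N u, 1 / (32 * (d:ℝ)) := by
              apply mul_le_mul_of_nonneg_left _ (by norm_num)
              exact Finset.sum_le_sum hZ
          _ ≤ 4 * (d * (1 / (32 * (d:ℝ)))) := by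
              apply mul_le_mul_of_nonneg_left _ (by norm_num)
              rw [Finset.sum_const, nsmul_eq_mul]
              apply mul_le_mul_of_nonneg_right
              · exact_mod_cast hNd u
              · positivity
          _ = 1 / 8 := by field_simp; norm_num
      linarith
    have hsum2 : ∑ ω, μ ω * β ω u * (β ω u / B) ≤ 1 / 8 := by
      calc ∑ ω, μ ω * β ω u * (β ω u / B) = (∑ ω, μ ω * (β ω u * β ω u)) / B := by
            rw [Finset.sum_div]
            apply Finset.sum_congr rfl
            intro ω _
            ring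
        _ ≤ Q / B := div_le_div_of_nonneg_right (h2 u) hBpos.le
        _ = 1 / 8 := by rw [hB_def]; field_simp
    calc C / (2 * d) = c * (1 / 2) := by rw [hc_def]; ring
      _ ≤ c * (1 - 1 / 8 - 1 / 4) := by
          apply mul_le_mul_of_nonneg_left _ hc
          norm_num
      _ ≤ c * (∑ ω, μ ω * β ω u - ∑ ω, μ ω * β ω u * (β ω u / B) - ∑ ω, μ ω * β ω u * F ω) := by
          apply mul_le_mul_of_nonneg_left _ hc
          rw [h1 u]; linarith
      _ = ∑ ω, μ ω * (c * β ω u * ((1 - β ω u / B) - F ω)) := by
          rw [← Finset.sum_sub_distrib, ← Finset.sum_sub_distrib, Finset.mul_sum]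
          apply Finset.sum_congr rfl
          intro ω _
          ring
      _ ≤ _ := by
          apply Finset.sum_le_sum
          intro ω _
          exact mul_le_mul_of_nonneg_left (hlow ω) (hμ ω)
  · -- pair probabilities
    have key : ∀ x x' : Fin n, x' < x →
        ∑ I ∈ Finset.univ.filter (fun I : Finset (Fin n) => x ∈ I ∧ x' ∈ I),
          ∑ ω, μ ω * W N lev R T c (β ω) B ∅ I ≤ c ^ 2 * Q * Real.exp (2 * T (R + 1)) := by
      intro x x' hxx
      have e0 : ∑ I ∈ Finset.univ.filter (fun I : Finset (Fin n) => x ∈ I ∧ x' ∈ I),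
          ∑ ω, μ ω * W N lev R T c (β ω) B ∅ I =
          ∑ ω, μ ω * ∑ I, W N lev R T c (β ω) B ∅ I *
            (if x ∈ I ∧ x' ∈ I then (1:ℝ) else 0) := by
        rw [Finset.sum_filter]
        simp only [Finset.mul_sum]
        rw [Finset.sum_comm]
        apply Finset.sum_congr rfl
        intro I _
        by_cases hu : x ∈ I ∧ x' ∈ I
        · simp [hu]
        · simp [hu]
      rw [e0]
      calc ∑ ω, μ ω * ∑ I, W N lev R T c (β ω) B ∅ I *
            (if x ∈ I ∧ x' ∈ I then (1:ℝ) else 0)
          ≤ ∑ ω, μ ω * (c * β ω x * (c * β ω x' * Real.exp (2 * T (R + 1)))) := by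
            apply Finset.sum_le_sum
            intro ω _
            exact mul_le_mul_of_nonneg_left (W_pair hN hlev hc (hβ ω) hB x x' hxx) (hμ ω)
        _ ≤ ∑ ω, (c ^ 2 * Real.exp (2 * T (R + 1))) *
            ((μ ω * (β ω x * β ω x) + μ ω * (β ω x' * β ω x')) / 2) := by
            apply Finset.sum_le_sum
            intro ω _
            have h1 := hμ ω
            have h2 : β ω x * β ω x' ≤ (β ω x * β ω x + β ω x' * β ω x') / 2 := by
              nlinarith [sq_nonneg (β ω x - β ω x')]
            have h3 : 0 ≤ c ^ 2 * Real.exp (2 * T (R + 1)) := by positivity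
            calc μ ω * (c * β ω x * (c * β ω x' * Real.exp (2 * T (R + 1)))) =
                (c ^ 2 * Real.exp (2 * T (R + 1))) * (μ ω * (β ω x * β ω x')) := by ring
              _ ≤ (c ^ 2 * Real.exp (2 * T (R + 1))) *
                  (μ ω * ((β ω x * β ω x + β ω x' * β ω x') / 2)) :=
                  mul_le_mul_of_nonneg_left (mul_le_mul_of_nonneg_left h2 h1) h3
              _ = _ := by ring
        _ = (c ^ 2 * Real.exp (2 * T (R + 1))) *
            ((∑ ω, μ ω * (β ω x * β ω x) + ∑ ω, μ ω * (β ω x' * β ω x')) / 2) := by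
            rw [← Finset.mul_sum, ← Finset.sum_div, Finset.sum_add_distrib]
        _ ≤ (c ^ 2 * Real.exp (2 * T (R + 1))) * Q := by
            apply mul_le_mul_of_nonneg_left _ (by positivity)
            linarith [h2 x, h2 x']
        _ = _ := by ring
    intro x x' hxx
    rcases lt_or_gt_of_ne hxx with h | h
    · have e1 : Finset.univ.filter (fun I : Finset (Fin n) => x ∈ I ∧ x' ∈ I) =
          Finset.univ.filter (fun I : Finset (Fin n) => x' ∈ I ∧ x ∈ I) := by
        ext I; simp [and_comm]
      rw [e1]
      exact key x' x h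
    · exact key x x' h
  · rw [Finset.sum_comm]
    simp only [← Finset.mul_sum, W_sum hN, mul_one]
    exact hμ1

end Pool.Agent.Y415.Frac
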