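import Mathlib

set_option autoImplicit false

open Finset
open scoped Classical

noncomputable section

namespace Pool.Agent.Y415.Frac

/-- Labels attached to a vertex at a given scale. -/
abbrev Lab (τ : Type*) := Option (Option (Option τ))

variable {τ : Type*} [Fintype τ] [DecidableEq τ]

theorem sum3 (f : Lab τ → ℝ) :
    ∑ l, f l = f none + (f (some none) + (f (some (some none)) +
      ∑ T, f (some (some (some T))))) := by
  rw [Fintype.sum_option, Fintype.sum_option, Fintype.sum_option]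

/-- Weights of the labels. -/
def mm (q ε : ℝ) (g : τ → ℝ) : Lab τ → ℝ
  | none => 1 - q
  | some none => q * (1 - ε)
  | some (some none) => q * ε * (1 - ∑ T, g T)
  | some (some (some T)) => q * ε * g T

/-- Factor for a heavy pair. -/
def bfH (ε : ℝ) (g : τ → ℝ) (S : Finset τ) : Lab τ → ℝ
  | none => 1
  | some none => 0
  | some (some none) => 0
  | some (some (some T)) => if T ∈ S then 1 / (ε * ∑ T ∈ S, g T) else 0

/-- Factor for a light pair. -/
def bfL (ε : ℝ) : Lab τ → ℝ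
  | none => 1
  | some none => 1 / (1 - ε)
  | some (some none) => 0
  | some (some (some _)) => 0

/-- The factor. -/
def bf (i h : Prop) (ε : ℝ) (g : τ → ℝ) (S : Finset τ) (l : Lab τ) : ℝ :=
  if i then (if h then bfH ε g S l else bfL ε l) else 1

theorem mm_nonneg {q ε : ℝ} {g : τ → ℝ} (hq0 : 0 ≤ q) (hq1 : q ≤ 1) (hε0 : 0 ≤ ε) (hε1 : ε ≤ 1)
    (hg : ∀ T, 0 ≤ g T) (hg1 : ∑ T, g T ≤ 1) (l : Lab τ) : 0 ≤ mm q ε g l := by
  match l with
  | none => exact sub_nonneg.2 hq1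
  | some none => exact mul_nonneg hq0 (sub_nonneg.2 hε1)
  | some (some none) => exact mul_nonneg (mul_nonneg hq0 hε0) (sub_nonneg.2 hg1)
  | some (some (some T)) => exact mul_nonneg (mul_nonneg hq0 hε0) (hg T)

theorem mm_sum (q ε : ℝ) (g : τ → ℝ) : ∑ l, mm q ε g l = 1 := by
  rw [sum3]
  simp only [mm]
  rw [← Finset.mul_sum]
  ring

theorem bfH_nonneg {ε : ℝ} {g : τ → ℝ} (hε0 : 0 < ε) (hg : ∀ T, 0 ≤ g T) (S : Finset τ)
    (l : Lab τ) : 0 ≤ bfH ε g S l := by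
  match l with
  | none => exact zero_le_one
  | some none => exact le_rfl
  | some (some none) => exact le_rfl
  | some (some (some T)) =>
    simp only [bfH]
    split_ifs
    · exact div_nonneg zero_le_one (mul_nonneg hε0.le (Finset.sum_nonneg fun T _ => hg T))
    · exact le_rfl

theorem bfL_nonneg {ε : ℝ} (hε1 : ε ≤ 1 / 2) (l : Lab τ) : 0 ≤ bfL ε l := by
  match l with
  | none => exact zero_le_one
  | some none => exact div_nonneg zero_le_one (by linarith)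
  | some (some none) => exact le_rfl
  | some (some (some T)) => exact le_rfl

theorem bf_nonneg {i h : Prop} {ε : ℝ} {g : τ → ℝ} (hε0 : 0 < ε) (hε1 : ε ≤ 1 / 2)
    (hg : ∀ T, 0 ≤ g T) (S : Finset τ) (l : Lab τ) : 0 ≤ bf i h ε g S l := by
  unfold bf
  split_ifs
  · exact bfH_nonneg hε0 hg S l
  · exact bfL_nonneg hε1 l
  · exact zero_le_one

theorem bf_none {i h : Prop} {ε : ℝ} {g : τ → ℝ} (S : Finset τ) : bf i h ε g S none = 1 := by
  unfold bf
  split_ifs <;> rfl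

theorem bf_le {i h : Prop} {ε η : ℝ} {g : τ → ℝ} (hε0 : 0 < ε) (hε1 : ε ≤ 1 / 2)
    (hη0 : 0 < η) (hη1 : η ≤ 1) (S : Finset τ) (hh : h → η ≤ ∑ T ∈ S, g T) (l : Lab τ) :
    bf i h ε g S l ≤ 1 / (ε * η) := by
  have h1 : ε * η ≤ 1 / 2 := by nlinarith
  have h0 : 0 < ε * η := mul_pos hε0 hη0
  have h2 : 2 ≤ 1 / (ε * η) := by
    rw [le_div_iff₀ h0]; linarith
  unfold bf
  split_ifs with hi hh'
  · match l with
    | none => simp only [bfH]; linarith
    | some none => simp only [bfH]; linarith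
    | some (some none) => simp only [bfH]; linarith
    | some (some (some T)) =>
      simp only [bfH]
      split_ifs
      · apply one_div_le_one_div_of_le h0
        exact mul_le_mul_of_nonneg_left (hh hh') hε0.le
      · linarith
  · match l with
    | none => simp only [bfL]; linarith
    | some none =>
      simp only [bfL]
      refine le_trans ?_ h2
      rw [div_le_iff₀ (by linarith)]
      linarith
    | some (some none) => simp only [bfL]; linarith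
    | some (some (some T)) => simp only [bfL]; linarith
  · linarith

theorem sum_ite_mem (S : Finset τ) (f : τ → ℝ) (c : ℝ) :
    ∑ T, f T * (if T ∈ S then c else 0) = (∑ T ∈ S, f T) * c := by
  simp only [mul_ite, mul_zero]
  rw [Finset.sum_ite_mem, Finset.univ_inter, Finset.sum_mul]

theorem E_H {q ε : ℝ} {g : τ → ℝ} (hε0 : 0 < ε) (S : Finset τ) (hG : 0 < ∑ T ∈ S, g T) :
    ∑ l, mm q ε g l * bfH ε g S l = 1 := by
  rw [sum3]
  simp only [mm, bfH, mul_zero, zero_add, mul_one]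
  rw [sum_ite_mem, ← Finset.mul_sum]
  field_simp
  ring

theorem E_L {q ε : ℝ} {g : τ → ℝ} (hε1 : ε ≤ 1 / 2) :
    ∑ l, mm q ε g l * bfL ε l = 1 := by
  rw [sum3]
  simp only [mm, bfL, mul_zero, add_zero, mul_one, Finset.sum_const_zero]
  have : (1 - ε) ≠ 0 := by linarith
  field_simp
  ring

theorem E_bf {i h : Prop} {q ε η : ℝ} {g : τ → ℝ} (hε0 : 0 < ε) (hε1 : ε ≤ 1 / 2)
    (hη0 : 0 < η) (S : Finset τ) (hh : h → η ≤ ∑ T ∈ S, g T) :
    ∑ l, mm q ε g l * bf i h ε g S l = 1 := by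
  unfold bf
  split_ifs with hi hh'
  · exact E_H hε0 S (lt_of_lt_of_le hη0 (hh hh'))
  · exact E_L hε1
  · simp only [mul_one]
    exact mm_sum q ε g

theorem E_HH {q ε : ℝ} {g : τ → ℝ} (hε0 : 0 < ε) (S S' : Finset τ) (hG : 0 < ∑ T ∈ S, g T)
    (hG' : 0 < ∑ T ∈ S', g T) :
    ∑ l, mm q ε g l * (bfH ε g S l * bfH ε g S' l) =
      1 - q + q * (∑ T ∈ S ∩ S', g T) / (ε * (∑ T ∈ S, g T) * (∑ T ∈ S', g T)) := by
  rw [sum3]
  simp only [mm, bfH, mul_zero, zero_add, mul_one]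
  have : ∀ T, ((if T ∈ S then 1 / (ε * ∑ T ∈ S, g T) else 0) *
      if T ∈ S' then 1 / (ε * ∑ T ∈ S', g T) else 0) =
      if T ∈ S ∩ S' then (1 / (ε * ∑ T ∈ S, g T)) * (1 / (ε * ∑ T ∈ S', g T)) else 0 := by
    intro T
    by_cases h1 : T ∈ S <;> by_cases h2 : T ∈ S' <;> simp [h1, h2]
  simp only [this]
  rw [sum_ite_mem, ← Finset.mul_sum]
  field_simp

theorem E_LL {q ε : ℝ} {g : τ → ℝ} (hε1 : ε ≤ 1 / 2) :
    ∑ l, mm q ε g l * (bfL ε l * bfL ε l) = 1 - q + q / (1 - ε) := by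
  rw [sum3]
  simp only [mm, bfL, mul_zero, add_zero, mul_one, Finset.sum_const_zero]
  have : (1 - ε) ≠ 0 := by linarith
  field_simp

theorem E_HL {q ε : ℝ} {g : τ → ℝ} (S : Finset τ) :
    ∑ l, mm q ε g l * (bfH ε g S l * bfL ε l) = 1 - q := by
  rw [sum3]
  simp only [mm, bfL, bfH, mul_zero, zero_mul, add_zero, mul_one, Finset.sum_const_zero]

theorem E_LH {q ε : ℝ} {g : τ → ℝ} (S : Finset τ) :
    ∑ l, mm q ε g l * (bfL ε l * bfH ε g S l) = 1 - q := by
  rw [sum3]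
  simp only [mm, bfL, bfH, mul_zero, zero_mul, add_zero, mul_one, Finset.sum_const_zero]

/-- abbreviation for the `in` factor -/
def bi (h : Prop) (ε : ℝ) (g : τ → ℝ) (S : Finset τ) (l : Lab τ) : ℝ :=
  if h then bfH ε g S l else bfL ε l

theorem inv_bound {ε : ℝ} (hε0 : 0 < ε) (hε1 : ε ≤ 1 / 2) : 1 / (1 - ε) ≤ 1 + 2 * ε := by
  rw [div_le_iff₀ (by linarith)]
  nlinarith

theorem inv_bound2 {ε : ℝ} (hε0 : 0 < ε) (hε1 : ε ≤ 1 / 2) :
    (1 / (1 - ε)) * (1 / (1 - ε)) ≤ 1 + 6 * ε := by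
  have h := inv_bound hε0 hε1
  have h0 : 0 ≤ 1 / (1 - ε) := div_nonneg zero_le_one (by linarith)
  nlinarith

theorem pair2 {h h' : Prop} {q ε η : ℝ} {g : τ → ℝ} (hq0 : 0 ≤ q) (hε0 : 0 < ε)
    (hε1 : ε ≤ 1 / 2) (hη0 : 0 < η) (hη1 : η ≤ 1) (hg : ∀ T, 0 ≤ g T) (S S' : Finset τ)
    (hh : h → η ≤ ∑ T ∈ S, g T) (hh' : h' → η ≤ ∑ T ∈ S', g T) :
    ∑ l, mm q ε g l * (bi h ε g S l * bi h' ε g S' l) ≤
      1 + q * (6 * ε + 1 / (ε ^ 2 * η ^ 3) * (∑ T ∈ S ∩ S', g T) - (if h ∨ h' then 1 else 0)) := by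
  have hG : 0 ≤ ∑ T ∈ S ∩ S', g T := Finset.sum_nonneg fun T _ => hg T
  have hK : 0 ≤ 1 / (ε ^ 2 * η ^ 3) * (∑ T ∈ S ∩ S', g T) :=
    mul_nonneg (div_nonneg zero_le_one (by positivity)) hG
  have hqK := mul_nonneg hq0 hK
  have hqe : 0 ≤ q * ε := mul_nonneg hq0 hε0.le
  unfold bi
  by_cases h1 : h <;> by_cases h2 : h' <;> simp only [h1, h2, if_true, if_false, true_or, or_true,
    or_self]
  · have a1 := hh h1
    have a2 := hh' h2
    have p1 : 0 < ∑ T ∈ S, g T := lt_of_lt_of_le hη0 a1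
    have p2 : 0 < ∑ T ∈ S', g T := lt_of_lt_of_le hη0 a2
    rw [E_HH hε0 S S' p1 p2]
    have : q * (∑ T ∈ S ∩ S', g T) / (ε * (∑ T ∈ S, g T) * (∑ T ∈ S', g T)) ≤
        q * (1 / (ε ^ 2 * η ^ 3) * (∑ T ∈ S ∩ S', g T)) := by
      rw [mul_div_assoc]
      apply mul_le_mul_of_nonneg_left _ hq0
      rw [div_eq_mul_one_div, mul_comm]
      apply mul_le_mul_of_nonneg_right _ hG
      apply one_div_le_one_div_of_le (by positivity)
      calc ε ^ 2 * η ^ 3 = (ε * ε) * (η * η * η) := by ring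
        _ ≤ (ε * 1) * ((∑ T ∈ S, g T) * (∑ T ∈ S', g T) * 1) := by
            apply mul_le_mul
            · apply mul_le_mul_of_nonneg_left _ hε0.le; linarith
            · apply mul_le_mul _ hη1 hη0.le (by positivity)
              exact mul_le_mul a1 a2 hη0.le p1.le
            · positivity
            · linarith
        _ = _ := by ring
    nlinarith
  · rw [E_HL]; nlinarith
  · rw [E_LH]; nlinarith
  · rw [E_LL hε1]
    have := inv_bound hε0 hε1
    have h3 : q / (1 - ε) ≤ q * (1 + 2 * ε) := by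
      rw [div_eq_mul_one_div]
      exact mul_le_mul_of_nonneg_left this hq0
    nlinarith

theorem E_HHH {q ε : ℝ} {g : τ → ℝ} (hε0 : 0 < ε) (S1 S2 S3 : Finset τ)
    (hG1 : 0 < ∑ T ∈ S1, g T) (hG2 : 0 < ∑ T ∈ S2, g T) (hG3 : 0 < ∑ T ∈ S3, g T) :
    ∑ l, mm q ε g l * (bfH ε g S1 l * bfH ε g S2 l * bfH ε g S3 l) =
      1 - q + q * (∑ T ∈ S1 ∩ S2 ∩ S3, g T) /
        (ε ^ 2 * (∑ T ∈ S1, g T) * (∑ T ∈ S2, g T) * (∑ T ∈ S3, g T)) := by
  rw [sum3]
  simp only [mm, bfH, mul_zero, zero_add, mul_one]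
  have : ∀ T, ((if T ∈ S1 then 1 / (ε * ∑ T ∈ S1, g T) else 0) *
      (if T ∈ S2 then 1 / (ε * ∑ T ∈ S2, g T) else 0) *
      if T ∈ S3 then 1 / (ε * ∑ T ∈ S3, g T) else 0) =
      if T ∈ S1 ∩ S2 ∩ S3 then (1 / (ε * ∑ T ∈ S1, g T)) * (1 / (ε * ∑ T ∈ S2, g T)) *
        (1 / (ε * ∑ T ∈ S3, g T)) else 0 := by
    intro T
    by_cases h1 : T ∈ S1 <;> by_cases h2 : T ∈ S2 <;> by_cases h3 : T ∈ S3 <;>
      simp [h1, h2, h3]
  simp only [this]
  rw [sum_ite_mem, ← Finset.mul_sum]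
  field_simp

theorem E_LLL {q ε : ℝ} {g : τ → ℝ} (hε1 : ε ≤ 1 / 2) :
    ∑ l, mm q ε g l * (bfL ε l * bfL ε l * bfL ε l) =
      1 - q + q * ((1 / (1 - ε)) * (1 / (1 - ε))) := by
  rw [sum3]
  simp only [mm, bfL, mul_zero, add_zero, mul_one, Finset.sum_const_zero]
  have : (1 - ε) ≠ 0 := by linarith
  field_simp

theorem triple3 {h1 h2 h3 : Prop} {q ε η : ℝ} {g : τ → ℝ} (hq0 : 0 ≤ q) (hε0 : 0 < ε)
    (hε1 : ε ≤ 1 / 2) (hη0 : 0 < η) (hg : ∀ T, 0 ≤ g T) (S1 S2 S3 : Finset τ)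
    (hh1 : h1 → η ≤ ∑ T ∈ S1, g T) (hh2 : h2 → η ≤ ∑ T ∈ S2, g T)
    (hh3 : h3 → η ≤ ∑ T ∈ S3, g T) :
    ∑ l, mm q ε g l * (bi h1 ε g S1 l * bi h2 ε g S2 l * bi h3 ε g S3 l) ≤
      1 + q * (6 * ε + 1 / (ε ^ 2 * η ^ 3) * (∑ T ∈ S1 ∩ S2, g T) -
        (if h1 ∨ h2 then 1 else 0)) := by
  have hG : 0 ≤ ∑ T ∈ S1 ∩ S2, g T := Finset.sum_nonneg fun T _ => hg T
  have hK : 0 ≤ 1 / (ε ^ 2 * η ^ 3) * (∑ T ∈ S1 ∩ S2, g T) :=
    mul_nonneg (div_nonneg zero_le_one (by positivity)) hG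
  have hqK := mul_nonneg hq0 hK
  have hqe : 0 ≤ q * ε := mul_nonneg hq0 hε0.le
  have hmix : ∀ f : Lab τ → ℝ, f none = 1 → (∀ l, f (some l) = 0) →
      ∑ l, mm q ε g l * f l = 1 - q := by
    intro f h0 h1
    rw [sum3]
    simp only [mm, h0, h1, mul_one, mul_zero, Finset.sum_const_zero, add_zero]
  have hite : (if h1 ∨ h2 then (1:ℝ) else 0) ≤ 1 := by split_ifs <;> norm_num
  by_cases c1 : h1
  · by_cases c2 : h2
    · by_cases c3 : h3
      · -- all heavy
        have a1 := hh1 c1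
        have a2 := hh2 c2
        have a3 := hh3 c3
        have p1 : 0 < ∑ T ∈ S1, g T := lt_of_lt_of_le hη0 a1
        have p2 : 0 < ∑ T ∈ S2, g T := lt_of_lt_of_le hη0 a2
        have p3 : 0 < ∑ T ∈ S3, g T := lt_of_lt_of_le hη0 a3
        have hsub : ∑ T ∈ S1 ∩ S2 ∩ S3, g T ≤ ∑ T ∈ S1 ∩ S2, g T :=
          Finset.sum_le_sum_of_subset_of_nonneg Finset.inter_subset_left (fun T _ _ => hg T)
        have : q * (∑ T ∈ S1 ∩ S2 ∩ S3, g T) /
            (ε ^ 2 * (∑ T ∈ S1, g T) * (∑ T ∈ S2, g T) * (∑ T ∈ S3, g T)) ≤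
            q * (1 / (ε ^ 2 * η ^ 3) * (∑ T ∈ S1 ∩ S2, g T)) := by
          rw [mul_div_assoc]
          apply mul_le_mul_of_nonneg_left _ hq0
          rw [div_eq_mul_one_div, mul_comm]
          apply mul_le_mul _ hsub (Finset.sum_nonneg fun T _ => hg T)
            (div_nonneg zero_le_one (by positivity))
          apply one_div_le_one_div_of_le (by positivity)
          calc ε ^ 2 * η ^ 3 = (ε ^ 2) * (η * η * η) := by ring
            _ ≤ (ε ^ 2) * ((∑ T ∈ S1, g T) * (∑ T ∈ S2, g T) * (∑ T ∈ S3, g T)) := by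
                apply mul_le_mul_of_nonneg_left _ (by positivity)
                apply mul_le_mul _ a3 hη0.le (by positivity)
                exact mul_le_mul a1 a2 hη0.le p1.le
            _ = _ := by ring
        simp only [bi, c1, c2, c3, if_true, true_or]
        rw [E_HHH hε0 S1 S2 S3 p1 p2 p3]
        nlinarith
      · simp only [bi, c1, c2, c3, if_true, if_false, true_or]
        rw [hmix]
        · nlinarith
        · simp [bfH, bfL]
        · intro l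
          match l with
          | none => simp [bfH]
          | some none => simp [bfH]
          | some (some T) => simp [bfL]
    · simp only [bi, c1, c2, if_true, if_false, true_or]
      rw [hmix]
      · nlinarith
      · split_ifs <;> simp [bfH, bfL]
      · intro l
        match l with
        | none => simp [bfH]
        | some none => simp [bfH]
        | some (some T) => simp [bfL]
  · by_cases c2 : h2
    · simp only [bi, c1, c2, if_true, if_false, or_true]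
      rw [hmix]
      · nlinarith
      · split_ifs <;> simp [bfH, bfL]
      · intro l
        match l with
        | none => simp [bfH]
        | some none => simp [bfH]
        | some (some T) => simp [bfL]
    · by_cases c3 : h3
      · simp only [bi, c1, c2, c3, if_true, if_false, or_self]
        rw [hmix]
        · nlinarith
        · simp [bfH, bfL]
        · intro l
          match l with
          | none => simp [bfH]
          | some none => simp [bfH]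
          | some (some T) => simp [bfL]
      · simp only [bi, c1, c2, c3, if_false, or_self]
        rw [E_LLL hε1]
        have := inv_bound2 hε0 hε1
        have h4 := mul_le_mul_of_nonneg_left this hq0
        nlinarith

theorem bf_in {i h : Prop} {ε : ℝ} {g : τ → ℝ} (S : Finset τ) (hi : i) (l : Lab τ) :
    bf i h ε g S l = bi h ε g S l := by
  unfold bf bi
  rw [if_pos hi]

theorem bf_out {i h : Prop} {ε : ℝ} {g : τ → ℝ} (S : Finset τ) (hi : ¬ i) (l : Lab τ) :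
    bf i h ε g S l = 1 := by
  unfold bf
  rw [if_neg hi]

/-- Refined bound for one factor. -/
theorem refined {i1 i2 i3 h1 h2 h3 : Prop} [Decidable (i2 ∨ i3)] [Decidable (i1 ∧ i2)]
    [Decidable (i1 ∧ i3)] [Decidable (i2 ∧ i3)] [Decidable (i1 ∧ i2 ∧ (h1 ∨ h2))]
    {q ε η : ℝ} {g : τ → ℝ} (hq0 : 0 ≤ q) (hε0 : 0 < ε)
    (hε1 : ε ≤ 1 / 2) (hη0 : 0 < η) (hη1 : η ≤ 1) (hg : ∀ T, 0 ≤ g T) (S1 S2 S3 : Finset τ)
    (hh1 : h1 → η ≤ ∑ T ∈ S1, g T) (hh2 : h2 → η ≤ ∑ T ∈ S2, g T)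
    (hh3 : h3 → η ≤ ∑ T ∈ S3, g T) :
    ∑ l, mm q ε g l * (bf i1 h1 ε g S1 l * bf i2 h2 ε g S2 l * bf i3 h3 ε g S3 l) ≤
      1 + q * (6 * ε * (if i2 ∨ i3 then 1 else 0) + 1 / (ε ^ 2 * η ^ 3) *
        ((if i1 ∧ i2 then ∑ T ∈ S1 ∩ S2, g T else 0) +
         (if i1 ∧ i3 then ∑ T ∈ S1 ∩ S3, g T else 0) +
         (if i2 ∧ i3 then ∑ T ∈ S2 ∩ S3, g T else 0)) -
        (if i1 ∧ i2 ∧ (h1 ∨ h2) then 1 else 0)) := by
  have g12 : 0 ≤ ∑ T ∈ S1 ∩ S2, g T := Finset.sum_nonneg fun T _ => hg T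
  have g13 : 0 ≤ ∑ T ∈ S1 ∩ S3, g T := Finset.sum_nonneg fun T _ => hg T
  have g23 : 0 ≤ ∑ T ∈ S2 ∩ S3, g T := Finset.sum_nonneg fun T _ => hg T
  have hK : 0 ≤ 1 / (ε ^ 2 * η ^ 3) := div_nonneg zero_le_one (by positivity)
  by_cases c1 : i1 <;> by_cases c2 : i2 <;> by_cases c3 : i3
  · -- all in
    simp only [bf_in S1 c1, bf_in S2 c2, bf_in S3 c3]
    refine (triple3 hq0 hε0 hε1 hη0 hg S1 S2 S3 hh1 hh2 hh3).trans ?_
    simp only [c1, c2, c3, true_and, or_self, and_self, if_true]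
    have := mul_nonneg hK g13
    have := mul_nonneg hK g23
    nlinarith
  · simp only [bf_in S1 c1, bf_in S2 c2, bf_out S3 c3, mul_one]
    refine (pair2 hq0 hε0 hε1 hη0 hη1 hg S1 S2 hh1 hh2).trans ?_
    simp only [c1, c2, c3, true_and, or_false, and_self, and_false, if_true, if_false, add_zero,
      mul_one]
    exact le_rfl
  · simp only [bf_in S1 c1, bf_out S2 c2, bf_in S3 c3, mul_one]
    refine (pair2 hq0 hε0 hε1 hη0 hη1 hg S1 S3 hh1 hh3).trans ?_
    simp only [c1, c2, c3, true_and, false_and, and_false, false_or, and_self, if_true, if_false,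
      add_zero, zero_add, mul_one, sub_zero]
    have : (0:ℝ) ≤ (if h1 ∨ h3 then 1 else 0) := by split_ifs <;> norm_num
    have h5 := mul_nonneg hq0 this
    nlinarith
  · simp only [bf_out S2 c2, bf_out S3 c3, mul_one]
    rw [E_bf hε0 hε1 hη0 S1 hh1]
    simp only [c2, c3, false_and, and_false, or_self, if_false, mul_zero, add_zero, sub_zero]
    exact le_rfl
  · simp only [bf_out S1 c1, bf_in S2 c2, bf_in S3 c3, one_mul]
    refine (pair2 hq0 hε0 hε1 hη0 hη1 hg S2 S3 hh2 hh3).trans ?_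
    simp only [c1, c2, c3, false_and, or_self, and_self, if_true, if_false,
      add_zero, zero_add, mul_one, sub_zero]
    have : (0:ℝ) ≤ (if h2 ∨ h3 then 1 else 0) := by split_ifs <;> norm_num
    have h5 := mul_nonneg hq0 this
    nlinarith
  · simp only [bf_out S1 c1, bf_out S3 c3, mul_one, one_mul]
    rw [E_bf hε0 hε1 hη0 S2 hh2]
    simp only [c1, c2, c3, false_and, and_false, or_false, if_true, if_false, mul_zero, add_zero,
      sub_zero, mul_one]
    have := mul_nonneg hq0 hε0.le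
    nlinarith
  · simp only [bf_out S1 c1, bf_out S2 c2, mul_one, one_mul]
    rw [E_bf hε0 hε1 hη0 S3 hh3]
    simp only [c1, c2, c3, false_and, false_or, if_true, if_false, mul_zero, add_zero,
      sub_zero, mul_one]
    have := mul_nonneg hq0 hε0.le
    nlinarith
  · simp only [bf_out S1 c1, bf_out S2 c2, bf_out S3 c3, mul_one]
    rw [mm_sum]
    simp only [c1, c2, c3, false_and, or_self, if_false, mul_zero, add_zero, sub_zero]
    exact le_rfl

/-- Crude bound for one factor. -/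
theorem crude {i1 i2 i3 h1 h2 h3 : Prop} [Decidable (i2 ∨ i3)]
    {q ε η : ℝ} {g : τ → ℝ} (hq0 : 0 ≤ q) (hq1 : q ≤ 1)
    (hε0 : 0 < ε)
    (hε1 : ε ≤ 1 / 2) (hη0 : 0 < η) (hη1 : η ≤ 1) (hg : ∀ T, 0 ≤ g T) (hg1 : ∑ T, g T ≤ 1)
    (S1 S2 S3 : Finset τ)
    (hh1 : h1 → η ≤ ∑ T ∈ S1, g T) (hh2 : h2 → η ≤ ∑ T ∈ S2, g T)
    (hh3 : h3 → η ≤ ∑ T ∈ S3, g T) :
    ∑ l, mm q ε g l * (bf i1 h1 ε g S1 l * bf i2 h2 ε g S2 l * bf i3 h3 ε g S3 l) ≤
      1 + q * (1 / (ε * η)) ^ 2 * (if i2 ∨ i3 then 1 else 0) := by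
  by_cases c : i2 ∨ i3
  · rw [if_pos c, mul_one]
    have h0 : ∑ l, mm q ε g l * bf i1 h1 ε g S1 l = 1 := E_bf hε0 hε1 hη0 S1 hh1
    rw [Fintype.sum_option] at h0 ⊢
    rw [bf_none, mul_one] at h0
    rw [bf_none, bf_none, bf_none, mul_one, mul_one, mul_one]
    have hmn : mm q ε g none = 1 - q := rfl
    have hle : ∑ l, mm q ε g (some l) * (bf i1 h1 ε g S1 (some l) * bf i2 h2 ε g S2 (some l) *
        bf i3 h3 ε g S3 (some l)) ≤
        ∑ l, (mm q ε g (some l) * bf i1 h1 ε g S1 (some l)) * (1 / (ε * η)) ^ 2 := by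
      apply Finset.sum_le_sum
      intro l _
      have e1 : mm q ε g (some l) * (bf i1 h1 ε g S1 (some l) * bf i2 h2 ε g S2 (some l) *
        bf i3 h3 ε g S3 (some l)) = (mm q ε g (some l) * bf i1 h1 ε g S1 (some l)) *
          (bf i2 h2 ε g S2 (some l) * bf i3 h3 ε g S3 (some l)) := by ring
      rw [e1, sq]
      apply mul_le_mul_of_nonneg_left
      · apply mul_le_mul (bf_le hε0 hε1 hη0 hη1 S2 hh2 _) (bf_le hε0 hε1 hη0 hη1 S3 hh3 _)
          (bf_nonneg hε0 hε1 hg S3 _)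
        exact div_nonneg zero_le_one (by positivity)
      · exact mul_nonneg (mm_nonneg hq0 hq1 hε0.le (by linarith) hg hg1 _)
          (bf_nonneg hε0 hε1 hg S1 _)
    rw [← Finset.sum_mul] at hle
    have : ∑ l, mm q ε g (some l) * bf i1 h1 ε g S1 (some l) = q := by
      rw [hmn] at h0; linarith
    rw [this] at hle
    rw [hmn]
    linarith
  · rw [if_neg c, mul_zero, add_zero]
    have c2 : ¬ i2 := fun h => c (Or.inl h)
    have c3 : ¬ i3 := fun h => c (Or.inr h)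
    simp only [bf_out S2 c2, bf_out S3 c3, mul_one]
    rw [E_bf hε0 hε1 hη0 S1 hh1]

theorem ee_nonneg {i1 i2 i3 h1 h2 h3 : Prop} {q ε : ℝ} {g : τ → ℝ} (hq0 : 0 ≤ q) (hq1 : q ≤ 1)
    (hε0 : 0 < ε)
    (hε1 : ε ≤ 1 / 2) (hg : ∀ T, 0 ≤ g T) (hg1 : ∑ T, g T ≤ 1)
    (S1 S2 S3 : Finset τ) :
    0 ≤ ∑ l, mm q ε g l * (bf i1 h1 ε g S1 l * bf i2 h2 ε g S2 l * bf i3 h3 ε g S3 l) := by
  apply Finset.sum_nonneg
  intro l _
  apply mul_nonneg (mm_nonneg hq0 hq1 hε0.le (by linarith) hg hg1 _)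
  exact mul_nonneg (mul_nonneg (bf_nonneg hε0 hε1 hg S1 _) (bf_nonneg hε0 hε1 hg S2 _))
    (bf_nonneg hε0 hε1 hg S3 _)

end Pool.Agent.Y415.Frac
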