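import Pool.Agent.Y415.Frac.F
import Pool.Agent.Y415.Frac.G

set_option autoImplicit false
set_option linter.unusedSectionVars false

open Finset
open scoped Classical

noncomputable section

namespace Pool.Agent.Y415.Frac

variable {n : ℕ}

/-- Ordered `k`-cliques inside `A`. -/
def Cl (adj : Fin n → Fin n → Prop) (k : ℕ) (A : Finset (Fin n)) : Finset (Fin k → Fin n) :=
  Finset.univ.filter (fun T => (∀ i, T i ∈ A) ∧ ∀ i j, i ≠ j → adj (T i) (T j))

theorem mem_Cl {adj : Fin n → Fin n → Prop} {k : ℕ} {A : Finset (Fin n)} {T : Fin k → Fin n} :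
    T ∈ Cl adj k A ↔ (∀ i, T i ∈ A) ∧ ∀ i j, i ≠ j → adj (T i) (T j) := by
  simp [Cl]

theorem Cl_mono {adj : Fin n → Fin n → Prop} {k : ℕ} {A B : Finset (Fin n)} (h : A ⊆ B) :
    Cl adj k A ⊆ Cl adj k B := by
  intro T hT
  rw [mem_Cl] at hT ⊢
  exact ⟨fun i => h (hT.1 i), hT.2⟩

theorem Cl_inter {adj : Fin n → Fin n → Prop} {k : ℕ} {A B : Finset (Fin n)} :
    Cl adj k A ∩ Cl adj k B = Cl adj k (A ∩ B) := by
  ext T
  simp only [Finset.mem_inter, mem_Cl]
  constructor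
  · rintro ⟨⟨h1, h2⟩, h3, _⟩
    exact ⟨fun i => ⟨h1 i, h3 i⟩, h2⟩
  · rintro ⟨h1, h2⟩
    exact ⟨⟨fun i => (h1 i).1, h2⟩, fun i => (h1 i).2, h2⟩

theorem card_le_Cl_one {adj : Fin n → Fin n → Prop} (A : Finset (Fin n)) :
    A.card ≤ (Cl adj 1 A).card := by
  apply Finset.card_le_card_of_injOn (fun z => fun _ => z)
  · intro z hz
    rw [Finset.mem_coe, mem_Cl]
    exact ⟨fun _ => hz, fun i j hij => absurd (Subsingleton.elim i j) hij⟩
  · intro z _ z' _ h
    exact congrFun h 0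

theorem Cl_empty {adj : Fin n → Fin n → Prop} {k : ℕ} : Cl adj (k + 1) (∅ : Finset (Fin n)) = ∅ := by
  rw [Finset.eq_empty_iff_forall_notMem]
  intro T hT
  rw [mem_Cl] at hT
  exact absurd (hT.1 0) (Finset.notMem_empty _)

theorem sum_Cl {adj : Fin n → Fin n → Prop} {N : Fin n → Finset (Fin n)}
    (hadj : ∀ z y, y ∈ N z → adj z y ∧ adj y z) {k : ℕ} (A : Finset (Fin n)) :
    ∑ z ∈ A, (Cl adj k (N z ∩ A)).card ≤ (Cl adj (k + 1) A).card := by
  rw [← Finset.card_sigma]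
  apply Finset.card_le_card_of_injOn (fun p : (_ : Fin n) × (Fin k → Fin n) =>
    (Fin.cons p.1 p.2 : Fin (k + 1) → Fin n))
  · rintro ⟨z, T⟩ h
    rw [Finset.mem_coe, Finset.mem_sigma] at h
    obtain ⟨hz, hT⟩ := h
    dsimp only at hz hT
    rw [mem_Cl] at hT
    rw [Finset.mem_coe, mem_Cl]
    constructor
    · intro i
      refine Fin.cases ?_ (fun i => ?_) i
      · simpa using hz
      · simpa using (Finset.mem_inter.1 (hT.1 i)).2
    · intro i j
      refine Fin.cases ?_ (fun i => ?_) i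
      · refine Fin.cases ?_ (fun j => ?_) j
        · intro h; exact absurd rfl h
        · intro _
          simpa using (hadj z (T j) (Finset.mem_inter.1 (hT.1 j)).1).1
      · refine Fin.cases ?_ (fun j => ?_) j
        · intro _
          simpa using (hadj z (T i) (Finset.mem_inter.1 (hT.1 i)).1).2
        · intro h
          simpa using hT.2 i j (fun e => h (by rw [e]))
  · rintro ⟨z, T⟩ _ ⟨z', T'⟩ _ h
    dsimp only at h
    have h0 : z = z' := by simpa using congrFun h 0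
    have h1 : T = T' := by
      funext i
      simpa using congrFun h i.succ
    rw [h0, h1]

/-- Normalised indicator of tuples inside `N z`. -/
def gz (N : Fin n → Finset (Fin n)) (d : ℕ) (z : Fin n) (k : ℕ) (T : Fin k → Fin n) : ℝ :=
  if ∀ j, T j ∈ N z then 1 / (d:ℝ) ^ k else 0

theorem gz_nonneg (N : Fin n → Finset (Fin n)) (d : ℕ) (z : Fin n) (k : ℕ) (T : Fin k → Fin n) :
    0 ≤ gz N d z k T := by
  unfold gz; split_ifs <;> positivity

theorem gz_sum_le {N : Fin n → Finset (Fin n)} {d : ℕ} (hd : 0 < d) (z : Fin n)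
    (hN : (N z).card ≤ d) (k : ℕ) : ∑ T, gz N d z k T ≤ 1 := by
  unfold gz
  rw [← Finset.sum_filter, Finset.sum_const, nsmul_eq_mul]
  have h : (Finset.univ.filter (fun T : Fin k → Fin n => ∀ j, T j ∈ N z)) =
      Fintype.piFinset (fun _ => N z) := by
    ext T; simp [Fintype.mem_piFinset]
  rw [h, Fintype.card_piFinset_const]
  have hd' : (0:ℝ) < (d:ℝ) ^ k := by positivity
  rw [mul_one_div, div_le_one hd']
  exact_mod_cast Nat.pow_le_pow_left hN k

theorem gz_sum_Cl {adj : Fin n → Fin n → Prop} (N : Fin n → Finset (Fin n)) (d : ℕ) (z : Fin n)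
    (k : ℕ) {A : Finset (Fin n)} (hA : A ⊆ N z) :
    ∑ T ∈ Cl adj k A, gz N d z k T = ((Cl adj k A).card : ℝ) / (d:ℝ) ^ k := by
  have : ∀ T ∈ Cl adj k A, gz N d z k T = 1 / (d:ℝ) ^ k := by
    intro T hT
    rw [mem_Cl] at hT
    unfold gz
    rw [if_pos (fun j => hA (hT.1 j))]
  rw [Finset.sum_congr rfl this, Finset.sum_const, nsmul_eq_mul, mul_one_div]

/-- Heaviness. -/
def heavy (N : Fin n → Finset (Fin n)) (adj : Fin n → Fin n → Prop) (d : ℕ) (η : ℕ → ℝ)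
    (i : ℕ) (z : Fin n) (A : Finset (Fin n)) : Prop :=
  η i * (d:ℝ) ^ (i + 1) ≤ ((Cl adj (i + 1) (N z ∩ A)).card : ℝ)

theorem heavy_G {N : Fin n → Finset (Fin n)} {adj : Fin n → Fin n → Prop} {d : ℕ} (hd : 0 < d)
    {η : ℕ → ℝ} {i : ℕ} {z : Fin n} {A : Finset (Fin n)} (h : heavy N adj d η i z A) :
    η i ≤ ∑ T ∈ Cl adj (i + 1) (N z ∩ A), gz N d z (i + 1) T := by
  rw [gz_sum_Cl N d z (i + 1) Finset.inter_subset_left, le_div_iff₀ (by positivity)]
  exact h

/-- The level of `x` with respect to `u`. -/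
def lev (N : Fin n → Finset (Fin n)) (adj : Fin n → Fin n → Prop) (d : ℕ) (η : ℕ → ℝ)
    (R : ℕ) (x u : Fin n) : ℕ :=
  ((Finset.range R).filter (fun i => heavy N adj d η i x (N u))).sup (fun i => i + 1)

theorem lev_le (N : Fin n → Finset (Fin n)) (adj : Fin n → Fin n → Prop) (d : ℕ) (η : ℕ → ℝ)
    (R : ℕ) (x u : Fin n) : lev N adj d η R x u ≤ R := by
  unfold lev
  apply Finset.sup_le
  intro i hi
  rw [Finset.mem_filter, Finset.mem_range] at hi
  exact hi.1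

theorem lev_not_heavy {N : Fin n → Finset (Fin n)} {adj : Fin n → Fin n → Prop} {d : ℕ}
    {η : ℕ → ℝ} {R : ℕ} {x u : Fin n} {i : ℕ} (hi : i < R) (h : lev N adj d η R x u ≤ i) :
    ¬ heavy N adj d η i x (N u) := by
  intro hh
  have : i + 1 ≤ lev N adj d η R x u := by
    unfold lev
    exact Finset.le_sup (f := fun i => i + 1) (Finset.mem_filter.2 ⟨Finset.mem_range.2 hi, hh⟩)
  omega

theorem lev_heavy {N : Fin n → Finset (Fin n)} {adj : Fin n → Fin n → Prop} {d : ℕ}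
    {η : ℕ → ℝ} {R : ℕ} {x u : Fin n} {i : ℕ} (h : lev N adj d η R x u = i + 1) :
    heavy N adj d η i x (N u) := by
  unfold lev at h
  have hne : ((Finset.range R).filter (fun i => heavy N adj d η i x (N u))).Nonempty := by
    rw [Finset.nonempty_iff_ne_empty]
    intro he
    rw [he] at h
    simp at h
  obtain ⟨j, hj, hj'⟩ := Finset.exists_mem_eq_sup _ hne (fun i => i + 1)
  rw [hj'] at h
  have : j = i := by omega
  subst this
  exact (Finset.mem_filter.1 hj).2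

/-- Parameter constraints. -/
structure Par (ρ ε η : ℕ → ℝ) : Prop where
  ε0 : ∀ i, 0 < ε i
  ε1 : ∀ i, ε i ≤ 1 / 2
  η0 : ∀ i, 0 < η i
  η1 : ∀ i, η i ≤ 1
  ρ0 : ∀ i, 0 < ρ i
  ερ : ∀ i, ε i * ρ i = 1
  ηη : ∀ i, 3 * ρ i * η (i + 1) ≤ ε i ^ 2 * η i ^ 3

section static

variable (N : Fin n → Finset (Fin n)) (adj : Fin n → Fin n → Prop) (d : ℕ) (ρ ε η : ℕ → ℝ)

/-- The factor of vertex `z`, scale `i` and set `A`. -/
def bbz (i : ℕ) (z : Fin n) (A : Finset (Fin n)) (l : Lab (Fin (i + 1) → Fin n)) : ℝ :=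
  bf (z ∈ A) (heavy N adj d η i z A) (ε i) (gz N d z (i + 1)) (Cl adj (i + 1) (N z ∩ A)) l

/-- Weights at vertex `z` and scale `i`. -/
def mz (i : ℕ) (z : Fin n) (l : Lab (Fin (i + 1) → Fin n)) : ℝ :=
  mm (ρ i / d) (ε i) (gz N d z (i + 1)) l

/-- Expectation of the product of three factors. -/
def ee (i : ℕ) (z : Fin n) (A1 A2 A3 : Finset (Fin n)) : ℝ :=
  ∑ l, mz N d ρ ε i z l *
    (bbz N adj d ε η i z A1 l * bbz N adj d ε η i z A2 l * bbz N adj d ε η i z A3 l)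

/-- crude bound -/
def Mi (i : ℕ) : ℝ := Real.exp (2 * ρ i * (1 / (ε i * η i)) ^ 2)

variable {N adj d ρ ε η}

theorem ee_nonneg' (hd : 0 < d) (hNd : ∀ x, (N x).card ≤ d) (hp : Par ρ ε η) {i : ℕ}
    (hρ : ρ i ≤ d) (z : Fin n) (A1 A2 A3 : Finset (Fin n)) :
    0 ≤ ee N adj d ρ ε η i z A1 A2 A3 := by
  have hdR : (0:ℝ) < d := by exact_mod_cast hd
  exact ee_nonneg (div_nonneg (hp.ρ0 i).le hdR.le) ((div_le_one hdR).2 hρ) (hp.ε0 i) (hp.ε1 i)
    (gz_nonneg N d z (i + 1)) (gz_sum_le hd z (hNd z) (i + 1)) _ _ _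

theorem crudeProd (hd : 0 < d) (hNd : ∀ x, (N x).card ≤ d) (hp : Par ρ ε η) {i : ℕ}
    (hρ : ρ i ≤ d) {A1 A2 A3 : Finset (Fin n)} (h2 : A2.card ≤ d) (h3 : A3.card ≤ d) :
    ∏ z, ee N adj d ρ ε η i z A1 A2 A3 ≤ Mi ρ ε η i := by
  have hdR : (0:ℝ) < d := by exact_mod_cast hd
  have hK : 0 ≤ (1 / (ε i * η i)) ^ 2 := sq_nonneg _
  have hq0 : 0 ≤ ρ i / d := div_nonneg (hp.ρ0 i).le hdR.le
  calc ∏ z, ee N adj d ρ ε η i z A1 A2 A3
      ≤ ∏ z, Real.exp (ρ i / d * (1 / (ε i * η i)) ^ 2 * (if z ∈ A2 ∨ z ∈ A3 then 1 else 0)) := by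
        apply Finset.prod_le_prod
        · intro z _
          exact ee_nonneg' hd hNd hp hρ z A1 A2 A3
        · intro z _
          refine le_trans ?_ (Real.add_one_le_exp _)
          rw [add_comm]
          have h := crude (i1 := z ∈ A1) (i2 := z ∈ A2) (i3 := z ∈ A3)
            hq0 ((div_le_one hdR).2 hρ) (hp.ε0 i) (hp.ε1 i) (hp.η0 i) (hp.η1 i)
            (gz_nonneg N d z (i + 1)) (gz_sum_le hd z (hNd z) (i + 1))
            (Cl adj (i + 1) (N z ∩ A1)) (Cl adj (i + 1) (N z ∩ A2)) (Cl adj (i + 1) (N z ∩ A3))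
            (heavy_G (A := A1) hd) (heavy_G (A := A2) hd) (heavy_G (A := A3) hd)
          exact h
    _ = Real.exp (ρ i / d * (1 / (ε i * η i)) ^ 2 * ((A2 ∪ A3).card : ℝ)) := by
        rw [← Real.exp_sum, ← Finset.mul_sum, ← Finset.sum_filter, Finset.sum_const, nsmul_eq_mul,
          mul_one]
        congr 3
        have : (Finset.univ.filter (fun z => z ∈ A2 ∨ z ∈ A3)) = A2 ∪ A3 := by
          ext z; simp
        rw [this]
    _ ≤ Real.exp (ρ i / d * (1 / (ε i * η i)) ^ 2 * (2 * d)) := by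
        apply Real.exp_le_exp.2
        apply mul_le_mul_of_nonneg_left _ (mul_nonneg hq0 hK)
        have : (A2 ∪ A3).card ≤ 2 * d := by
          have := Finset.card_union_le A2 A3
          omega
        exact_mod_cast this
    _ = _ := by
        unfold Mi
        congr 1
        field_simp

theorem c_bound (hd : 0 < d) (hadj : ∀ z y, y ∈ N z → adj z y ∧ adj y z) {i : ℕ}
    {A B : Finset (Fin n)}
    (h : ((Cl adj (i + 2) (A ∩ B)).card : ℝ) ≤ η (i + 1) * (d:ℝ) ^ (i + 2)) :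
    ∑ z, (if z ∈ A ∧ z ∈ B then
      ∑ T ∈ Cl adj (i + 1) (N z ∩ A) ∩ Cl adj (i + 1) (N z ∩ B), gz N d z (i + 1) T else 0) ≤
      η (i + 1) * d := by
  have hdR : (0:ℝ) < d := by exact_mod_cast hd
  rw [← Finset.sum_filter]
  have e1 : (Finset.univ.filter (fun z => z ∈ A ∧ z ∈ B)) = A ∩ B := by ext z; simp
  rw [e1]
  have e2 : ∀ z ∈ A ∩ B, ∑ T ∈ Cl adj (i + 1) (N z ∩ A) ∩ Cl adj (i + 1) (N z ∩ B),
      gz N d z (i + 1) T = ((Cl adj (i + 1) (N z ∩ (A ∩ B))).card : ℝ) / (d:ℝ) ^ (i + 1) := by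
    intro z _
    rw [Cl_inter]
    have : N z ∩ A ∩ (N z ∩ B) = N z ∩ (A ∩ B) := by
      ext w; simp only [Finset.mem_inter]; tauto
    rw [this, gz_sum_Cl N d z (i + 1) Finset.inter_subset_left]
  rw [Finset.sum_congr rfl e2, ← Finset.sum_div, div_le_iff₀ (by positivity)]
  have h3 := sum_Cl hadj (k := i + 1) (A ∩ B)
  have h4 : (∑ z ∈ A ∩ B, ((Cl adj (i + 1) (N z ∩ (A ∩ B))).card : ℝ)) ≤
      ((Cl adj (i + 2) (A ∩ B)).card : ℝ) := by
    exact_mod_cast h3
  calc _ ≤ ((Cl adj (i + 2) (A ∩ B)).card : ℝ) := h4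
    _ ≤ _ := h
    _ = _ := by ring

/-- The exceptional set. -/
def EE (N : Fin n → Finset (Fin n)) (adj : Fin n → Fin n → Prop) (d : ℕ) (η : ℕ → ℝ)
    (i : ℕ) (A1 A2 : Finset (Fin n)) : Finset (Fin n) :=
  Finset.univ.filter (fun z => z ∈ A1 ∧ z ∈ A2 ∧
    (heavy N adj d η i z A1 ∨ heavy N adj d η i z A2))

theorem refinedProd (hd : 0 < d) (hNd : ∀ x, (N x).card ≤ d)
    (hadj : ∀ z y, y ∈ N z → adj z y ∧ adj y z) (hp : Par ρ ε η) {i : ℕ}
    (hρ : ρ i ≤ d) {A1 A2 A3 : Finset (Fin n)} (h2 : A2.card ≤ d) (h3 : A3.card ≤ d)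
    (h12 : ((Cl adj (i + 2) (A1 ∩ A2)).card : ℝ) ≤ η (i + 1) * (d:ℝ) ^ (i + 2))
    (h13 : ((Cl adj (i + 2) (A1 ∩ A3)).card : ℝ) ≤ η (i + 1) * (d:ℝ) ^ (i + 2))
    (h23 : ((Cl adj (i + 2) (A2 ∩ A3)).card : ℝ) ≤ η (i + 1) * (d:ℝ) ^ (i + 2)) :
    ∏ z, ee N adj d ρ ε η i z A1 A2 A3 ≤
      Real.exp (13 - ρ i / d * ((EE N adj d η i A1 A2).card : ℝ)) := by
  have hdR : (0:ℝ) < d := by exact_mod_cast hd
  have hq0 : 0 ≤ ρ i / d := div_nonneg (hp.ρ0 i).le hdR.le
  have he := hp.ε0 i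
  have hη := hp.η0 i
  have hK : 0 ≤ 1 / (ε i ^ 2 * η i ^ 3) := div_nonneg zero_le_one (by positivity)
  have hc12 := c_bound hd hadj h12
  have hc13 := c_bound hd hadj h13
  have hc23 := c_bound hd hadj h23
  calc ∏ z, ee N adj d ρ ε η i z A1 A2 A3
      ≤ ∏ z, Real.exp (ρ i / d * (6 * ε i * (if z ∈ A2 ∨ z ∈ A3 then 1 else 0) +
          1 / (ε i ^ 2 * η i ^ 3) *
          ((if z ∈ A1 ∧ z ∈ A2 then ∑ T ∈ Cl adj (i + 1) (N z ∩ A1) ∩ Cl adj (i + 1) (N z ∩ A2),
              gz N d z (i + 1) T else 0) +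
           (if z ∈ A1 ∧ z ∈ A3 then ∑ T ∈ Cl adj (i + 1) (N z ∩ A1) ∩ Cl adj (i + 1) (N z ∩ A3),
              gz N d z (i + 1) T else 0) +
           (if z ∈ A2 ∧ z ∈ A3 then ∑ T ∈ Cl adj (i + 1) (N z ∩ A2) ∩ Cl adj (i + 1) (N z ∩ A3),
              gz N d z (i + 1) T else 0)) -
          (if z ∈ A1 ∧ z ∈ A2 ∧ (heavy N adj d η i z A1 ∨ heavy N adj d η i z A2)
            then 1 else 0))) := by
        apply Finset.prod_le_prod
        · intro z _
          exact ee_nonneg' hd hNd hp hρ z A1 A2 A3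
        · intro z _
          refine le_trans ?_ (Real.add_one_le_exp _)
          rw [add_comm]
          have h := refined (i1 := z ∈ A1) (i2 := z ∈ A2) (i3 := z ∈ A3)
            hq0 (hp.ε0 i) (hp.ε1 i) (hp.η0 i) (hp.η1 i)
            (gz_nonneg N d z (i + 1))
            (Cl adj (i + 1) (N z ∩ A1)) (Cl adj (i + 1) (N z ∩ A2)) (Cl adj (i + 1) (N z ∩ A3))
            (heavy_G (A := A1) hd) (heavy_G (A := A2) hd) (heavy_G (A := A3) hd)
          exact h
    _ ≤ _ := by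
        rw [← Real.exp_sum, ← Finset.mul_sum]
        apply Real.exp_le_exp.2
        rw [Finset.sum_sub_distrib, Finset.sum_add_distrib, ← Finset.mul_sum, ← Finset.mul_sum,
          Finset.sum_add_distrib, Finset.sum_add_distrib]
        have e1 : ∑ z : Fin n, (if z ∈ A1 ∧ z ∈ A2 ∧
            (heavy N adj d η i z A1 ∨ heavy N adj d η i z A2) then (1:ℝ) else 0) =
            ((EE N adj d η i A1 A2).card : ℝ) := by
          rw [← Finset.sum_filter, Finset.sum_const, nsmul_eq_mul, mul_one]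
          rfl
        have e2 : ∑ z : Fin n, (if z ∈ A2 ∨ z ∈ A3 then (1:ℝ) else 0) ≤ 2 * d := by
          rw [← Finset.sum_filter, Finset.sum_const, nsmul_eq_mul, mul_one]
          have : (Finset.univ.filter (fun z => z ∈ A2 ∨ z ∈ A3)) = A2 ∪ A3 := by
            ext z; simp
          rw [this]
          have : (A2 ∪ A3).card ≤ 2 * d := by
            have := Finset.card_union_le A2 A3
            omega
          exact_mod_cast this
        rw [e1]
        set X : ℝ := ∑ z : Fin n, (if z ∈ A2 ∨ z ∈ A3 then (1:ℝ) else 0)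
        set Y : ℝ := ((EE N adj d η i A1 A2).card : ℝ)
        have hsum : ∀ a b c : ℝ, a ≤ η (i + 1) * d → b ≤ η (i + 1) * d → c ≤ η (i + 1) * d →
            ρ i / d * (6 * ε i * X + 1 / (ε i ^ 2 * η i ^ 3) * (a + b + c) - Y) ≤
              13 - ρ i / d * Y := by
          intro a b c ha hb hc
          have h1 : 6 * ε i * X ≤ 6 * ε i * (2 * d) :=
            mul_le_mul_of_nonneg_left e2 (by positivity)
          have h2 : 1 / (ε i ^ 2 * η i ^ 3) * (a + b + c) ≤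
              1 / (ε i ^ 2 * η i ^ 3) * (3 * (η (i + 1) * d)) :=
            mul_le_mul_of_nonneg_left (by linarith) hK
          have h3 : ρ i / d * (6 * ε i * X + 1 / (ε i ^ 2 * η i ^ 3) * (a + b + c)) ≤
              ρ i / d * (6 * ε i * (2 * d) + 1 / (ε i ^ 2 * η i ^ 3) * (3 * (η (i + 1) * d))) :=
            mul_le_mul_of_nonneg_left (add_le_add h1 h2) hq0
          have h4 : ρ i / d * (6 * ε i * (2 * d) +
              1 / (ε i ^ 2 * η i ^ 3) * (3 * (η (i + 1) * d))) =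
              12 * (ε i * ρ i) + (3 * ρ i * η (i + 1)) / (ε i ^ 2 * η i ^ 3) := by
            field_simp
            ring
          have h5 : (3 * ρ i * η (i + 1)) / (ε i ^ 2 * η i ^ 3) ≤ 1 := by
            rw [div_le_one (by positivity)]
            exact hp.ηη i
          rw [hp.ερ i] at h4
          have h6 : ρ i / d * (6 * ε i * X + 1 / (ε i ^ 2 * η i ^ 3) * (a + b + c) - Y) =
              ρ i / d * (6 * ε i * X + 1 / (ε i ^ 2 * η i ^ 3) * (a + b + c)) - ρ i / d * Y := by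
            ring
          rw [h6]
          linarith
        exact hsum _ _ _ hc12 hc13 hc23

end static

end Pool.Agent.Y415.Frac
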