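import Pool.Agent.Y415.Frac.H

set_option autoImplicit false
set_option linter.unusedSectionVars false

open Finset
open scoped Classical

noncomputable section

namespace Pool.Agent.Y415.Frac

variable {n : ℕ}

/-- The sample space. -/
abbrev Om (n R : ℕ) := (p : Fin n × Fin R) → Lab (Fin ((p.2 : ℕ) + 1) → Fin n)

section prodspace

variable (N : Fin n → Finset (Fin n)) (adj : Fin n → Fin n → Prop) (d : ℕ) (ρ ε η : ℕ → ℝ)

/-- The product measure. -/
def mu (R : ℕ) (ω : Om n R) : ℝ := ∏ p, mz N d ρ ε p.2 p.1 (ω p)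

/-- The static weight. -/
def be (R : ℕ) (A : Finset (Fin n)) (ω : Om n R) : ℝ := ∏ p, bbz N adj d ε η p.2 p.1 A (ω p)

variable {N adj d ρ ε η}

theorem E_prod {R : ℕ} (F : (p : Fin n × Fin R) → Lab (Fin ((p.2 : ℕ) + 1) → Fin n) → ℝ) :
    ∑ ω : Om n R, mu N d ρ ε R ω * ∏ p, F p (ω p) =
      ∏ p : Fin n × Fin R, ∑ l, mz N d ρ ε p.2 p.1 l * F p l := by
  unfold mu
  simp only [← Finset.prod_mul_distrib]
  rw [Finset.prod_univ_sum, Fintype.piFinset_univ]

theorem E3 {R : ℕ} (A1 A2 A3 : Finset (Fin n)) :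
    ∑ ω : Om n R, mu N d ρ ε R ω *
      (be N adj d ε η R A1 ω * be N adj d ε η R A2 ω * be N adj d ε η R A3 ω) =
      ∏ i ∈ Finset.range R, ∏ z, ee N adj d ρ ε η i z A1 A2 A3 := by
  unfold be
  simp only [← Finset.prod_mul_distrib]
  rw [E_prod (fun p l => bbz N adj d ε η p.2 p.1 A1 l * bbz N adj d ε η p.2 p.1 A2 l *
    bbz N adj d ε η p.2 p.1 A3 l)]
  rw [Fintype.prod_prod_type_right, Finset.prod_range]
  rfl

theorem E0 {R : ℕ} : ∑ ω : Om n R, mu N d ρ ε R ω = 1 := by
  have h := E_prod (N := N) (d := d) (ρ := ρ) (ε := ε) (R := R) (fun p l => 1)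
  simp only [Finset.prod_const_one, mul_one] at h
  rw [h]
  apply Finset.prod_eq_one
  intro p _
  exact mm_sum _ _ _

theorem E1 (hd : 0 < d) (hp : Par ρ ε η) {R : ℕ} (A : Finset (Fin n)) :
    ∑ ω : Om n R, mu N d ρ ε R ω * be N adj d ε η R A ω = 1 := by
  unfold be
  rw [E_prod (fun p l => bbz N adj d ε η p.2 p.1 A l)]
  apply Finset.prod_eq_one
  intro p _
  exact E_bf (hp.ε0 _) (hp.ε1 _) (hp.η0 _) _ (heavy_G hd)

theorem be_empty {R : ℕ} (ω : Om n R) : be N adj d ε η R ∅ ω = 1 := by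
  unfold be
  apply Finset.prod_eq_one
  intro p _
  exact bf_out _ (Finset.notMem_empty _) _

theorem be_nonneg (hp : Par ρ ε η) {R : ℕ} (A : Finset (Fin n)) (ω : Om n R) :
    0 ≤ be N adj d ε η R A ω := by
  unfold be
  apply Finset.prod_nonneg
  intro p _
  exact bf_nonneg (hp.ε0 _) (hp.ε1 _) (gz_nonneg N d _ _) _ _

theorem mu_nonneg (hd : 0 < d) (hNd : ∀ x, (N x).card ≤ d) (hp : Par ρ ε η) {R : ℕ}
    (hρ : ∀ i, i < R → ρ i ≤ d) (ω : Om n R) :
    0 ≤ mu N d ρ ε R ω := by
  have hdR : (0:ℝ) < d := by exact_mod_cast hd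
  unfold mu
  apply Finset.prod_nonneg
  intro p _
  exact mm_nonneg (div_nonneg (hp.ρ0 _).le hdR.le) ((div_le_one hdR).2 (hρ _ p.2.2))
    (hp.ε0 _).le (by linarith [hp.ε1 (p.2 : ℕ)]) (gz_nonneg N d _ _) (gz_sum_le hd _ (hNd _) _) _

end prodspace

theorem Mi_ge_one {ρ ε η : ℕ → ℝ} (hp : Par ρ ε η) (i : ℕ) : 1 ≤ Mi ρ ε η i := by
  unfold Mi
  apply Real.one_le_exp
  have := hp.ρ0 i
  positivity

/-- product of the crude bounds -/
def Qp (ρ ε η : ℕ → ℝ) (j : ℕ) : ℝ := ∏ i ∈ Finset.range j, Mi ρ ε η i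

theorem Qp_ge_one {ρ ε η : ℕ → ℝ} (hp : Par ρ ε η) (j : ℕ) : 1 ≤ Qp ρ ε η j := by
  unfold Qp
  induction j with
  | zero => simp
  | succ j ih =>
    rw [Finset.prod_range_succ]
    have h2 := Mi_ge_one hp j
    nlinarith

theorem Qp_mono {ρ ε η : ℕ → ℝ} (hp : Par ρ ε η) : Monotone (Qp ρ ε η) := by
  apply monotone_nat_of_le_succ
  intro j
  unfold Qp
  rw [Finset.prod_range_succ]
  have h1 := Qp_ge_one hp j
  unfold Qp at h1
  have h2 := Mi_ge_one hp j
  nlinarith

theorem prod_bound {R J : ℕ} (hJ : J ≤ R) {X M : ℕ → ℝ} (h0 : ∀ i, i < R → 0 ≤ X i)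
    (h1 : ∀ i, i < J → X i ≤ M i) (h2 : ∀ i, J ≤ i → i < R → X i ≤ Real.exp 13) :
    ∏ i ∈ Finset.range R, X i ≤ (∏ i ∈ Finset.range J, M i) * Real.exp (13 * R) := by
  rw [← Finset.prod_range_mul_prod_Ico X hJ]
  apply mul_le_mul
  · apply Finset.prod_le_prod
    · intro i hi
      exact h0 i ((Finset.mem_range.1 hi).trans_le hJ)
    · intro i hi
      exact h1 i (Finset.mem_range.1 hi)
  · calc ∏ i ∈ Finset.Ico J R, X i ≤ ∏ i ∈ Finset.Ico J R, Real.exp 13 := by
          apply Finset.prod_le_prod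
          · intro i hi
            exact h0 i (Finset.mem_Ico.1 hi).2
          · intro i hi
            exact h2 i (Finset.mem_Ico.1 hi).1 (Finset.mem_Ico.1 hi).2
      _ ≤ _ := by
          rw [Finset.prod_const, Nat.card_Ico, ← Real.exp_nat_mul]
          apply Real.exp_le_exp.2
          have : ((R - J : ℕ) : ℝ) ≤ R := by exact_mod_cast Nat.sub_le R J
          linarith
  · apply Finset.prod_nonneg
    intro i hi
    exact h0 i (Finset.mem_Ico.1 hi).2
  · apply Finset.prod_nonneg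
    intro i hi
    exact (h0 i ((Finset.mem_range.1 hi).trans_le hJ)).trans (h1 i (Finset.mem_range.1 hi))

theorem prod_bound_tilt {R J : ℕ} (hJ : J < R) {X M : ℕ → ℝ} {t : ℝ}
    (h0 : ∀ i, i < R → 0 ≤ X i)
    (h1 : ∀ i, i < J → X i ≤ M i) (h2 : ∀ i, J ≤ i → i < R → X i ≤ Real.exp 13)
    (h3 : X J ≤ Real.exp (13 - t)) :
    ∏ i ∈ Finset.range R, X i ≤
      (∏ i ∈ Finset.range J, M i) * Real.exp (13 * R) * Real.exp (-t) := by
  have h := prod_bound (R := R) (J := J) hJ.le
    (X := fun i => X i * (if i = J then Real.exp t else 1)) (M := M) ?_ ?_ ?_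
  · rw [Finset.prod_mul_distrib, Finset.prod_ite_eq', if_pos (Finset.mem_range.2 hJ)] at h
    have e : ∏ i ∈ Finset.range R, X i =
        ((∏ i ∈ Finset.range R, X i) * Real.exp t) * Real.exp (-t) := by
      rw [mul_assoc, ← Real.exp_add, add_neg_cancel, Real.exp_zero, mul_one]
    rw [e]
    exact mul_le_mul_of_nonneg_right h (Real.exp_pos _).le
  · intro i hi
    apply mul_nonneg (h0 i hi)
    split_ifs
    · exact (Real.exp_pos _).le
    · exact zero_le_one
  · intro i hi
    rw [if_neg (by omega), mul_one]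
    exact h1 i hi
  · intro i hi hi'
    by_cases c : i = J
    · subst c
      rw [if_pos rfl]
      calc X i * Real.exp t ≤ Real.exp (13 - t) * Real.exp t :=
            mul_le_mul_of_nonneg_right h3 (Real.exp_pos _).le
        _ = _ := by rw [← Real.exp_add]; congr 1; ring
    · rw [if_neg c, mul_one]
      exact h2 i hi hi'

section static2

variable {N : Fin n → Finset (Fin n)} {adj : Fin n → Fin n → Prop} {d : ℕ} {ρ ε η : ℕ → ℝ}

theorem small_pair (hd : 0 < d) (hp : Par ρ ε η) {R : ℕ}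
    (hK : ∀ u, ∀ x ∈ N u, Cl adj (R + 1) (N x ∩ N u) = ∅)
    {u x : Fin n} (hx : x ∈ N u) {i : ℕ} (hi : i < R) (hl : lev N adj d η R x u ≤ i + 1) :
    ((Cl adj (i + 2) (N x ∩ N u)).card : ℝ) ≤ η (i + 1) * (d:ℝ) ^ (i + 2) := by
  by_cases c : i + 1 < R
  · have h := lev_not_heavy c hl
    unfold heavy at h
    push Not at h
    exact h.le
  · have : i + 2 = R + 1 := by omega
    rw [this, hK u x hx]
    have := hp.η0 (i + 1)
    simp only [Finset.card_empty, Nat.cast_zero]
    positivity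

theorem DD_sub_EE {R : ℕ} {x u : Fin n} {J : ℕ} :
    DD N (lev N adj d η R) (J + 1) x u ⊆ EE N adj d η J (N u) (N x) := by
  intro y hy
  unfold DD at hy
  rw [Finset.mem_filter, Finset.mem_inter] at hy
  obtain ⟨⟨hyx, hyu⟩, hm⟩ := hy
  unfold EE
  rw [Finset.mem_filter]
  refine ⟨Finset.mem_univ _, hyu, hyx, ?_⟩
  rcases le_total (lev N adj d η R y u) (lev N adj d η R y x) with h | h
  · rw [max_eq_right h] at hm
    exact Or.inr (lev_heavy hm)
  · rw [max_eq_left h] at hm
    exact Or.inl (lev_heavy hm)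

theorem exp_card_bound {t ρ' d' : ℝ} (hρ : 0 < ρ') (hd : 0 < d') :
    t * Real.exp (-(ρ' / d' * t)) ≤ d' / ρ' := by
  have h1 : ρ' / d' * t ≤ Real.exp (ρ' / d' * t) := by
    have := Real.add_one_le_exp (ρ' / d' * t)
    linarith
  have h2 : ρ' / d' * (t * Real.exp (-(ρ' / d' * t))) ≤ 1 := by
    calc ρ' / d' * (t * Real.exp (-(ρ' / d' * t))) =
          (ρ' / d' * t) * Real.exp (-(ρ' / d' * t)) := by ring
      _ ≤ Real.exp (ρ' / d' * t) * Real.exp (-(ρ' / d' * t)) :=
          mul_le_mul_of_nonneg_right h1 (Real.exp_pos _).le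
      _ = 1 := by rw [← Real.exp_add, add_neg_cancel, Real.exp_zero]
  have h3 : 0 < ρ' / d' := div_pos hρ hd
  calc t * Real.exp (-(ρ' / d' * t)) =
      (d' / ρ') * (ρ' / d' * (t * Real.exp (-(ρ' / d' * t)))) := by field_simp
    _ ≤ (d' / ρ') * 1 := mul_le_mul_of_nonneg_left h2 (div_pos hd hρ).le
    _ = _ := mul_one _

/-- Bounds for the triples. -/
def xi (ρ ε η : ℕ → ℝ) (R : ℕ) : ℕ → ℝ
  | 0 => η 0 * Real.exp (13 * R)
  | (j + 1) => Qp ρ ε η j * Real.exp (13 * R) / ρ j

/-- The main theorem with the static weights plugged in. -/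
theorem static_main (hN : ∀ x, ∀ y ∈ N x, y < x) (hd : 0 < d) (hNd : ∀ x, (N x).card ≤ d)
    (hadj : ∀ z y, y ∈ N z → adj z y ∧ adj y z) {R : ℕ} (hR : 1 ≤ R)
    (hK : ∀ u, ∀ x ∈ N u, Cl adj (R + 1) (N x ∩ N u) = ∅)
    (hp : Par ρ ε η) (hρ : ∀ i, i < R → ρ i ≤ d)
    {T : ℕ → ℝ} (hTm : Monotone T) (hT0 : T 0 = 0)
    {C : ℝ} (hC : 0 < C)
    (hB : C / d * (8 * Qp ρ ε η R) * Real.exp (2 * T (R + 1)) ≤ 1 / 2)
    (n1 : ∀ L, L ≤ R → 8 * ((R:ℝ) + 1) * (C * Real.exp (2 * (T L + (R + 1))) *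
      (Qp ρ ε η (L - 1) * Real.exp (13 * R)) + 1) ≤ T (L + 1))
    (n2 : ∀ j, j ≤ R → 64 * ((R:ℝ) + 1) * C ^ 2 * Real.exp (6 * (T (j + 1) + (R + 1))) *
      xi ρ ε η R j ≤ 1) :
    ∃ w : Finset (Fin n) → ℝ, (∀ I, 0 ≤ w I) ∧ (∀ I, w I ≠ 0 → ∀ x ∈ I, ∀ y ∈ N x, y ∉ I) ∧
      (∀ v, C / (2 * d) ≤ ∑ I ∈ Finset.univ.filter (fun I : Finset (Fin n) => v ∈ I), w I) ∧
      ∑ I, w I = 1 := by
  have hdR : (0:ℝ) < d := by exact_mod_cast hd
  have hempty : ∀ (A : Finset (Fin n)) (i : ℕ),
      ((Cl adj (i + 2) (∅ ∩ A)).card : ℝ) ≤ η (i + 1) * (d:ℝ) ^ (i + 2) := by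
    intro A i
    rw [Finset.empty_inter, Cl_empty]
    have := hp.η0 (i + 1)
    simp only [Finset.card_empty, Nat.cast_zero]
    positivity
  refine frac_main hN hd hNd (lev := lev N adj d η R) (lev_le N adj d η R) hTm hT0
    (Ω := Om n R) (mu N d ρ ε R) (mu_nonneg hd hNd hp hρ) E0
    (fun ω u => be N adj d ε η R (N u) ω) (fun ω u => be_nonneg hp _ ω)
    (fun u => E1 hd hp (N u)) (Q := Qp ρ ε η R) (lt_of_lt_of_le zero_lt_one (Qp_ge_one hp R))
    ?_ (P := fun L => Qp ρ ε η (L - 1) * Real.exp (13 * R)) ?_ ?_ ?_ (ξ := xi ρ ε η R) ?_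
    hC hB n1 n2
  · -- squares
    intro u
    have h := E3 (N := N) (adj := adj) (d := d) (ρ := ρ) (ε := ε) (η := η) (R := R) ∅ (N u) (N u)
    simp only [be_empty, one_mul] at h
    rw [h]
    unfold Qp
    apply Finset.prod_le_prod
    · intro i hi
      apply Finset.prod_nonneg
      intro z _
      exact ee_nonneg' hd hNd hp (hρ i (Finset.mem_range.1 hi)) z _ _ _
    · intro i hi
      exact crudeProd hd hNd hp (hρ i (Finset.mem_range.1 hi)) (hNd u) (hNd u)
  · -- monotone P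
    intro a b hab
    apply mul_le_mul_of_nonneg_right _ (Real.exp_pos _).le
    exact Qp_mono hp (by omega)
  · intro L
    exact mul_nonneg (zero_le_one.trans (Qp_ge_one hp _)) (Real.exp_pos _).le
  · -- pairs
    intro u x hx
    have h := E3 (N := N) (adj := adj) (d := d) (ρ := ρ) (ε := ε) (η := η) (R := R) ∅ (N u) (N x)
    simp only [be_empty, one_mul] at h
    rw [h]
    apply prod_bound
    · have := lev_le N adj d η R x u
      omega
    · intro i hi
      apply Finset.prod_nonneg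
      intro z _
      exact ee_nonneg' hd hNd hp (hρ i hi) z _ _ _
    · intro i hi
      have := lev_le N adj d η R x u
      exact crudeProd hd hNd hp (hρ i (by omega)) (hNd u) (hNd x)
    · intro i hi hi'
      have h' := refinedProd hd hNd hadj hp (hρ i hi') (A1 := ∅) (A2 := N u) (A3 := N x)
        (hNd u) (hNd x) (hempty _ i) (hempty _ i) (by
          rw [Finset.inter_comm]
          exact small_pair hd hp hK hx hi' (by omega))
      refine h'.trans (Real.exp_le_exp.2 ?_)
      have := mul_nonneg (div_nonneg (hp.ρ0 i).le hdR.le)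
        (Nat.cast_nonneg (α := ℝ) (EE N adj d η i ∅ (N u)).card)
      linarith
  · -- triples
    intro u x hx j hlj hjR
    have key : ∀ y ∈ DD N (lev N adj d η R) j x u,
        lev N adj d η R y u ≤ j ∧ lev N adj d η R y x ≤ j ∧ y ∈ N u ∧ y ∈ N x := by
      intro y hy
      unfold DD at hy
      rw [Finset.mem_filter, Finset.mem_inter] at hy
      obtain ⟨⟨hyx, hyu⟩, hm⟩ := hy
      exact ⟨hm ▸ le_max_left _ _, hm ▸ le_max_right _ _, hyu, hyx⟩
    have hpos : ∀ y, ∀ i, i < R → 0 ≤ ∏ z, ee N adj d ρ ε η i z (N u) (N x) (N y) := by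
      intro y i hi
      apply Finset.prod_nonneg
      intro z _
      exact ee_nonneg' hd hNd hp (hρ i hi) z _ _ _
    have href : ∀ y ∈ DD N (lev N adj d η R) j x u, ∀ i, j ≤ i + 1 → i < R →
        ∏ z, ee N adj d ρ ε η i z (N u) (N x) (N y) ≤
          Real.exp (13 - ρ i / d * ((EE N adj d η i (N u) (N x)).card : ℝ)) := by
      intro y hy i hi hi'
      obtain ⟨k1, k2, k3, k4⟩ := key y hy
      apply refinedProd hd hNd hadj hp (hρ i hi') (hNd x) (hNd y)
      · rw [Finset.inter_comm]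
        exact small_pair hd hp hK hx hi' (hlj.trans hi)
      · rw [Finset.inter_comm]
        exact small_pair hd hp hK k3 hi' (k1.trans hi)
      · rw [Finset.inter_comm]
        exact small_pair hd hp hK k4 hi' (k2.trans hi)
    have href' : ∀ y ∈ DD N (lev N adj d η R) j x u, ∀ i, j ≤ i + 1 → i < R →
        ∏ z, ee N adj d ρ ε η i z (N u) (N x) (N y) ≤ Real.exp 13 := by
      intro y hy i hi hi'
      refine (href y hy i hi hi').trans (Real.exp_le_exp.2 ?_)
      have := mul_nonneg (div_nonneg (hp.ρ0 i).le hdR.le)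
        (Nat.cast_nonneg (α := ℝ) (EE N adj d η i (N u) (N x)).card)
      linarith
    have hE3 : ∀ y, ∑ ω : Om n R, mu N d ρ ε R ω *
        (be N adj d ε η R (N u) ω * be N adj d ε η R (N x) ω * be N adj d ε η R (N y) ω) =
        ∏ i ∈ Finset.range R, ∏ z, ee N adj d ρ ε η i z (N u) (N x) (N y) :=
      fun y => E3 (N u) (N x) (N y)
    rw [Finset.sum_congr rfl (fun y _ => hE3 y)]
    rcases j with _ | J
    · -- level zero
      have hb : ∀ y ∈ DD N (lev N adj d η R) 0 x u,
          ∏ i ∈ Finset.range R, ∏ z, ee N adj d ρ ε η i z (N u) (N x) (N y) ≤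
            Real.exp (13 * R) := by
        intro y hy
        have h' := prod_bound (R := R) (J := 0) (Nat.zero_le _)
          (X := fun i => ∏ z, ee N adj d ρ ε η i z (N u) (N x) (N y)) (M := fun _ => 1)
          (hpos y) (fun i hi => absurd hi (Nat.not_lt_zero _))
          (fun i _ hi' => href' y hy i (Nat.zero_le _) hi')
        simpa using h'
      have hcard : ((DD N (lev N adj d η R) 0 x u).card : ℝ) ≤ η 0 * d := by
        have h1 := Finset.card_le_card (DD_subset N (lev N adj d η R) 0 x u)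
        have h2 := card_le_Cl_one (adj := adj) (N x ∩ N u)
        have h3 := lev_not_heavy (N := N) (adj := adj) (d := d) (η := η) (x := x) (u := u)
          (show 0 < R by omega) hlj
        unfold heavy at h3
        push Not at h3
        have h4 : ((DD N (lev N adj d η R) 0 x u).card : ℝ) ≤
            ((Cl adj 1 (N x ∩ N u)).card : ℝ) := by exact_mod_cast h1.trans h2
        simp only [zero_add, pow_one] at h3
        linarith
      calc _ ≤ ∑ y ∈ DD N (lev N adj d η R) 0 x u, Real.exp (13 * R) := Finset.sum_le_sum hb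
        _ = ((DD N (lev N adj d η R) 0 x u).card : ℝ) * Real.exp (13 * R) := by
            rw [Finset.sum_const, nsmul_eq_mul]
        _ ≤ (η 0 * d) * Real.exp (13 * R) :=
            mul_le_mul_of_nonneg_right hcard (Real.exp_pos _).le
        _ = _ := by unfold xi; ring
    · have hJR : J < R := by omega
      set E : ℝ := ((EE N adj d η J (N u) (N x)).card : ℝ) with hE
      have hb : ∀ y ∈ DD N (lev N adj d η R) (J + 1) x u,
          ∏ i ∈ Finset.range R, ∏ z, ee N adj d ρ ε η i z (N u) (N x) (N y) ≤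
            Qp ρ ε η J * Real.exp (13 * R) * Real.exp (-(ρ J / d * E)) := by
        intro y hy
        apply prod_bound_tilt hJR (hpos y)
        · intro i hi
          exact crudeProd hd hNd hp (hρ i (by omega)) (hNd x) (hNd y)
        · intro i hi hi'
          exact href' y hy i (by omega) hi'
        · exact href y hy J le_rfl hJR
      have hcard : ((DD N (lev N adj d η R) (J + 1) x u).card : ℝ) ≤ E := by
        have h1 := Finset.card_le_card (DD_sub_EE (N := N) (adj := adj) (d := d) (η := η)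
          (R := R) (x := x) (u := u) (J := J))
        rw [hE]
        exact_mod_cast h1
      have hQ0 : 0 ≤ Qp ρ ε η J := zero_le_one.trans (Qp_ge_one hp _)
      calc _ ≤ ∑ y ∈ DD N (lev N adj d η R) (J + 1) x u,
            Qp ρ ε η J * Real.exp (13 * R) * Real.exp (-(ρ J / d * E)) := Finset.sum_le_sum hb
        _ = ((DD N (lev N adj d η R) (J + 1) x u).card : ℝ) *
            (Qp ρ ε η J * Real.exp (13 * R) * Real.exp (-(ρ J / d * E))) := by
            rw [Finset.sum_const, nsmul_eq_mul]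
        _ ≤ E * (Qp ρ ε η J * Real.exp (13 * R) * Real.exp (-(ρ J / d * E))) := by
            apply mul_le_mul_of_nonneg_right hcard
            positivity
        _ = (Qp ρ ε η J * Real.exp (13 * R)) * (E * Real.exp (-(ρ J / d * E))) := by ring
        _ ≤ (Qp ρ ε η J * Real.exp (13 * R)) * (d / ρ J) := by
            apply mul_le_mul_of_nonneg_left (exp_card_bound (hp.ρ0 J) hdR)
            positivity
        _ = _ := by
            unfold xi
            ring

end static2

end Pool.Agent.Y415.Frac
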