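import Pool.Agent.Y415.Frac.F2
import Pool.Agent.Y415.Frac.J

set_option autoImplicit false
set_option linter.unusedSectionVars false

open Finset
open scoped Classical

noncomputable section

namespace Pool.Agent.Y415.Frac

variable {n : ℕ}

section static2

variable {N : Fin n → Finset (Fin n)} {adj : Fin n → Fin n → Prop} {d : ℕ} {ρ ε η : ℕ → ℝ}

/-- The main theorem with the static weights plugged in, with pair probabilities. -/
theorem static_main2 (hN : ∀ x, ∀ y ∈ N x, y < x) (hd : 0 < d) (hNd : ∀ x, (N x).card ≤ d)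
    (hadj : ∀ z y, y ∈ N z → adj z y ∧ adj y z) {R : ℕ}
    (hK : ∀ u, ∀ x ∈ N u, Cl adj (R + 1) (N x ∩ N u) = ∅)
    (hp : Par ρ ε η) (hρ : ∀ i, i < R → ρ i ≤ d)
    {T : ℕ → ℝ} (hTm : Monotone T) (hT0 : T 0 = 0)
    {C : ℝ} (hC : 0 < C)
    (hB : C / d * (8 * Qp ρ ε η R) * Real.exp (2 * T (R + 1)) ≤ 1 / 2)
    (n1 : ∀ L, L ≤ R → 8 * ((R:ℝ) + 1) * (C * Real.exp (2 * (T L + (R + 1))) *
      (Qp ρ ε η (L - 1) * Real.exp (13 * R)) + 1) ≤ T (L + 1))
    (n2 : ∀ j, j ≤ R → 64 * ((R:ℝ) + 1) * C ^ 2 * Real.exp (6 * (T (j + 1) + (R + 1))) *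
      xi ρ ε η R j ≤ 1) :
    ∃ w : Finset (Fin n) → ℝ, (∀ I, 0 ≤ w I) ∧ (∀ I, w I ≠ 0 → ∀ x ∈ I, ∀ y ∈ N x, y ∉ I) ∧
      (∀ v, C / (2 * d) ≤ ∑ I ∈ Finset.univ.filter (fun I : Finset (Fin n) => v ∈ I), w I) ∧
      (∀ x x', x ≠ x' → ∑ I ∈ Finset.univ.filter (fun I : Finset (Fin n) => x ∈ I ∧ x' ∈ I), w I
        ≤ (C / d) ^ 2 * Qp ρ ε η R * Real.exp (2 * T (R + 1))) ∧
      ∑ I, w I = 1 := by
  have hdR : (0:ℝ) < d := by exact_mod_cast hd
  have hempty : ∀ (A : Finset (Fin n)) (i : ℕ),
      ((Cl adj (i + 2) (∅ ∩ A)).card : ℝ) ≤ η (i + 1) * (d:ℝ) ^ (i + 2) := by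
    intro A i
    rw [Finset.empty_inter, Cl_empty]
    have := hp.η0 (i + 1)
    simp only [Finset.card_empty, Nat.cast_zero]
    positivity
  refine frac_main2 hN hd hNd (lev := lev N adj d η R) (lev_le N adj d η R) hTm hT0
    (Ω := Om n R) (mu N d ρ ε R) (mu_nonneg hd hNd hp hρ) E0
    (fun ω u => be N adj d ε η R (N u) ω) (fun ω u => be_nonneg hp _ ω)
    (fun u => E1 hd hp (N u)) (Q := Qp ρ ε η R) (lt_of_lt_of_le zero_lt_one (Qp_ge_one hp R))
    ?_ (P := fun L => Qp ρ ε η (L - 1) * Real.exp (13 * R)) ?_ ?_ ?_ (ξ := xi ρ ε η R) ?_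
    hC hB n1 n2
  · -- squares
    intro u
    have h := E3 (N := N) (adj := adj) (d := d) (ρ := ρ) (ε := ε) (η := η) (R := R) ∅ (N u) (N u)
    simp only [be_empty, one_mul] at h
    rw [h]
    unfold Qp
    apply Finset.prod_le_prod
    · intro i hi
      apply Finset.prod_nonneg
      intro z _
      exact ee_nonneg' hd hNd hp (hρ i (Finset.mem_range.1 hi)) z _ _ _
    · intro i hi
      exact crudeProd hd hNd hp (hρ i (Finset.mem_range.1 hi)) (hNd u) (hNd u)
  · -- monotone P
    intro a b hab
    apply mul_le_mul_of_nonneg_right _ (Real.exp_pos _).le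
    exact Qp_mono hp (by omega)
  · intro L
    exact mul_nonneg (zero_le_one.trans (Qp_ge_one hp _)) (Real.exp_pos _).le
  · -- pairs
    intro u x hx
    have h := E3 (N := N) (adj := adj) (d := d) (ρ := ρ) (ε := ε) (η := η) (R := R) ∅ (N u) (N x)
    simp only [be_empty, one_mul] at h
    rw [h]
    apply prod_bound
    · have := lev_le N adj d η R x u
      omega
    · intro i hi
      apply Finset.prod_nonneg
      intro z _
      exact ee_nonneg' hd hNd hp (hρ i hi) z _ _ _
    · intro i hi
      have := lev_le N adj d η R x u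
      exact crudeProd hd hNd hp (hρ i (by omega)) (hNd u) (hNd x)
    · intro i hi hi'
      have h' := refinedProd hd hNd hadj hp (hρ i hi') (A1 := ∅) (A2 := N u) (A3 := N x)
        (hNd u) (hNd x) (hempty _ i) (hempty _ i) (by
          rw [Finset.inter_comm]
          exact small_pair hd hp hK hx hi' (by omega))
      refine h'.trans (Real.exp_le_exp.2 ?_)
      have := mul_nonneg (div_nonneg (hp.ρ0 i).le hdR.le)
        (Nat.cast_nonneg (α := ℝ) (EE N adj d η i ∅ (N u)).card)
      linarith
  · -- triples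
    intro u x hx j hlj hjR
    have key : ∀ y ∈ DD N (lev N adj d η R) j x u,
        lev N adj d η R y u ≤ j ∧ lev N adj d η R y x ≤ j ∧ y ∈ N u ∧ y ∈ N x := by
      intro y hy
      unfold DD at hy
      rw [Finset.mem_filter, Finset.mem_inter] at hy
      obtain ⟨⟨hyx, hyu⟩, hm⟩ := hy
      exact ⟨hm ▸ le_max_left _ _, hm ▸ le_max_right _ _, hyu, hyx⟩
    have hpos : ∀ y, ∀ i, i < R → 0 ≤ ∏ z, ee N adj d ρ ε η i z (N u) (N x) (N y) := by
      intro y i hi
      apply Finset.prod_nonneg
      intro z _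
      exact ee_nonneg' hd hNd hp (hρ i hi) z _ _ _
    have href : ∀ y ∈ DD N (lev N adj d η R) j x u, ∀ i, j ≤ i + 1 → i < R →
        ∏ z, ee N adj d ρ ε η i z (N u) (N x) (N y) ≤
          Real.exp (13 - ρ i / d * ((EE N adj d η i (N u) (N x)).card : ℝ)) := by
      intro y hy i hi hi'
      obtain ⟨k1, k2, k3, k4⟩ := key y hy
      apply refinedProd hd hNd hadj hp (hρ i hi') (hNd x) (hNd y)
      · rw [Finset.inter_comm]
        exact small_pair hd hp hK hx hi' (hlj.trans hi)
      · rw [Finset.inter_comm]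
        exact small_pair hd hp hK k3 hi' (k1.trans hi)
      · rw [Finset.inter_comm]
        exact small_pair hd hp hK k4 hi' (k2.trans hi)
    have href' : ∀ y ∈ DD N (lev N adj d η R) j x u, ∀ i, j ≤ i + 1 → i < R →
        ∏ z, ee N adj d ρ ε η i z (N u) (N x) (N y) ≤ Real.exp 13 := by
      intro y hy i hi hi'
      refine (href y hy i hi hi').trans (Real.exp_le_exp.2 ?_)
      have := mul_nonneg (div_nonneg (hp.ρ0 i).le hdR.le)
        (Nat.cast_nonneg (α := ℝ) (EE N adj d η i (N u) (N x)).card)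
      linarith
    have hE3 : ∀ y, ∑ ω : Om n R, mu N d ρ ε R ω *
        (be N adj d ε η R (N u) ω * be N adj d ε η R (N x) ω * be N adj d ε η R (N y) ω) =
        ∏ i ∈ Finset.range R, ∏ z, ee N adj d ρ ε η i z (N u) (N x) (N y) :=
      fun y => E3 (N u) (N x) (N y)
    rw [Finset.sum_congr rfl (fun y _ => hE3 y)]
    rcases j with _ | J
    · -- level zero
      have hb : ∀ y ∈ DD N (lev N adj d η R) 0 x u,
          ∏ i ∈ Finset.range R, ∏ z, ee N adj d ρ ε η i z (N u) (N x) (N y) ≤
            Real.exp (13 * R) := by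
        intro y hy
        have h' := prod_bound (R := R) (J := 0) (Nat.zero_le _)
          (X := fun i => ∏ z, ee N adj d ρ ε η i z (N u) (N x) (N y)) (M := fun _ => 1)
          (hpos y) (fun i hi => absurd hi (Nat.not_lt_zero _))
          (fun i _ hi' => href' y hy i (Nat.zero_le _) hi')
        simpa using h'
      have hcard : ((DD N (lev N adj d η R) 0 x u).card : ℝ) ≤ η 0 * d := by
        have h1 := Finset.card_le_card (DD_subset N (lev N adj d η R) 0 x u)
        have h2 := card_le_Cl_one (adj := adj) (N x ∩ N u)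
        rcases Nat.eq_zero_or_pos R with hR | hR
        · have h3 := hK u x hx
          rw [hR] at h3
          rw [h3, Finset.card_empty] at h2
          have h4 : (DD N (lev N adj d η R) 0 x u).card = 0 := by omega
          rw [h4, Nat.cast_zero]
          have := hp.η0 0
          positivity
        have h3 := lev_not_heavy (N := N) (adj := adj) (d := d) (η := η) (x := x) (u := u)
          (show 0 < R by omega) hlj
        unfold heavy at h3
        push Not at h3
        have h4 : ((DD N (lev N adj d η R) 0 x u).card : ℝ) ≤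
            ((Cl adj 1 (N x ∩ N u)).card : ℝ) := by exact_mod_cast h1.trans h2
        simp only [zero_add, pow_one] at h3
        linarith
      calc _ ≤ ∑ y ∈ DD N (lev N adj d η R) 0 x u, Real.exp (13 * R) := Finset.sum_le_sum hb
        _ = ((DD N (lev N adj d η R) 0 x u).card : ℝ) * Real.exp (13 * R) := by
            rw [Finset.sum_const, nsmul_eq_mul]
        _ ≤ (η 0 * d) * Real.exp (13 * R) :=
            mul_le_mul_of_nonneg_right hcard (Real.exp_pos _).le
        _ = _ := by unfold xi; ring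
    · have hJR : J < R := by omega
      set E : ℝ := ((EE N adj d η J (N u) (N x)).card : ℝ) with hE
      have hb : ∀ y ∈ DD N (lev N adj d η R) (J + 1) x u,
          ∏ i ∈ Finset.range R, ∏ z, ee N adj d ρ ε η i z (N u) (N x) (N y) ≤
            Qp ρ ε η J * Real.exp (13 * R) * Real.exp (-(ρ J / d * E)) := by
        intro y hy
        apply prod_bound_tilt hJR (hpos y)
        · intro i hi
          exact crudeProd hd hNd hp (hρ i (by omega)) (hNd x) (hNd y)
        · intro i hi hi'
          exact href' y hy i (by omega) hi'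
        · exact href y hy J le_rfl hJR
      have hcard : ((DD N (lev N adj d η R) (J + 1) x u).card : ℝ) ≤ E := by
        have h1 := Finset.card_le_card (DD_sub_EE (N := N) (adj := adj) (d := d) (η := η)
          (R := R) (x := x) (u := u) (J := J))
        rw [hE]
        exact_mod_cast h1
      have hQ0 : 0 ≤ Qp ρ ε η J := zero_le_one.trans (Qp_ge_one hp _)
      calc _ ≤ ∑ y ∈ DD N (lev N adj d η R) (J + 1) x u,
            Qp ρ ε η J * Real.exp (13 * R) * Real.exp (-(ρ J / d * E)) := Finset.sum_le_sum hb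
        _ = ((DD N (lev N adj d η R) (J + 1) x u).card : ℝ) *
            (Qp ρ ε η J * Real.exp (13 * R) * Real.exp (-(ρ J / d * E))) := by
            rw [Finset.sum_const, nsmul_eq_mul]
        _ ≤ E * (Qp ρ ε η J * Real.exp (13 * R) * Real.exp (-(ρ J / d * E))) := by
            apply mul_le_mul_of_nonneg_right hcard
            positivity
        _ = (Qp ρ ε η J * Real.exp (13 * R)) * (E * Real.exp (-(ρ J / d * E))) := by ring
        _ ≤ (Qp ρ ε η J * Real.exp (13 * R)) * (d / ρ J) := by
            apply mul_le_mul_of_nonneg_left (exp_card_bound (hp.ρ0 J) hdR)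
            positivity
        _ = _ := by
            unfold xi
            ring

end static2

end Pool.Agent.Y415.Frac
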