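import Pool.Agent.Y415.Frac.F

set_option autoImplicit false

open Finset
open scoped Classical

noncomputable section

namespace Pool.Agent.Y415.Frac

variable {n : ℕ}

theorem sum_fac_mem_g {α : Fin n → Finset (Fin n) → ℝ} (h : Adapted α) (P : Finset (Fin n))
    (x : Fin n) (hx : x ∈ P) (g : Finset (Fin n) → ℝ)
    (hg : ∀ I J : Finset (Fin n), (∀ y, y < x → (y ∈ I ↔ y ∈ J)) → g I = g J) :
    ∑ I ∈ P.powerset, (∏ y ∈ P, fac α I y) * (((if x ∈ I then (1:ℝ) else 0) - α x I) * g I)
      = 0 := by
  induction P using Finset.induction_on_max with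
  | empty => simp at hx
  | insert a s hs ih =>
    have ha : a ∉ s := fun hh => lt_irrefl _ (hs a hh)
    rw [Finset.sum_powerset_insert ha, ← Finset.sum_add_distrib]
    by_cases hxa : x = a
    · subst hxa
      apply Finset.sum_eq_zero
      intro I hI
      have hI' : I ⊆ s := Finset.mem_powerset.1 hI
      have haI : x ∉ I := fun hh => ha (hI' hh)
      rw [Finset.prod_insert ha, Finset.prod_insert ha]
      have e1 : ∏ y ∈ s, fac α (insert x I) y = ∏ y ∈ s, fac α I y :=
        Finset.prod_congr rfl (fun y hy => fac_insert_lt h I x y (hs y hy))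
      rw [e1]
      have e2 : fac α I x = 1 - α x I := by unfold fac; rw [if_neg haI]
      have e3 : fac α (insert x I) x = α x I := by
        unfold fac; rw [if_pos (Finset.mem_insert_self x I)]
        exact alpha_insert_le h I x x le_rfl
      have e4 : g (insert x I) = g I := by
        apply hg
        intro y hy
        rw [Finset.mem_insert]
        constructor
        · rintro (hh | hh)
          · exact absurd hh hy.ne
          · exact hh
        · exact Or.inr
      rw [e2, e3, e4, if_neg haI, if_pos (Finset.mem_insert_self x I),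
        alpha_insert_le h I x x le_rfl]
      ring
    · have hxs : x ∈ s := by
        rcases Finset.mem_insert.1 hx with hh | hh
        · exact absurd hh hxa
        · exact hh
      refine Eq.trans ?_ (ih hxs)
      apply Finset.sum_congr rfl
      intro I hI
      have hI' : I ⊆ s := Finset.mem_powerset.1 hI
      have haI : a ∉ I := fun hh => ha (hI' hh)
      rw [Finset.prod_insert ha, Finset.prod_insert ha]
      have e1 : ∏ y ∈ s, fac α (insert a I) y = ∏ y ∈ s, fac α I y :=
        Finset.prod_congr rfl (fun y hy => fac_insert_lt h I a y (hs y hy))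
      rw [e1]
      have e2 : fac α I a = 1 - α a I := by unfold fac; rw [if_neg haI]
      have e3 : fac α (insert a I) a = α a I := by
        unfold fac; rw [if_pos (Finset.mem_insert_self a I)]
        exact alpha_insert_le h I a a le_rfl
      have e4 : (x ∈ insert a I) ↔ x ∈ I := by
        rw [Finset.mem_insert]
        constructor
        · rintro (hh | hh)
          · exact absurd hh hxa
          · exact hh
        · exact Or.inr
      have e5 : (if x ∈ insert a I then (1:ℝ) else 0) = if x ∈ I then 1 else 0 := by
        by_cases hxI : x ∈ I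
        · rw [if_pos (e4.2 hxI), if_pos hxI]
        · rw [if_neg (fun hh => hxI (e4.1 hh)), if_neg hxI]
      have e6 : g (insert a I) = g I := by
        apply hg
        intro y hy
        rw [Finset.mem_insert]
        constructor
        · rintro (hh | hh)
          · exact absurd hh (hy.trans (hs x hxs)).ne
          · exact hh
        · exact Or.inr
      rw [e2, e3, e5, e6, alpha_insert_le h I a x (hs x hxs).le]
      ring

section
variable {N : Fin n → Finset (Fin n)} (hN : ∀ x, ∀ y ∈ N x, y < x)
    {lev : Fin n → Fin n → ℕ} {R : ℕ} (hlev : ∀ x u, lev x u ≤ R) {T : ℕ → ℝ}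
    {c : ℝ} (hc : 0 ≤ c) {b : Fin n → ℝ} (hb : ∀ x, 0 ≤ b x) {B : ℝ}
    (hB : c * B * Real.exp (2 * T (R + 1)) ≤ 1 / 2)

include hN in
theorem W_mem_g (S : Finset (Fin n)) (x : Fin n) (g : Finset (Fin n) → ℝ)
    (hg : ∀ I J : Finset (Fin n), (∀ y, y < x → (y ∈ I ↔ y ∈ J)) → g I = g J) :
    ∑ I, W N lev R T c b B S I * ((if x ∈ I then (1:ℝ) else 0) * g I)
    = ∑ I, W N lev R T c b B S I * (prS N lev R T c b B S x I * g I) := by
  have := sum_fac_mem_g (prS_adapted (lev := lev) (R := R) (T := T) (c := c) (b := b) (B := B)
    hN S) (Finset.univ : Finset (Fin n)) x (Finset.mem_univ x) g hg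
  rw [Finset.powerset_univ] at this
  simp only [mul_sub, sub_mul, Finset.sum_sub_distrib] at this
  unfold W
  linarith

include hN hlev hc hb hB in
/-- pair probabilities in the process -/
theorem W_pair (x x' : Fin n) (hxx : x' < x) :
    ∑ I, W N lev R T c b B ∅ I * (if x ∈ I ∧ x' ∈ I then (1:ℝ) else 0) ≤
      c * b x * (c * b x' * Real.exp (2 * T (R + 1))) := by
  have hcb : 0 ≤ c * b x := mul_nonneg hc (hb x)
  have e0 : ∀ I : Finset (Fin n), (if x ∈ I ∧ x' ∈ I then (1:ℝ) else 0) =
      (if x ∈ I then (1:ℝ) else 0) * (if x' ∈ I then (1:ℝ) else 0) := by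
    intro I
    by_cases h1 : x ∈ I <;> by_cases h2 : x' ∈ I <;> simp [h1, h2]
  simp only [e0]
  rw [W_mem_g hN ∅ x (fun I => if x' ∈ I then (1:ℝ) else 0) (by
    intro I J h
    have := h x' hxx
    simp only [this])]
  have hprS : ∀ I, prS N lev R T c b B ∅ x I = pr N lev R T c b B x I := by
    intro I; unfold prS; simp
  calc ∑ I, W N lev R T c b B ∅ I * (prS N lev R T c b B ∅ x I *
        (if x' ∈ I then (1:ℝ) else 0))
      ≤ ∑ I, c * b x * (W N lev R T c b B (N x) I * (if x' ∈ I then (1:ℝ) else 0)) := by
        apply Finset.sum_le_sum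
        intro I _
        rw [hprS]
        have h1 := W_pr hN hlev hc hb hB ∅ I x
        rw [Finset.empty_union, Finset.inter_empty, Finset.sum_empty, mul_zero, Real.exp_zero]
          at h1
        have hW := W_nonneg hN hlev hc hb hB (N x) I
        have h2 : W N lev R T c b B ∅ I * pr N lev R T c b B x I ≤
            c * b x * W N lev R T c b B (N x) I := by
          refine h1.trans ?_
          apply mul_le_mul_of_nonneg_left _ hcb
          split_ifs
          · rw [mul_one]
          · rw [mul_zero]; exact hW
        split_ifs
        · simp only [mul_one]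
          exact h2
        · simp only [mul_zero]
          exact le_rfl
    _ = c * b x * ∑ I, W N lev R T c b B (N x) I * ((if x' ∈ I then (1:ℝ) else 0) * 1) := by
        rw [← Finset.mul_sum]
        simp only [mul_one]
    _ = c * b x * ∑ I, W N lev R T c b B (N x) I * (prS N lev R T c b B (N x) x' I * 1) := by
        rw [W_mem_g hN (N x) x' (fun _ => 1) (fun _ _ _ => rfl)]
    _ ≤ c * b x * (c * b x' * Real.exp (2 * T (R + 1))) := by
        apply mul_le_mul_of_nonneg_left _ hcb
        refine le_trans ?_ (stepE hN hlev hc hb hB (N x) x' (fun _ => True) (T (R + 1)) ?_)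
        · apply Finset.sum_le_sum
          intro I _
          have hW := W_nonneg hN hlev hc hb hB (N x) I
          apply mul_le_mul_of_nonneg_left _ hW
          rw [if_pos trivial, mul_one]
          unfold prS
          split_ifs
          · exact (pr_bound hN hlev hc hb hB x' I).1
          · exact le_rfl
        · intro I _ hg
          refine le_trans ?_ (sum_le_of_GB hN hlev hg)
          apply Finset.sum_le_sum_of_subset_of_nonneg Finset.inter_subset_left
          intro y _ _
          exact (pr_bound hN hlev hc hb hB y I).1

end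

end Pool.Agent.Y415.Frac
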