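import Pool.Agent.Y415.Frac.I2

set_option autoImplicit false
set_option linter.unusedSectionVars false

open Finset
open scoped Classical

noncomputable section

namespace Pool.Agent.Y415.Frac

/-- A distribution on independent sets with large vertex probabilities and bounded pair
probabilities. -/
theorem dist_exists (R : ℕ) {C : ℝ} (hC : 0 < C) :
    ∃ K1 : ℝ, 0 < K1 ∧ ∃ D : ℕ, 0 < D ∧ ∀ d : ℕ, D ≤ d → ∀ (n : ℕ) (N : Fin n → Finset (Fin n))
      (adj : Fin n → Fin n → Prop), (∀ x, ∀ y ∈ N x, y < x) → (∀ x, (N x).card ≤ d) →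
      (∀ z y, y ∈ N z → adj z y ∧ adj y z) →
      (∀ u, ∀ x ∈ N u, Cl adj (R + 1) (N x ∩ N u) = ∅) →
      ∃ w : Finset (Fin n) → ℝ, (∀ I, 0 ≤ w I) ∧ (∀ I, w I ≠ 0 → ∀ x ∈ I, ∀ y ∈ N x, y ∉ I) ∧
      (∀ v, C / (2 * d) ≤ ∑ I ∈ Finset.univ.filter (fun I : Finset (Fin n) => v ∈ I), w I) ∧
      (∀ x x', x ≠ x' → ∑ I ∈ Finset.univ.filter (fun I : Finset (Fin n) => x ∈ I ∧ x' ∈ I), w I
        ≤ K1 / (d:ℝ) ^ 2) ∧
      ∑ I, w I = 1 := by
  obtain ⟨ρ, ε, η, T, hp, hTm, hT0, n1, n2⟩ := params R hC
  set X : ℝ := 2 * (C * (8 * Qp ρ ε η R) * Real.exp (2 * T (R + 1))) with hX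
  have hQ := Qp_ge_one hp R
  have hX0 : 0 < X := by
    rw [hX]
    have : 0 < Qp ρ ε η R := by linarith
    positivity
  have hS0 : 0 ≤ ∑ i ∈ Finset.range R, ρ i := Finset.sum_nonneg fun i _ => (hp.ρ0 i).le
  have hQ0 : 0 < Qp ρ ε η R := by linarith
  refine ⟨C ^ 2 * Qp ρ ε η R * Real.exp (2 * T (R + 1)), by positivity,
    ⌈X + ∑ i ∈ Finset.range R, ρ i⌉₊ + 1, Nat.succ_pos _, ?_⟩
  intro d hd n N adj hN hNd hadj hK
  have hd0 : 0 < d := by omega
  have hdR : (0:ℝ) < d := by exact_mod_cast hd0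
  have hd1 : X + ∑ i ∈ Finset.range R, ρ i ≤ d := by
    have h1 := Nat.le_ceil (X + ∑ i ∈ Finset.range R, ρ i)
    have h2 : ((⌈X + ∑ i ∈ Finset.range R, ρ i⌉₊ + 1 : ℕ) : ℝ) ≤ d := by exact_mod_cast hd
    push_cast at h2
    linarith
  have hρ : ∀ i, i < R → ρ i ≤ d := by
    intro i hi
    have : ρ i ≤ ∑ i ∈ Finset.range R, ρ i :=
      Finset.single_le_sum (f := ρ) (fun i _ => (hp.ρ0 i).le) (Finset.mem_range.2 hi)
    linarith
  have hB : C / d * (8 * Qp ρ ε η R) * Real.exp (2 * T (R + 1)) ≤ 1 / 2 := by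
    have : C / d * (8 * Qp ρ ε η R) * Real.exp (2 * T (R + 1)) = X / 2 / d := by
      rw [hX]; field_simp
    rw [this, div_le_iff₀ hdR]
    linarith
  obtain ⟨w, w0, w1, w2, w3, w4⟩ := static_main2 hN hd0 hNd hadj hK hp hρ hTm hT0 hC hB
    (fun L _ => n1 L) (fun j _ => n2 j)
  refine ⟨w, w0, w1, w2, ?_, w4⟩
  intro x x' hxx
  refine (w3 x x' hxx).trans (le_of_eq ?_)
  field_simp

section potential

variable {n : ℕ} {w : Finset (Fin n) → ℝ}

theorem good_mass {d : ℕ} (hd : 0 < d) {C K1 K : ℝ} (hK : 0 < K)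
    (hKC : K1 / K ≤ C / 4) (w0 : ∀ I, 0 ≤ w I)
    (w2 : ∀ v, C / (2 * d) ≤ ∑ I ∈ Finset.univ.filter (fun I : Finset (Fin n) => v ∈ I), w I)
    (w3 : ∀ x x', x ≠ x' →
      ∑ I ∈ Finset.univ.filter (fun I : Finset (Fin n) => x ∈ I ∧ x' ∈ I), w I ≤ K1 / (d:ℝ) ^ 2)
    {A : Finset (Fin n)} (hA : A.card ≤ d) (hK1 : 0 ≤ K1) {x : Fin n} (hx : x ∈ A) :
    C / (4 * d) ≤ ∑ I, w I * (if x ∈ I ∧ ((A ∩ I).card : ℝ) ≤ K + 1 then (1:ℝ) else 0) := by
  have hdR : (0:ℝ) < d := by exact_mod_cast hd
  have h1 : ∑ I, w I * (if x ∈ I ∧ ¬ ((A ∩ I).card : ℝ) ≤ K + 1 then (1:ℝ) else 0) ≤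
      C / (4 * d) := by
    calc ∑ I, w I * (if x ∈ I ∧ ¬ ((A ∩ I).card : ℝ) ≤ K + 1 then (1:ℝ) else 0)
        ≤ ∑ I, w I * ((1 / K) * ∑ x' ∈ A.erase x, (if x ∈ I ∧ x' ∈ I then (1:ℝ) else 0)) := by
          apply Finset.sum_le_sum
          intro I _
          apply mul_le_mul_of_nonneg_left _ (w0 I)
          split_ifs with h
          · obtain ⟨hxI, hcard⟩ := h
            have e : ∑ x' ∈ A.erase x, (if x ∈ I ∧ x' ∈ I then (1:ℝ) else 0) =
                (((A ∩ I).erase x).card : ℝ) := by
              have : (A ∩ I).erase x = (A.erase x).filter (fun x' => x ∈ I ∧ x' ∈ I) := by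
                ext y
                simp only [Finset.mem_erase, Finset.mem_inter, Finset.mem_filter]
                tauto
              rw [this, ← Finset.sum_filter, Finset.sum_const, nsmul_eq_mul, mul_one]
            rw [e, Finset.card_erase_of_mem (Finset.mem_inter.2 ⟨hx, hxI⟩)]
            have hpos : 0 < (A ∩ I).card := Finset.card_pos.2 ⟨x, Finset.mem_inter.2 ⟨hx, hxI⟩⟩
            rw [Nat.cast_sub (by omega), one_div, inv_mul_eq_div, one_le_div hK]
            push_cast
            linarith [not_le.1 hcard]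
          · apply mul_nonneg (by positivity)
            apply Finset.sum_nonneg
            intro y _
            split_ifs <;> norm_num
      _ = (1 / K) * ∑ x' ∈ A.erase x,
            ∑ I ∈ Finset.univ.filter (fun I : Finset (Fin n) => x ∈ I ∧ x' ∈ I), w I := by
          simp only [Finset.sum_filter, Finset.mul_sum]
          rw [Finset.sum_comm]
          apply Finset.sum_congr rfl
          intro y _
          apply Finset.sum_congr rfl
          intro I _
          split_ifs <;> ring
      _ ≤ (1 / K) * ∑ x' ∈ A.erase x, K1 / (d:ℝ) ^ 2 := by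
          apply mul_le_mul_of_nonneg_left _ (by positivity)
          apply Finset.sum_le_sum
          intro y hy
          exact w3 x y (Finset.ne_of_mem_erase hy).symm
      _ ≤ (1 / K) * (d * (K1 / (d:ℝ) ^ 2)) := by
          apply mul_le_mul_of_nonneg_left _ (by positivity)
          rw [Finset.sum_const, nsmul_eq_mul]
          apply mul_le_mul_of_nonneg_right _ (by positivity)
          have := (Finset.card_erase_le (s := A) (a := x)).trans hA
          exact_mod_cast this
      _ = (K1 / K) / d := by field_simp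
      _ ≤ (C / 4) / d := div_le_div_of_nonneg_right hKC hdR.le
      _ = C / (4 * d) := by field_simp
  have h2 : ∑ I, w I * (if x ∈ I ∧ ((A ∩ I).card : ℝ) ≤ K + 1 then (1:ℝ) else 0) +
      ∑ I, w I * (if x ∈ I ∧ ¬ ((A ∩ I).card : ℝ) ≤ K + 1 then (1:ℝ) else 0) =
      ∑ I ∈ Finset.univ.filter (fun I : Finset (Fin n) => x ∈ I), w I := by
    rw [← Finset.sum_add_distrib, Finset.sum_filter]
    apply Finset.sum_congr rfl
    intro I _
    by_cases c1 : x ∈ I <;> by_cases c2 : ((A ∩ I).card : ℝ) ≤ K + 1 <;> simp [c1, c2]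
  have h3 := w2 x
  have h4 : C / (2 * d) = C / (4 * d) + C / (4 * d) := by field_simp; ring
  linarith

theorem exp_half {t : ℝ} (h0 : 0 ≤ t) (h1 : t ≤ 1) : Real.exp (-t) ≤ 1 - t / 2 := by
  have hq := Real.quadratic_le_exp_of_nonneg h0
  rw [Real.exp_neg]
  rw [inv_le_comm₀ (Real.exp_pos _) (by linarith)]
  refine le_trans ?_ hq
  rw [inv_le_iff_one_le_mul₀ (by linarith)]
  nlinarith [mul_nonneg h0 h0, mul_nonneg h0 (sub_nonneg.2 h1)]

theorem step_bound {d : ℕ} (hd : 0 < d) {C K1 K : ℝ} (hC : 0 < C) (hK : 0 < K)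
    (hKC : K1 / K ≤ C / 4) (w0 : ∀ I, 0 ≤ w I)
    (w2 : ∀ v, C / (2 * d) ≤ ∑ I ∈ Finset.univ.filter (fun I : Finset (Fin n) => v ∈ I), w I)
    (w3 : ∀ x x', x ≠ x' →
      ∑ I ∈ Finset.univ.filter (fun I : Finset (Fin n) => x ∈ I ∧ x' ∈ I), w I ≤ K1 / (d:ℝ) ^ 2)
    (w4 : ∑ I, w I = 1)
    {U : Finset (Fin n)} (hU : U.card ≤ d) (hK1 : 0 ≤ K1) :
    ∑ I, w I * Real.exp (1 / (K + 1) * ((U \ I).card : ℝ)) ≤
      Real.exp (1 / (K + 1) * (U.card : ℝ)) *
        Real.exp (-(1 / (K + 1) * (C / (8 * d)) * (U.card : ℝ))) := by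
  have hdR : (0:ℝ) < d := by exact_mod_cast hd
  set l : ℝ := 1 / (K + 1) with hl
  have hl0 : 0 < l := by positivity
  have hpt : ∀ I : Finset (Fin n), Real.exp (l * ((U \ I).card : ℝ)) ≤
      Real.exp (l * (U.card : ℝ)) * (1 - l / 2 * ∑ x ∈ U,
        (if x ∈ I ∧ ((U ∩ I).card : ℝ) ≤ K + 1 then (1:ℝ) else 0)) := by
    intro I
    have hc : ((U \ I).card : ℝ) = (U.card : ℝ) - ((U ∩ I).card : ℝ) := by
      have := Finset.card_sdiff_add_card_inter U I
      rw [← this]; push_cast; ring
    rw [hc, mul_sub, sub_eq_add_neg, Real.exp_add]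
    apply mul_le_mul_of_nonneg_left _ (Real.exp_pos _).le
    by_cases c : ((U ∩ I).card : ℝ) ≤ K + 1
    · have e : ∑ x ∈ U, (if x ∈ I ∧ ((U ∩ I).card : ℝ) ≤ K + 1 then (1:ℝ) else 0) =
          ((U ∩ I).card : ℝ) := by
        simp only [c, and_true]
        rw [← Finset.sum_filter, Finset.sum_const, nsmul_eq_mul, mul_one]
        congr 2
      rw [e]
      have h1 : l * ((U ∩ I).card : ℝ) ≤ 1 := by
        rw [hl, one_div_mul_eq_div, div_le_one (by linarith)]
        exact c
      have h0 : 0 ≤ l * ((U ∩ I).card : ℝ) := by positivity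
      have := exp_half h0 h1
      linarith
    · have e : ∑ x ∈ U, (if x ∈ I ∧ ((U ∩ I).card : ℝ) ≤ K + 1 then (1:ℝ) else 0) = 0 := by
        apply Finset.sum_eq_zero
        intro x _
        rw [if_neg (fun h => c h.2)]
      rw [e, mul_zero, sub_zero]
      apply Real.exp_le_one_iff.2
      have : 0 ≤ l * ((U ∩ I).card : ℝ) := by positivity
      linarith
  calc ∑ I, w I * Real.exp (l * ((U \ I).card : ℝ))
      ≤ ∑ I, w I * (Real.exp (l * (U.card : ℝ)) * (1 - l / 2 * ∑ x ∈ U,
        (if x ∈ I ∧ ((U ∩ I).card : ℝ) ≤ K + 1 then (1:ℝ) else 0))) := by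
        apply Finset.sum_le_sum
        intro I _
        exact mul_le_mul_of_nonneg_left (hpt I) (w0 I)
    _ = Real.exp (l * (U.card : ℝ)) * (1 - l / 2 * ∑ x ∈ U,
        ∑ I, w I * (if x ∈ I ∧ ((U ∩ I).card : ℝ) ≤ K + 1 then (1:ℝ) else 0)) := by
        have e1 : ∀ I, w I * (Real.exp (l * (U.card : ℝ)) * (1 - l / 2 * ∑ x ∈ U,
            (if x ∈ I ∧ ((U ∩ I).card : ℝ) ≤ K + 1 then (1:ℝ) else 0))) =
            Real.exp (l * (U.card : ℝ)) * w I - Real.exp (l * (U.card : ℝ)) * (l / 2) *
              ∑ x ∈ U, w I * (if x ∈ I ∧ ((U ∩ I).card : ℝ) ≤ K + 1 then (1:ℝ) else 0) := by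
          intro I
          rw [← Finset.mul_sum]
          ring
        simp only [e1]
        rw [Finset.sum_sub_distrib, ← Finset.mul_sum, ← Finset.mul_sum, w4, Finset.sum_comm]
        ring
    _ ≤ Real.exp (l * (U.card : ℝ)) * (1 - l / 2 * ∑ x ∈ U, C / (4 * d)) := by
        apply mul_le_mul_of_nonneg_left _ (Real.exp_pos _).le
        apply sub_le_sub_left
        apply mul_le_mul_of_nonneg_left _ (by positivity)
        apply Finset.sum_le_sum
        intro x hx
        exact good_mass hd hK hKC w0 w2 w3 hU hK1 hx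
    _ = Real.exp (l * (U.card : ℝ)) * (1 - l * (C / (8 * d)) * (U.card : ℝ)) := by
        rw [Finset.sum_const, nsmul_eq_mul]
        congr 2
        field_simp
        ring
    _ ≤ _ := by
        apply mul_le_mul_of_nonneg_left _ (Real.exp_pos _).le
        exact Real.one_sub_le_exp_neg _

/-- The potential. -/
def FF (w : Finset (Fin n) → ℝ) (l θ : ℝ) : ℕ → Finset (Fin n) → ℝ
  | 0, U => if θ ≤ (U.card : ℝ) then Real.exp (l * (U.card : ℝ)) else 0
  | (j + 1), U => ∑ I, w I * FF w l θ j (U \ I)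

theorem FF_nonneg (w0 : ∀ I, 0 ≤ w I) (l θ : ℝ) (j : ℕ) (U : Finset (Fin n)) :
    0 ≤ FF w l θ j U := by
  induction j generalizing U with
  | zero =>
    unfold FF
    split_ifs
    · exact (Real.exp_pos _).le
    · exact le_rfl
  | succ j ih =>
    unfold FF
    exact Finset.sum_nonneg fun I _ => mul_nonneg (w0 I) (ih _)

theorem FF_bound {d : ℕ} (hd : 0 < d) {C K1 K : ℝ} (hC : 0 < C) (hK : 0 < K)
    (hKC : K1 / K ≤ C / 4) (w0 : ∀ I, 0 ≤ w I)
    (w2 : ∀ v, C / (2 * d) ≤ ∑ I ∈ Finset.univ.filter (fun I : Finset (Fin n) => v ∈ I), w I)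
    (w3 : ∀ x x', x ≠ x' →
      ∑ I ∈ Finset.univ.filter (fun I : Finset (Fin n) => x ∈ I ∧ x' ∈ I), w I ≤ K1 / (d:ℝ) ^ 2)
    (w4 : ∑ I, w I = 1) (hK1 : 0 ≤ K1) {θ : ℝ} (j : ℕ)
    {U : Finset (Fin n)} (hU : U.card ≤ d) :
    FF w (1 / (K + 1)) (θ * d) j U ≤ if θ * d ≤ (U.card : ℝ) then
      Real.exp (1 / (K + 1) * (U.card : ℝ)) * Real.exp (-(1 / (K + 1) * (C / 8) * θ)) ^ j
        else 0 := by
  have hdR : (0:ℝ) < d := by exact_mod_cast hd
  have hl0 : 0 < 1 / (K + 1) := by positivity
  induction j generalizing U with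
  | zero =>
    unfold FF
    rw [pow_zero, mul_one]
  | succ j ih =>
    unfold FF
    have hsub : ∀ I : Finset (Fin n), (U \ I).card ≤ d := fun I =>
      (Finset.card_le_card Finset.sdiff_subset).trans hU
    by_cases c : θ * d ≤ (U.card : ℝ)
    · rw [if_pos c]
      calc ∑ I, w I * FF w (1 / (K + 1)) (θ * d) j (U \ I)
          ≤ ∑ I, w I * (Real.exp (1 / (K + 1) * ((U \ I).card : ℝ)) *
              Real.exp (-(1 / (K + 1) * (C / 8) * θ)) ^ j) := by
            apply Finset.sum_le_sum
            intro I _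
            apply mul_le_mul_of_nonneg_left _ (w0 I)
            refine (ih (hsub I)).trans ?_
            split_ifs
            · exact le_rfl
            · positivity
        _ = (∑ I, w I * Real.exp (1 / (K + 1) * ((U \ I).card : ℝ))) *
              Real.exp (-(1 / (K + 1) * (C / 8) * θ)) ^ j := by
            rw [Finset.sum_mul]
            apply Finset.sum_congr rfl
            intro I _
            ring
        _ ≤ (Real.exp (1 / (K + 1) * (U.card : ℝ)) *
              Real.exp (-(1 / (K + 1) * (C / (8 * d)) * (U.card : ℝ)))) *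
              Real.exp (-(1 / (K + 1) * (C / 8) * θ)) ^ j := by
            apply mul_le_mul_of_nonneg_right
              (step_bound hd hC hK hKC w0 w2 w3 w4 hU hK1) (by positivity)
        _ ≤ (Real.exp (1 / (K + 1) * (U.card : ℝ)) *
              Real.exp (-(1 / (K + 1) * (C / 8) * θ))) *
              Real.exp (-(1 / (K + 1) * (C / 8) * θ)) ^ j := by
            apply mul_le_mul_of_nonneg_right _ (by positivity)
            apply mul_le_mul_of_nonneg_left _ (Real.exp_pos _).le
            apply Real.exp_le_exp.2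
            apply neg_le_neg
            have h1 : (C / 8) * θ ≤ (C / (8 * d)) * (U.card : ℝ) := by
              calc (C / 8) * θ = (C / (8 * d)) * (θ * d) := by field_simp
                _ ≤ _ := mul_le_mul_of_nonneg_left c (by positivity)
            calc 1 / (K + 1) * (C / 8) * θ = 1 / (K + 1) * ((C / 8) * θ) := by ring
              _ ≤ 1 / (K + 1) * ((C / (8 * d)) * (U.card : ℝ)) :=
                  mul_le_mul_of_nonneg_left h1 hl0.le
              _ = _ := by ring
        _ = _ := by rw [pow_succ]; ring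
    · rw [if_neg c]
      apply le_of_eq
      apply Finset.sum_eq_zero
      intro I _
      have h1 := ih (hsub I)
      have h2 : ¬ θ * d ≤ ((U \ I).card : ℝ) := by
        intro h
        apply c
        refine h.trans ?_
        exact_mod_cast Finset.card_le_card Finset.sdiff_subset
      rw [if_neg h2] at h1
      have h3 := FF_nonneg w0 (1 / (K + 1)) (θ * d) j (U \ I)
      rw [le_antisymm h1 h3, mul_zero]

theorem select {ι : Type*} (s : Finset ι) (w0 : ∀ I, 0 ≤ w I) (w4 : ∑ I, w I = 1) (l θ : ℝ)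
    (j : ℕ) (U : ι → Finset (Fin n)) :
    ∃ S : ℕ → Finset (Fin n), (∀ i, i < j → w (S i) ≠ 0) ∧
      ∑ v ∈ s, FF w l θ 0 (U v \ (Finset.range j).biUnion S) ≤ ∑ v ∈ s, FF w l θ j (U v) := by
  induction j generalizing U with
  | zero =>
    refine ⟨fun _ => ∅, fun i hi => absurd hi (Nat.not_lt_zero i), ?_⟩
    simp
  | succ j ih =>
    have e : ∑ v ∈ s, FF w l θ (j + 1) (U v) = ∑ I, w I * ∑ v ∈ s, FF w l θ j (U v \ I) := by
      simp only [FF, Finset.mul_sum]
      rw [Finset.sum_comm]
    obtain ⟨I, hI, hle⟩ : ∃ I, w I ≠ 0 ∧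
        ∑ v ∈ s, FF w l θ j (U v \ I) ≤ ∑ v ∈ s, FF w l θ (j + 1) (U v) := by
      by_contra hcon
      push Not at hcon
      set M := ∑ v ∈ s, FF w l θ (j + 1) (U v) with hM
      have h1 : ∑ I, w I * M ≤ ∑ I, w I * ∑ v ∈ s, FF w l θ j (U v \ I) := by
        apply Finset.sum_le_sum
        intro I _
        by_cases hI : w I = 0
        · rw [hI, zero_mul, zero_mul]
        · exact mul_le_mul_of_nonneg_left (hcon I hI).le (w0 I)
      have hex : ∃ I, w I ≠ 0 := by
        by_contra h
        push Not at h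
        rw [Finset.sum_eq_zero (fun I _ => h I)] at w4
        exact zero_ne_one w4
      obtain ⟨I0, hI0⟩ := hex
      have hpos : 0 < w I0 := lt_of_le_of_ne (w0 I0) (Ne.symm hI0)
      have h2 : ∑ I, w I * M < ∑ I, w I * ∑ v ∈ s, FF w l θ j (U v \ I) := by
        apply Finset.sum_lt_sum
        · intro I _
          by_cases hI : w I = 0
          · rw [hI, zero_mul, zero_mul]
          · exact mul_le_mul_of_nonneg_left (hcon I hI).le (w0 I)
        · exact ⟨I0, Finset.mem_univ _, mul_lt_mul_of_pos_left (hcon I0 hI0) hpos⟩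
      rw [← Finset.sum_mul, w4, one_mul, ← e] at h2
      exact lt_irrefl _ h2
    obtain ⟨S, hS, hS2⟩ := ih (fun v => U v \ I)
    refine ⟨Function.update S j I, ?_, ?_⟩
    · intro i hi
      by_cases c : i = j
      · subst c
        rw [Function.update_self]
        exact hI
      · rw [Function.update_of_ne c]
        exact hS i (by omega)
    · refine le_trans (le_of_eq ?_) (hS2.trans hle)
      apply Finset.sum_congr rfl
      intro v _
      have e2 : (Finset.range (j + 1)).biUnion (Function.update S j I) =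
          I ∪ (Finset.range j).biUnion S := by
        rw [Finset.range_add_one, Finset.biUnion_insert, Function.update_self]
        congr 1
        apply Finset.biUnion_congr rfl
        intro i hi
        rw [Function.update_of_ne (Finset.mem_range.1 hi).ne]
      have e3 : U v \ (Finset.range (j + 1)).biUnion (Function.update S j I) =
          (U v \ I) \ (Finset.range j).biUnion S := by
        rw [e2]
        ext y
        simp only [Finset.mem_sdiff, Finset.mem_union]
        tauto
      rw [e3]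

/-- Greedy colouring of the remaining vertices. -/
theorem greedy {N : Fin n → Finset (Fin n)} (hN : ∀ x, ∀ y ∈ N x, y < x)
    (Wt : Finset (Fin n)) (m : ℕ) (hW : ∀ x ∈ Wt, (N x ∩ Wt).card < m) :
    ∃ c : Fin n → ℕ, (∀ x ∈ Wt, c x < m) ∧ ∀ x ∈ Wt, ∀ y ∈ N x ∩ Wt, c x ≠ c y := by
  have key : ∀ t : ℕ, ∃ c : Fin n → ℕ, (∀ x ∈ Wt, c x < m) ∧
      ∀ x ∈ Wt, x.val < t → ∀ y ∈ N x ∩ Wt, c x ≠ c y := by
    intro t
    induction t with
    | zero =>
      refine ⟨fun _ => 0, ?_, ?_⟩
      · intro x hx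
        exact lt_of_le_of_lt (Nat.zero_le _) (hW x hx)
      · intro x _ hx
        exact absurd hx (Nat.not_lt_zero _)
    | succ t ih =>
      obtain ⟨c, c1, c2⟩ := ih
      by_cases ht : t < n
      · by_cases hmem : (⟨t, ht⟩ : Fin n) ∈ Wt
        · have hcard : ((N ⟨t, ht⟩ ∩ Wt).image c).card < (Finset.range m).card := by
            rw [Finset.card_range]
            exact Finset.card_image_le.trans_lt (hW _ hmem)
          obtain ⟨a, ha, ha'⟩ := Finset.exists_mem_notMem_of_card_lt_card hcard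
          refine ⟨Function.update c ⟨t, ht⟩ a, ?_, ?_⟩
          · intro x hx
            by_cases h : x = ⟨t, ht⟩
            · rw [h, Function.update_self]
              exact Finset.mem_range.1 ha
            · rw [Function.update_of_ne h]
              exact c1 x hx
          · intro x hx hxt y hy
            have hyx : y < x := hN x y (Finset.mem_inter.1 hy).1
            have hy' : y ≠ ⟨t, ht⟩ := by
              intro h
              rw [h] at hyx
              have : t < x.val := hyx
              omega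
            rw [Function.update_of_ne hy']
            by_cases h : x = ⟨t, ht⟩
            · subst h
              rw [Function.update_self]
              intro h
              apply ha'
              rw [h]
              exact Finset.mem_image_of_mem c hy
            · rw [Function.update_of_ne h]
              apply c2 x hx _ y hy
              have : x.val ≠ t := fun h' => h (Fin.ext h')
              omega
        · refine ⟨c, c1, ?_⟩
          intro x hx hxt y hy
          apply c2 x hx _ y hy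
          have : x.val ≠ t := by
            intro h'
            apply hmem
            have : x = ⟨t, ht⟩ := Fin.ext h'
            rw [← this]
            exact hx
          omega
      · refine ⟨c, c1, ?_⟩
        intro x hx hxt y hy
        apply c2 x hx _ y hy
        have := x.isLt
        omega
  obtain ⟨c, c1, c2⟩ := key n
  exact ⟨c, c1, fun x hx y hy => c2 x hx x.isLt y hy⟩

end potential

/-- Colouring theorem in ordered form. -/
theorem color_core (R : ℕ) : ∃ c : ℝ, 0 < c ∧ ∃ D : ℕ, ∀ d : ℕ, D ≤ d →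
      ∀ (n : ℕ) (N : Fin n → Finset (Fin n))
      (adj : Fin n → Fin n → Prop), (∀ x, ∀ y ∈ N x, y < x) → (∀ x, (N x).card ≤ d) →
      (∀ z y, y ∈ N z → adj z y ∧ adj y z) →
      (∀ u, ∀ x ∈ N u, Cl adj (R + 1) (N x ∩ N u) = ∅) →
      (n : ℝ) < Real.exp (c * d) →
      ∃ f : Fin n → ℕ, (∀ x, f x < d) ∧ ∀ x, ∀ y ∈ N x, f x ≠ f y := by
  obtain ⟨K1, hK1, D, hD, h⟩ := dist_exists R (C := 512) (by norm_num)
  set K : ℝ := K1 / 128 with hK
  have hK0 : 0 < K := by positivity
  have hKC : K1 / K ≤ 512 / 4 := by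
    rw [hK]
    apply le_of_eq
    field_simp
    norm_num
  set l : ℝ := 1 / (K + 1) with hl
  have hl0 : 0 < l := by positivity
  refine ⟨l, hl0, D + 8, ?_⟩
  intro d hd n N adj hN hNd hadj hCl hn
  have hd0 : 0 < d := by omega
  have hdR : (0:ℝ) < d := by exact_mod_cast hd0
  obtain ⟨w, w0, w1, w2, w3, w4⟩ := h d (by omega) n N adj hN hNd hadj hCl
  set k : ℕ := d / 4 with hk
  obtain ⟨S, hS, hS2⟩ := select (Finset.univ : Finset (Fin n)) w0 w4 l ((1/4 : ℝ) * d) k N
  have hbound : ∑ v : Fin n, FF w l ((1/4 : ℝ) * d) k (N v) <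
      Real.exp (l * ((1/4 : ℝ) * d)) := by
    rcases Nat.eq_zero_or_pos n with hn0 | hn0
    · subst hn0
      simp only [Finset.univ_eq_empty, Finset.sum_empty]
      exact Real.exp_pos _
    calc ∑ v : Fin n, FF w l ((1/4 : ℝ) * d) k (N v)
        ≤ ∑ v : Fin n, Real.exp (l * d) * Real.exp (-(l * (512 / 8) * (1/4 : ℝ))) ^ k := by
          apply Finset.sum_le_sum
          intro v _
          refine (FF_bound hd0 (by norm_num) hK0 hKC w0 w2 w3 w4 hK1.le k (hNd v)).trans ?_
          have hc : ((N v).card : ℝ) ≤ d := by exact_mod_cast hNd v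
          split_ifs
          · apply mul_le_mul_of_nonneg_right _ (by positivity)
            apply Real.exp_le_exp.2
            exact mul_le_mul_of_nonneg_left hc hl0.le
          · positivity
      _ = (n : ℝ) * (Real.exp (l * d) * Real.exp (-(l * (512 / 8) * (1/4 : ℝ))) ^ k) := by
          rw [Finset.sum_const, Finset.card_univ, Fintype.card_fin, nsmul_eq_mul]
      _ < Real.exp (l * d) * (Real.exp (l * d) * Real.exp (-(l * (512 / 8) * (1/4 : ℝ))) ^ k) := by
          apply mul_lt_mul_of_pos_right hn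
          positivity
      _ ≤ _ := by
          rw [← Real.exp_nat_mul, ← Real.exp_add, ← Real.exp_add]
          apply Real.exp_le_exp.2
          have hk8 : (d:ℝ) / 8 ≤ (k : ℝ) := by
            have h1 : d ≤ 8 * k := by omega
            have h2 : (d:ℝ) ≤ 8 * k := by exact_mod_cast h1
            linarith
          have h3 : l * (d / 8) ≤ l * k := mul_le_mul_of_nonneg_left hk8 hl0.le
          nlinarith
  have hsmall : ∀ v, ((N v \ (Finset.range k).biUnion S).card : ℝ) < (1/4 : ℝ) * d := by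
    intro v
    by_contra hcon
    push Not at hcon
    have h1 : FF w l ((1/4 : ℝ) * d) 0 (N v \ (Finset.range k).biUnion S) ≤
        ∑ v : Fin n, FF w l ((1/4 : ℝ) * d) 0 (N v \ (Finset.range k).biUnion S) :=
      Finset.single_le_sum
        (f := fun v => FF w l ((1/4 : ℝ) * d) 0 (N v \ (Finset.range k).biUnion S))
        (fun v _ => FF_nonneg w0 _ _ 0 _) (Finset.mem_univ v)
    have h2 : Real.exp (l * ((1/4 : ℝ) * d)) ≤
        FF w l ((1/4 : ℝ) * d) 0 (N v \ (Finset.range k).biUnion S) := by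
      unfold FF
      rw [if_pos hcon]
      apply Real.exp_le_exp.2
      exact mul_le_mul_of_nonneg_left hcon hl0.le
    linarith
  set Wt : Finset (Fin n) := Finset.univ \ (Finset.range k).biUnion S with hWt
  have hWcard : ∀ x ∈ Wt, (N x ∩ Wt).card < d / 4 + 1 := by
    intro x _
    have h1 : N x ∩ Wt = N x \ (Finset.range k).biUnion S := by
      ext y
      simp only [hWt, Finset.mem_inter, Finset.mem_sdiff, Finset.mem_univ, true_and]
    rw [h1]
    have h2 := hsmall x
    have h3 : ((4 * (N x \ (Finset.range k).biUnion S).card : ℕ) : ℝ) < (d : ℝ) := by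
      push_cast
      linarith
    have h4 : 4 * (N x \ (Finset.range k).biUnion S).card < d := by exact_mod_cast h3
    omega
  obtain ⟨c, c1, c2⟩ := greedy hN Wt (d / 4 + 1) hWcard
  have hidx : ∀ x, x ∉ Wt → ∃ i, i < k ∧ x ∈ S i := by
    intro x hx
    simp only [hWt, Finset.mem_sdiff, Finset.mem_univ, true_and, not_not, Finset.mem_biUnion,
      Finset.mem_range] at hx
    exact hx
  choose! g hg1 hg2 using hidx
  refine ⟨fun x => if x ∈ Wt then k + c x else g x, ?_, ?_⟩
  · intro x
    dsimp only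
    split_ifs with hx
    · have := c1 x hx
      omega
    · have := hg1 x hx
      omega
  · intro x y hy
    dsimp only
    by_cases hx : x ∈ Wt
    · by_cases hy' : y ∈ Wt
      · rw [if_pos hx, if_pos hy']
        have := c2 x hx y (Finset.mem_inter.2 ⟨hy, hy'⟩)
        omega
      · rw [if_pos hx, if_neg hy']
        have := hg1 y hy'
        omega
    · by_cases hy' : y ∈ Wt
      · rw [if_neg hx, if_pos hy']
        have := hg1 x hx
        omega
      · rw [if_neg hx, if_neg hy']
        intro he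
        have h1 := hg2 x hx
        have h2 := hg2 y hy'
        rw [← he] at h2
        exact w1 (S (g x)) (hS _ (hg1 x hx)) x h1 y hy h2

end Pool.Agent.Y415.Frac
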