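import Pool.Agent.Y415.Frac.M

set_option autoImplicit false
set_option linter.unusedSectionVars false

open Finset
open scoped Classical

noncomputable section

namespace Pool.Agent.Y415.Frac

/-! Growth of the parameters. -/

theorem mul_exp_le {K y : ℝ} (hK : 1 ≤ K) (hy : 1 ≤ y) : K * Real.exp y ≤ Real.exp (K * y) := by
  have h1 : K ≤ Real.exp (K - 1) := by
    have := Real.add_one_le_exp (K - 1)
    linarith
  have h2 : Real.exp (K - 1) ≤ Real.exp ((K - 1) * y) := by
    apply Real.exp_le_exp.2
    nlinarith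
  calc K * Real.exp y ≤ Real.exp ((K - 1) * y) * Real.exp y :=
        mul_le_mul_of_nonneg_right (h1.trans h2) (Real.exp_pos _).le
    _ = Real.exp (K * y) := by rw [← Real.exp_add]; congr 1; ring

theorem iter_ge {x : ℝ} (hx : 1 ≤ x) (m : ℕ) : 1 ≤ Real.exp^[m] x := by
  induction m with
  | zero => exact hx
  | succ m ih =>
    rw [Function.iterate_succ_apply']
    exact Real.one_le_exp (by linarith)

theorem iter_mono (m : ℕ) : Monotone (Real.exp^[m]) := Real.exp_strictMono.monotone.iterate m

theorem mul_iter_le {K x : ℝ} (hK : 1 ≤ K) (hx : 1 ≤ x) (m : ℕ) :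
    K * Real.exp^[m] x ≤ Real.exp^[m] (K * x) := by
  induction m with
  | zero => exact le_rfl
  | succ m ih =>
    rw [Function.iterate_succ_apply', Function.iterate_succ_apply']
    exact (mul_exp_le hK (iter_ge hx m)).trans (Real.exp_le_exp.2 ih)

section growth

variable {a b C : ℝ}

/-- constant -/
def c1 (a b : ℝ) : ℝ := 1 + 8 * a * Real.exp (2 * a + b) + 8 * a
/-- constant -/
def c2 (a b : ℝ) : ℝ := 64 * a * Real.exp (6 * a + b) + 2 + 9
/-- constant -/
def c4 (a b : ℝ) : ℝ := 3 * c2 a b + 6
/-- constant -/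
def c5 (a b : ℝ) : ℝ := c1 a b + 3

theorem c1_ge (ha : 0 < a) : 1 ≤ c1 a b := by
  unfold c1
  have : 0 < 8 * a * Real.exp (2 * a + b) := by positivity
  linarith

theorem c2_ge (ha : 0 < a) : 11 ≤ c2 a b := by
  unfold c2
  have : 0 < 64 * a * Real.exp (6 * a + b) := by positivity
  linarith

/-- Bound of the next threshold. -/
theorem T2_le (ha : 0 < a) (hC : 0 < C) {s : ℝ × ℝ × ℝ} {Y V : ℝ} (hY : 1 ≤ Y) (hV : 1 ≤ V)
    (hCY : C ≤ Y) (h0 : 0 ≤ s.1) (hQ1 : 1 ≤ s.2.2) (h1 : s.1 ≤ Y) (h2 : s.2.2 ≤ Real.exp V) :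
    T2 a b C s ≤ Real.exp (c5 a b * (Y + V)) := by
  have hc1 := c1_ge (a := a) (b := b) ha
  have e1 : C * Real.exp (2 * (s.1 + a)) * (s.2.2 * Real.exp b) ≤
      Real.exp (2 * a + b) * Real.exp (3 * Y + V) := by
    have hCe : C ≤ Real.exp Y := hCY.trans (by linarith [Real.add_one_le_exp Y])
    calc C * Real.exp (2 * (s.1 + a)) * (s.2.2 * Real.exp b) ≤
        Real.exp Y * Real.exp (2 * (Y + a)) * (Real.exp V * Real.exp b) := by
          apply mul_le_mul
          · apply mul_le_mul hCe _ (Real.exp_pos _).le (Real.exp_pos _).le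
            apply Real.exp_le_exp.2
            linarith
          · exact mul_le_mul_of_nonneg_right h2 (Real.exp_pos _).le
          · have : 0 < s.2.2 := by linarith
            positivity
          · positivity
      _ = _ := by
          rw [← Real.exp_add, ← Real.exp_add, ← Real.exp_add, ← Real.exp_add]
          congr 1; ring
  have hW1 : (1:ℝ) ≤ Real.exp (3 * Y + V) := Real.one_le_exp (by linarith)
  have e2 : s.1 ≤ Real.exp (3 * Y + V) := by
    have := Real.add_one_le_exp (3 * Y + V)
    linarith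
  have e3 : T2 a b C s ≤ c1 a b * Real.exp (3 * Y + V) := by
    unfold T2 c1
    have e4 : 8 * a * (C * Real.exp (2 * (s.1 + a)) * (s.2.2 * Real.exp b) + 1) ≤
        8 * a * (Real.exp (2 * a + b) * Real.exp (3 * Y + V) + Real.exp (3 * Y + V)) := by
      apply mul_le_mul_of_nonneg_left _ (by positivity)
      linarith
    nlinarith
  refine e3.trans ?_
  have e5 : c1 a b ≤ Real.exp (c1 a b) := by
    have := Real.add_one_le_exp (c1 a b)
    linarith
  calc c1 a b * Real.exp (3 * Y + V) ≤ Real.exp (c1 a b) * Real.exp (3 * Y + V) :=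
        mul_le_mul_of_nonneg_right e5 (Real.exp_pos _).le
    _ = Real.exp (c1 a b + (3 * Y + V)) := by rw [← Real.exp_add]
    _ ≤ _ := by
        apply Real.exp_le_exp.2
        unfold c5
        nlinarith

/-- Bounds for the next state. -/
theorem next_le (ha : 0 < a) (hC : 0 < C) {s : ℝ × ℝ × ℝ} {Z : ℝ} (hZ : 1 ≤ Z)
    (hCZ : C ≤ Z) (hη0 : 0 < s.2.1) (hQ1 : 1 ≤ s.2.2)
    (h1 : T2 a b C s ≤ Z) (h2 : s.2.2 ≤ Real.exp Z) (h3 : 1 / s.2.1 ≤ Real.exp Z) :
    rh a b C s ≤ Real.exp (c2 a b * Z) ∧
    (stp a b C s).1 ≤ c4 a b * Z ∧ 1 / (stp a b C s).2.1 ≤ Real.exp (c4 a b * Z) ∧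
      (stp a b C s).2.2 ≤ Real.exp (Real.exp (c4 a b * Z)) := by
  have hc2 := c2_ge (a := a) (b := b) ha
  have hQ0 : 0 < s.2.2 := by linarith
  have hr : rh a b C s ≤ Real.exp (c2 a b * Z) := by
    have hCe : C ≤ Real.exp Z := hCZ.trans (by linarith [Real.add_one_le_exp Z])
    have e1 : 64 * a * C ^ 2 * Real.exp (6 * (T2 a b C s + a)) * (s.2.2 * Real.exp b) ≤
        64 * a * Real.exp (6 * a + b) * Real.exp (9 * Z) := by
      calc 64 * a * C ^ 2 * Real.exp (6 * (T2 a b C s + a)) * (s.2.2 * Real.exp b) ≤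
          64 * a * (Real.exp Z) ^ 2 * Real.exp (6 * (Z + a)) * (Real.exp Z * Real.exp b) := by
            apply mul_le_mul
            · apply mul_le_mul
              · apply mul_le_mul_of_nonneg_left _ (by positivity)
                exact pow_le_pow_left₀ hC.le hCe 2
              · apply Real.exp_le_exp.2
                linarith
              · positivity
              · positivity
            · exact mul_le_mul_of_nonneg_right h2 (Real.exp_pos _).le
            · positivity
            · positivity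
        _ = _ := by
            rw [sq, ← Real.exp_add, ← Real.exp_add]
            have : 64 * a * Real.exp (Z + Z) * Real.exp (6 * (Z + a)) * Real.exp (Z + b) =
                64 * a * (Real.exp (Z + Z) * Real.exp (6 * (Z + a)) * Real.exp (Z + b)) := by ring
            rw [this, ← Real.exp_add, ← Real.exp_add, mul_assoc (64 * a), ← Real.exp_add]
            congr 2; ring
    have e2 : rh a b C s ≤ (64 * a * Real.exp (6 * a + b) + 2) * Real.exp (9 * Z) := by
      unfold rh
      have : (1:ℝ) ≤ Real.exp (9 * Z) := Real.one_le_exp (by linarith)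
      nlinarith
    refine e2.trans ?_
    have e3 : 64 * a * Real.exp (6 * a + b) + 2 ≤
        Real.exp (64 * a * Real.exp (6 * a + b) + 2) := by
      have := Real.add_one_le_exp (64 * a * Real.exp (6 * a + b) + 2)
      linarith
    calc (64 * a * Real.exp (6 * a + b) + 2) * Real.exp (9 * Z) ≤
        Real.exp (64 * a * Real.exp (6 * a + b) + 2) * Real.exp (9 * Z) :=
          mul_le_mul_of_nonneg_right e3 (Real.exp_pos _).le
      _ = Real.exp (64 * a * Real.exp (6 * a + b) + 2 + 9 * Z) := by rw [← Real.exp_add]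
      _ ≤ _ := by
          apply Real.exp_le_exp.2
          unfold c2
          have : 0 < 64 * a * Real.exp (6 * a + b) + 2 := by positivity
          nlinarith
  have hr0 : 0 < rh a b C s := by
    unfold rh
    positivity
  have hη' : 1 / (stp a b C s).2.1 = 3 * rh a b C s ^ 3 * (1 / s.2.1) ^ 3 := by
    simp only [stp]
    field_simp
  have hc4Z : c4 a b * Z = 3 * c2 a b * Z + 6 * Z := by unfold c4; ring
  have h3' : (3:ℝ) ≤ Real.exp (3 * Z) := by
    have := Real.add_one_le_exp (3 * Z)
    linarith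
  have hη0' : 0 < 1 / s.2.1 := by positivity
  refine ⟨hr, ?_, ?_, ?_⟩
  · have : (stp a b C s).1 = T2 a b C s := rfl
    rw [this]
    refine h1.trans ?_
    unfold c4
    nlinarith
  · rw [hη']
    calc 3 * rh a b C s ^ 3 * (1 / s.2.1) ^ 3 ≤
        Real.exp (3 * Z) * (Real.exp (c2 a b * Z)) ^ 3 * (Real.exp Z) ^ 3 := by
          apply mul_le_mul
          · apply mul_le_mul h3' (pow_le_pow_left₀ hr0.le hr 3) (by positivity) (by positivity)
          · exact pow_le_pow_left₀ hη0'.le h3 3
          · positivity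
          · positivity
      _ = Real.exp (3 * c2 a b * Z + 6 * Z) := by
          rw [← Real.exp_nat_mul, ← Real.exp_nat_mul, ← Real.exp_add, ← Real.exp_add]
          congr 1; push_cast; ring
      _ = _ := by rw [hc4Z]
  · have hQ' : (stp a b C s).2.2 = s.2.2 * Real.exp (2 * rh a b C s ^ 3 * (1 / s.2.1) ^ 2) := by
      simp only [stp]
      congr 2
      field_simp
    rw [hQ']
    have e1 : 2 * rh a b C s ^ 3 * (1 / s.2.1) ^ 2 ≤ Real.exp (3 * c2 a b * Z + 3 * Z) := by
      have h2' : (2:ℝ) ≤ Real.exp Z := by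
        have := Real.add_one_le_exp Z
        linarith
      calc 2 * rh a b C s ^ 3 * (1 / s.2.1) ^ 2 ≤
          Real.exp Z * (Real.exp (c2 a b * Z)) ^ 3 * (Real.exp Z) ^ 2 := by
            apply mul_le_mul
            · apply mul_le_mul h2' (pow_le_pow_left₀ hr0.le hr 3) (by positivity) (by positivity)
            · exact pow_le_pow_left₀ hη0'.le h3 2
            · positivity
            · positivity
        _ = _ := by
            rw [← Real.exp_nat_mul, ← Real.exp_nat_mul, ← Real.exp_add, ← Real.exp_add]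
            congr 1; push_cast; ring
    calc s.2.2 * Real.exp (2 * rh a b C s ^ 3 * (1 / s.2.1) ^ 2) ≤
        Real.exp Z * Real.exp (Real.exp (3 * c2 a b * Z + 3 * Z)) := by
          apply mul_le_mul h2 (Real.exp_le_exp.2 e1) (Real.exp_pos _).le (Real.exp_pos _).le
      _ = Real.exp (Z + Real.exp (3 * c2 a b * Z + 3 * Z)) := by rw [← Real.exp_add]
      _ ≤ _ := by
          apply Real.exp_le_exp.2
          rw [hc4Z]
          have e5 : Z ≤ Real.exp (3 * c2 a b * Z + 3 * Z) := by
            have := Real.add_one_le_exp (3 * c2 a b * Z + 3 * Z)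
            nlinarith
          have e6 : Real.exp (3 * c2 a b * Z + 6 * Z) =
              Real.exp (3 * c2 a b * Z + 3 * Z) * Real.exp (3 * Z) := by
            rw [← Real.exp_add]; congr 1; ring
          rw [e6]
          nlinarith [Real.exp_pos (3 * c2 a b * Z + 3 * Z)]

end growth

end Pool.Agent.Y415.Frac
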