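import Pool.Agent.Y415.Frac.P

set_option autoImplicit false
set_option linter.unusedSectionVars false

open Finset
open scoped Classical

noncomputable section

namespace Pool.Agent.Y415.Frac

/-- Existence of parameters, with their relation to the recursion. -/
theorem params2 (R : ℕ) {C : ℝ} (hC : 0 < C) :
    ∃ ρ ε η T : ℕ → ℝ, Par ρ ε η ∧ Monotone T ∧ T 0 = 0 ∧
      (∀ L, 8 * ((R:ℝ) + 1) * (C * Real.exp (2 * (T L + (R + 1))) *
        (Qp ρ ε η (L - 1) * Real.exp (13 * R)) + 1) ≤ T (L + 1)) ∧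
      (∀ j, 64 * ((R:ℝ) + 1) * C ^ 2 * Real.exp (6 * (T (j + 1) + (R + 1))) *
        xi ρ ε η R j ≤ 1) ∧
      (∀ j, ρ j = rh ((R:ℝ) + 1) (13 * R) C (st ((R:ℝ) + 1) (13 * R) C j)) ∧
      (∀ j, T (j + 1) = (st ((R:ℝ) + 1) (13 * R) C j).1) ∧
      (∀ j, Qp ρ ε η j = (st ((R:ℝ) + 1) (13 * R) C j).2.2) := by
  set a : ℝ := (R:ℝ) + 1 with hadef
  have ha : 0 < a := by positivity
  set b : ℝ := 13 * (R:ℝ) with hbdef
  set S := st a b C with hS
  set ρ : ℕ → ℝ := fun j => rh a b C (S j) with hρ
  set ε : ℕ → ℝ := fun j => 1 / ρ j with hε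
  set η : ℕ → ℝ := fun j => (S j).2.1 with hη
  set T : ℕ → ℝ := fun j => Nat.casesOn j 0 (fun i => (S i).1) with hT
  have hT0 : T 0 = 0 := rfl
  have hTs : ∀ j, T (j + 1) = (S j).1 := fun j => rfl
  have hinv := fun j => st_inv (a := a) (b := b) (C := C) ha hC j
  have hρ2 : ∀ j, 2 ≤ ρ j := fun j => (hinv j).2.2.2.2.1
  have hρ0 : ∀ j, 0 < ρ j := fun j => by linarith [hρ2 j]
  have hpar : Par ρ ε η := by
    refine ⟨?_, ?_, ?_, ?_, hρ0, ?_, ?_⟩
    · intro i
      exact one_div_pos.2 (hρ0 i)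
    · intro i
      exact one_div_le_one_div_of_le (by norm_num) (hρ2 i)
    · intro i
      exact (hinv i).2.1
    · intro i
      exact (hinv i).2.2.1
    · intro i
      have := (hρ0 i).ne'
      show 1 / ρ i * ρ i = 1
      field_simp
    · intro i
      have h0 := hρ0 i
      have e : η (i + 1) = (1 / ρ i) ^ 2 * η i ^ 3 / (3 * ρ i) := rfl
      rw [e]
      show 3 * ρ i * ((1 / ρ i) ^ 2 * η i ^ 3 / (3 * ρ i)) ≤ (1 / ρ i) ^ 2 * η i ^ 3
      apply le_of_eq
      field_simp
  have hQ : ∀ j, Qp ρ ε η j = (S j).2.2 := by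
    intro j
    induction j with
    | zero => simp [Qp, hS, st]
    | succ j ih =>
      have e : Qp ρ ε η (j + 1) = Qp ρ ε η j * Mi ρ ε η j := by
        unfold Qp
        rw [Finset.prod_range_succ]
      rw [e, ih]
      rfl
  refine ⟨ρ, ε, η, T, hpar, ?_, hT0, ?_, ?_, fun j => rfl, hTs, hQ⟩
  · apply monotone_nat_of_le_succ
    intro j
    rcases j with _ | j
    · rw [hT0, hTs]
      exact (hinv 0).1
    · rw [hTs, hTs]
      exact (hinv j).2.2.2.2.2
  · intro L
    rcases L with _ | L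
    · rw [hT0, hTs, hQ, zero_add]
      show 8 * a * (C * Real.exp (2 * a) * (1 * Real.exp b) + 1) ≤ T1 a b C
      rw [one_mul]
      exact le_rfl
    · rw [hTs, hTs, hQ, Nat.add_sub_cancel]
      show _ ≤ T2 a b C (S L)
      unfold T2
      have := (hinv L).1
      linarith
  · intro j
    rcases j with _ | j
    · rw [hTs]
      show 64 * a * C ^ 2 * Real.exp (6 * (T1 a b C + a)) *
        (1 / (64 * a * C ^ 2 * Real.exp (6 * (T1 a b C + a)) * Real.exp b + 1) * Real.exp b) ≤ 1
      have hX : 0 < 64 * a * C ^ 2 * Real.exp (6 * (T1 a b C + a)) * Real.exp b := by positivity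
      rw [← mul_assoc, mul_assoc _ (1 / _) (Real.exp b), mul_comm (1 / _) (Real.exp b), ← mul_assoc,
        mul_one_div, div_le_one (by linarith)]
      linarith
    · rw [hTs]
      show 64 * a * C ^ 2 * Real.exp (6 * (T2 a b C (S j) + a)) *
        (Qp ρ ε η j * Real.exp b / ρ j) ≤ 1
      rw [hQ, ← mul_div_assoc, div_le_one (hρ0 j)]
      show _ ≤ rh a b C (S j)
      unfold rh
      linarith

section seqs

variable (a b C : ℝ)

/-- constant -/
def k0 : ℝ := c2 a b + 2 + 48 * a * (Real.exp (2 * a + b) + 1)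

/-- bounding sequences -/
def YV : ℕ → ℝ × ℝ
  | 0 => (k0 a b * C, 1)
  | (j + 1) => (c4 a b * Real.exp (c5 a b * ((YV j).1 + (YV j).2)),
      Real.exp (c4 a b * Real.exp (c5 a b * ((YV j).1 + (YV j).2))))

variable {a b C}

theorem st_bound (ha : 0 < a) (hC : 1 ≤ C) (j : ℕ) :
    C ≤ (YV a b C j).1 ∧ 1 ≤ (YV a b C j).2 ∧ (st a b C j).1 ≤ (YV a b C j).1 ∧
      1 / (st a b C j).2.1 ≤ Real.exp (YV a b C j).1 ∧
      (st a b C j).2.2 ≤ Real.exp (YV a b C j).2 ∧
      rh a b C (st a b C j) ≤ Real.exp (YV a b C (j + 1)).1 ∧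
      (YV a b C j).1 ≤ (YV a b C (j + 1)).1 := by
  have hC0 : 0 < C := by linarith
  have hc2 := c2_ge (a := a) (b := b) ha
  have hc1 := c1_ge (a := a) (b := b) ha
  have hc4 : 39 ≤ c4 a b := by unfold c4; linarith
  have hc24 : c2 a b ≤ c4 a b := by unfold c4; linarith
  have hc5 : 4 ≤ c5 a b := by unfold c5; linarith
  -- consequences of the basic bounds
  have key : ∀ i, C ≤ (YV a b C i).1 → 1 ≤ (YV a b C i).2 → (st a b C i).1 ≤ (YV a b C i).1 →
      1 / (st a b C i).2.1 ≤ Real.exp (YV a b C i).1 →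
      (st a b C i).2.2 ≤ Real.exp (YV a b C i).2 →
      rh a b C (st a b C i) ≤ Real.exp (YV a b C (i + 1)).1 ∧
      (YV a b C i).1 ≤ (YV a b C (i + 1)).1 ∧
      C ≤ (YV a b C (i + 1)).1 ∧ 1 ≤ (YV a b C (i + 1)).2 ∧
      (st a b C (i + 1)).1 ≤ (YV a b C (i + 1)).1 ∧
      1 / (st a b C (i + 1)).2.1 ≤ Real.exp (YV a b C (i + 1)).1 ∧
      (st a b C (i + 1)).2.2 ≤ Real.exp (YV a b C (i + 1)).2 := by
    intro i g1 g2 g3 g4 g5
    obtain ⟨i1, i2, i3, i4, i5, i6⟩ := st_inv (a := a) (b := b) (C := C) ha hC0 i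
    set Z : ℝ := Real.exp (c5 a b * ((YV a b C i).1 + (YV a b C i).2)) with hZdef
    have hY1 : (1:ℝ) ≤ (YV a b C i).1 := hC.trans g1
    have hZ' : (YV a b C i).1 + (YV a b C i).2 ≤ Z := by
      have := Real.add_one_le_exp (c5 a b * ((YV a b C i).1 + (YV a b C i).2))
      have h2 : (YV a b C i).1 + (YV a b C i).2 ≤
          c5 a b * ((YV a b C i).1 + (YV a b C i).2) := by nlinarith
      linarith
    have hZ1 : 1 ≤ Z := by linarith
    have hT := T2_le (a := a) (b := b) (C := C) ha hC0 hY1 g2 g1 i1 i4 g3 g5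
    have hn := next_le (a := a) (b := b) (C := C) ha hC0 (s := st a b C i) (Z := Z) hZ1
      (by linarith) i2 i4 hT (g5.trans (Real.exp_le_exp.2 (by linarith)))
      (g4.trans (Real.exp_le_exp.2 (by linarith)))
    obtain ⟨n1, n2, n3, n4⟩ := hn
    have e1 : (YV a b C (i + 1)).1 = c4 a b * Z := rfl
    have e2 : (YV a b C (i + 1)).2 = Real.exp (c4 a b * Z) := rfl
    have e3 : st a b C (i + 1) = stp a b C (st a b C i) := rfl
    rw [e1, e2, e3]
    have hle : (YV a b C i).1 ≤ c4 a b * Z := by nlinarith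
    refine ⟨n1.trans (Real.exp_le_exp.2 (mul_le_mul_of_nonneg_right hc24 (by linarith))),
      hle, g1.trans hle, Real.one_le_exp (by positivity), n2, n3, n4⟩
  have base : C ≤ (YV a b C 0).1 ∧ 1 ≤ (YV a b C 0).2 ∧ (st a b C 0).1 ≤ (YV a b C 0).1 ∧
      1 / (st a b C 0).2.1 ≤ Real.exp (YV a b C 0).1 ∧
      (st a b C 0).2.2 ≤ Real.exp (YV a b C 0).2 := by
    have hT1 : T1 a b C ≤ 8 * a * (Real.exp (2 * a + b) + 1) * C := by
      unfold T1
      have e : C * Real.exp (2 * a) * Real.exp b + 1 ≤ (Real.exp (2 * a + b) + 1) * C := by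
        rw [Real.exp_add]
        nlinarith
      calc 8 * a * (C * Real.exp (2 * a) * Real.exp b + 1) ≤
          8 * a * ((Real.exp (2 * a + b) + 1) * C) := mul_le_mul_of_nonneg_left e (by positivity)
        _ = _ := by ring
    have hpos : 0 < 8 * a * (Real.exp (2 * a + b) + 1) := by positivity
    have e0 : (YV a b C 0).1 = k0 a b * C := rfl
    have e0' : (YV a b C 0).2 = 1 := rfl
    have hk0 : k0 a b = c2 a b + 2 + 6 * (8 * a * (Real.exp (2 * a + b) + 1)) := by
      unfold k0; ring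
    rw [e0, e0']
    refine ⟨?_, le_rfl, ?_, ?_, ?_⟩
    · have : 1 ≤ k0 a b := by rw [hk0]; linarith
      nlinarith
    · show T1 a b C ≤ _
      refine hT1.trans ?_
      apply mul_le_mul_of_nonneg_right _ hC0.le
      rw [hk0]
      linarith
    · show 1 / (1 / (64 * a * C ^ 2 * Real.exp (6 * (T1 a b C + a)) * Real.exp b + 1)) ≤ _
      rw [one_div_one_div]
      have hCe : C ≤ Real.exp C := by linarith [Real.add_one_le_exp C]
      set t0 : ℝ := 8 * a * (Real.exp (2 * a + b) + 1) with ht0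
      have hc2' : 64 * a * Real.exp (6 * a + b) + 2 ≤ Real.exp (c2 a b) := by
        have h1 := Real.add_one_le_exp (c2 a b)
        unfold c2 at h1 ⊢
        linarith
      have hbig : (1:ℝ) ≤ Real.exp ((2 + 6 * t0) * C) := Real.one_le_exp (by positivity)
      calc 64 * a * C ^ 2 * Real.exp (6 * (T1 a b C + a)) * Real.exp b + 1
          ≤ 64 * a * (Real.exp C) ^ 2 * Real.exp (6 * (t0 * C + a)) * Real.exp b + 1 := by
            apply add_le_add _ le_rfl
            apply mul_le_mul_of_nonneg_right _ (Real.exp_pos _).le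
            apply mul_le_mul
            · apply mul_le_mul_of_nonneg_left _ (by positivity)
              exact pow_le_pow_left₀ hC0.le hCe 2
            · apply Real.exp_le_exp.2
              linarith
            · positivity
            · positivity
        _ = 64 * a * Real.exp (6 * a + b) * Real.exp ((2 + 6 * t0) * C) + 1 := by
            rw [sq, ← Real.exp_add]
            have : 64 * a * Real.exp (C + C) * Real.exp (6 * (t0 * C + a)) * Real.exp b =
                64 * a * (Real.exp (C + C) * Real.exp (6 * (t0 * C + a)) * Real.exp b) := by ring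
            rw [this, ← Real.exp_add, ← Real.exp_add, mul_assoc (64 * a), ← Real.exp_add]
            congr 3; ring
        _ ≤ (64 * a * Real.exp (6 * a + b) + 2) * Real.exp ((2 + 6 * t0) * C) := by nlinarith
        _ ≤ Real.exp (c2 a b) * Real.exp ((2 + 6 * t0) * C) :=
            mul_le_mul_of_nonneg_right hc2' (Real.exp_pos _).le
        _ = Real.exp (c2 a b + (2 + 6 * t0) * C) := by rw [← Real.exp_add]
        _ ≤ _ := by
            apply Real.exp_le_exp.2
            rw [hk0]
            nlinarith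
    · show (1:ℝ) ≤ _
      exact Real.one_le_exp (by norm_num)
  induction j with
  | zero =>
    obtain ⟨g1, g2, g3, g4, g5⟩ := base
    obtain ⟨k1, k2, _⟩ := key 0 g1 g2 g3 g4 g5
    exact ⟨g1, g2, g3, g4, g5, k1, k2⟩
  | succ j ih =>
    obtain ⟨g1, g2, g3, g4, g5, _, _⟩ := ih
    obtain ⟨_, _, q1, q2, q3, q4, q5⟩ := key j g1 g2 g3 g4 g5
    obtain ⟨k1, k2, _⟩ := key (j + 1) q1 q2 q3 q4 q5
    exact ⟨q1, q2, q3, q4, q5, k1, k2⟩

theorem YV_bound (ha : 0 < a) (j : ℕ) : ∃ K : ℝ, 1 ≤ K ∧ ∀ C : ℝ, 1 ≤ C →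
    (YV a b C (j + 1)).1 ≤ Real.exp^[2 * j + 1] (K * C) := by
  have hc2 := c2_ge (a := a) (b := b) ha
  have hc1 := c1_ge (a := a) (b := b) ha
  have hc4 : 39 ≤ c4 a b := by unfold c4; linarith
  have hc5 : 4 ≤ c5 a b := by unfold c5; linarith
  have hk0 : 1 ≤ k0 a b := by
    unfold k0
    have : 0 < 48 * a * (Real.exp (2 * a + b) + 1) := by positivity
    linarith
  induction j with
  | zero =>
    refine ⟨c4 a b * (c5 a b * (k0 a b + 1)), ?_, ?_⟩
    · have h1 : (1:ℝ) ≤ c5 a b * (k0 a b + 1) := by nlinarith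
      nlinarith
    · intro C hC
      have h1 : (1:ℝ) ≤ c5 a b * (k0 a b * C + 1) := by
        have : 0 ≤ k0 a b * C := by positivity
        nlinarith
      have e : (YV a b C (0 + 1)).1 = c4 a b * Real.exp (c5 a b * (k0 a b * C + 1)) := rfl
      rw [e]
      refine (mul_exp_le (by linarith) h1).trans ?_
      show Real.exp _ ≤ Real.exp _
      apply Real.exp_le_exp.2
      have h2 : k0 a b * C + 1 ≤ (k0 a b + 1) * C := by nlinarith
      have h3 : c5 a b * (k0 a b * C + 1) ≤ c5 a b * ((k0 a b + 1) * C) :=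
        mul_le_mul_of_nonneg_left h2 (by linarith)
      have h4 := mul_le_mul_of_nonneg_left h3 (show (0:ℝ) ≤ c4 a b by linarith)
      refine h4.trans (le_of_eq ?_)
      ring
  | succ j ih =>
    obtain ⟨K, hK, h⟩ := ih
    refine ⟨2 * (c4 a b * c5 a b) * K, ?_, ?_⟩
    · have h1 : (1:ℝ) ≤ c4 a b * c5 a b := by nlinarith
      nlinarith
    · intro C hC
      have hY := h C hC
      have hst := st_bound (a := a) (b := b) (C := C) ha hC (j + 1)
      set Y : ℝ := (YV a b C (j + 1)).1 with hYdef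
      have hY1 : 1 ≤ Y := hC.trans hst.1
      have e : (YV a b C (j + 1 + 1)).1 = c4 a b * Real.exp (c5 a b * (Y + Real.exp Y)) := by
        have e2 : (YV a b C (j + 1)).2 = Real.exp Y := rfl
        rw [← e2]
        rfl
      rw [e]
      have hYe : Y ≤ Real.exp Y := by linarith [Real.add_one_le_exp Y]
      have hc45 : (1:ℝ) ≤ 2 * (c4 a b * c5 a b) := by nlinarith
      calc c4 a b * Real.exp (c5 a b * (Y + Real.exp Y))
          ≤ Real.exp (c4 a b * (c5 a b * (Y + Real.exp Y))) := by
            apply mul_exp_le (by linarith)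
            nlinarith [Real.exp_pos Y]
        _ ≤ Real.exp (2 * (c4 a b * c5 a b) * Real.exp Y) := by
            apply Real.exp_le_exp.2
            have h1 : Y + Real.exp Y ≤ 2 * Real.exp Y := by linarith
            have h2 := mul_le_mul_of_nonneg_left h1
              (show (0:ℝ) ≤ c4 a b * c5 a b by nlinarith)
            calc c4 a b * (c5 a b * (Y + Real.exp Y)) = c4 a b * c5 a b * (Y + Real.exp Y) := by
                  ring
              _ ≤ c4 a b * c5 a b * (2 * Real.exp Y) := h2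
              _ = _ := by ring
        _ ≤ Real.exp (Real.exp (2 * (c4 a b * c5 a b) * Y)) := by
            apply Real.exp_le_exp.2
            exact mul_exp_le hc45 hY1
        _ ≤ Real.exp (Real.exp (2 * (c4 a b * c5 a b) * Real.exp^[2 * j + 1] (K * C))) := by
            apply Real.exp_le_exp.2
            apply Real.exp_le_exp.2
            exact mul_le_mul_of_nonneg_left hY (by linarith)
        _ ≤ Real.exp (Real.exp (Real.exp^[2 * j + 1] (2 * (c4 a b * c5 a b) * (K * C)))) := by
            apply Real.exp_le_exp.2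
            apply Real.exp_le_exp.2
            apply mul_iter_le hc45
            nlinarith
        _ = Real.exp^[2 * (j + 1) + 1] (2 * (c4 a b * c5 a b) * K * C) := by
            have e2 : ∀ y, Real.exp^[2 * (j + 1) + 1] y =
                Real.exp (Real.exp (Real.exp^[2 * j + 1] y)) := by
              intro y
              have e3 : 2 * (j + 1) + 1 = (2 * j + 1).succ.succ := by omega
              rw [e3]
              exact (Function.iterate_succ_apply' Real.exp (2 * j + 1).succ y).trans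
                (congrArg Real.exp (Function.iterate_succ_apply' Real.exp (2 * j + 1) y))
            rw [e2, mul_assoc _ K C]

end seqs

end Pool.Agent.Y415.Frac
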