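import Pool.Agent.Y415.Frac.Q

set_option autoImplicit false
set_option linter.unusedSectionVars false

open Finset
open scoped Classical

noncomputable section

namespace Pool.Agent.Y415.Frac

/-- Bound of the threshold for `d`. -/
theorem D_bound (R : ℕ) : ∃ K : ℝ, 1 ≤ K ∧ ∀ C : ℝ, 1 ≤ C →
    16 * C * Real.exp (YV ((R:ℝ) + 1) (13 * R) C R).2 *
      Real.exp (2 * (YV ((R:ℝ) + 1) (13 * R) C R).1) ≤ Real.exp^[2 * R + 1] (K * C) := by
  set a : ℝ := (R:ℝ) + 1 with hadef
  have ha : 0 < a := by positivity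
  set b : ℝ := 13 * (R:ℝ) with hbdef
  have h16 : (16:ℝ) ≤ Real.exp 3 := by
    have h1 := Real.exp_one_gt_d9
    have h2 : Real.exp 3 = Real.exp 1 ^ 3 := by
      rw [← Real.exp_nat_mul]; congr 1; norm_num
    rw [h2]
    have h3 : (2.7:ℝ) ^ 3 ≤ Real.exp 1 ^ 3 := pow_le_pow_left₀ (by norm_num) (by linarith) 3
    linarith
  clear_value a b
  rcases R with _ | S
  · have hk0 : 1 ≤ k0 a b := by
      have hc2 := c2_ge (a := a) (b := b) ha
      unfold k0
      have : 0 < 48 * a * (Real.exp (2 * a + b) + 1) := by positivity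
      linarith
    refine ⟨5 + 2 * k0 a b, by linarith, ?_⟩
    intro C hC
    show 16 * C * Real.exp 1 * Real.exp (2 * (k0 a b * C)) ≤ Real.exp ((5 + 2 * k0 a b) * C)
    have hCe : C ≤ Real.exp C := by linarith [Real.add_one_le_exp C]
    calc 16 * C * Real.exp 1 * Real.exp (2 * (k0 a b * C)) ≤
        Real.exp 3 * Real.exp C * Real.exp 1 * Real.exp (2 * (k0 a b * C)) := by
          apply mul_le_mul_of_nonneg_right _ (Real.exp_pos _).le
          apply mul_le_mul_of_nonneg_right _ (Real.exp_pos _).le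
          exact mul_le_mul h16 hCe (by linarith) (Real.exp_pos _).le
      _ = Real.exp (3 + C + 1 + 2 * (k0 a b * C)) := by
          rw [← Real.exp_add, ← Real.exp_add, ← Real.exp_add]
      _ ≤ _ := by
          apply Real.exp_le_exp.2
          nlinarith
  · obtain ⟨K, hK, h⟩ := YV_bound (a := a) (b := b) ha S
    refine ⟨7 * K, by linarith, ?_⟩
    intro C hC
    have hY := h C hC
    have hst := st_bound (a := a) (b := b) (C := C) ha hC (S + 1)
    have e2 : (YV a b C (S + 1)).2 = Real.exp (YV a b C (S + 1)).1 := rfl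
    rw [e2]
    set Y : ℝ := (YV a b C (S + 1)).1 with hYdef
    have hY1 : 1 ≤ Y := hC.trans hst.1
    have hYe : Y ≤ Real.exp Y := by linarith [Real.add_one_le_exp Y]
    calc 16 * C * Real.exp (Real.exp Y) * Real.exp (2 * Y) ≤
        Real.exp 3 * Real.exp Y * Real.exp (Real.exp Y) * Real.exp (2 * Y) := by
          apply mul_le_mul_of_nonneg_right _ (Real.exp_pos _).le
          apply mul_le_mul_of_nonneg_right _ (Real.exp_pos _).le
          exact mul_le_mul h16 (hst.1.trans hYe) (by linarith) (Real.exp_pos _).le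
      _ = Real.exp (3 + Y + Real.exp Y + 2 * Y) := by
          rw [← Real.exp_add, ← Real.exp_add, ← Real.exp_add]
      _ ≤ Real.exp (7 * Real.exp Y) := by
          apply Real.exp_le_exp.2
          linarith
      _ ≤ Real.exp (Real.exp (7 * Y)) := by
          apply Real.exp_le_exp.2
          exact mul_exp_le (by norm_num) hY1
      _ ≤ Real.exp (Real.exp (7 * Real.exp^[2 * S + 1] (K * C))) := by
          apply Real.exp_le_exp.2
          apply Real.exp_le_exp.2
          linarith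
      _ ≤ Real.exp (Real.exp (Real.exp^[2 * S + 1] (7 * (K * C)))) := by
          apply Real.exp_le_exp.2
          apply Real.exp_le_exp.2
          apply mul_iter_le (by norm_num)
          nlinarith
      _ = Real.exp^[2 * (S + 1) + 1] (7 * K * C) := by
          have e2 : ∀ y, Real.exp^[2 * (S + 1) + 1] y =
              Real.exp (Real.exp (Real.exp^[2 * S + 1] y)) := by
            intro y
            have e3 : 2 * (S + 1) + 1 = (2 * S + 1).succ.succ := by omega
            rw [e3]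
            exact (Function.iterate_succ_apply' Real.exp (2 * S + 1).succ y).trans
              (congrArg Real.exp (Function.iterate_succ_apply' Real.exp (2 * S + 1) y))
          rw [e2, mul_assoc _ K C]

theorem YV_mono {a b C : ℝ} (ha : 0 < a) (hC : 1 ≤ C) :
    Monotone (fun j => (YV a b C j).1) :=
  monotone_nat_of_le_succ fun j => (st_bound (a := a) (b := b) (C := C) ha hC j).2.2.2.2.2.2

/-- Explicit threshold for `d`. -/
theorem frac_explicit (R : ℕ) : ∃ K : ℝ, 1 ≤ K ∧ ∀ C : ℝ, 1 ≤ C → ∀ d : ℕ,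
      Real.exp^[2 * R + 1] (K * C) ≤ d → ∀ (n : ℕ) (N : Fin n → Finset (Fin n))
      (adj : Fin n → Fin n → Prop), (∀ x, ∀ y ∈ N x, y < x) → (∀ x, (N x).card ≤ d) →
      (∀ z y, y ∈ N z → adj z y ∧ adj y z) →
      (∀ u, ∀ x ∈ N u, Cl adj (R + 1) (N x ∩ N u) = ∅) →
      ∃ w : Finset (Fin n) → ℝ, (∀ I, 0 ≤ w I) ∧ (∀ I, w I ≠ 0 → ∀ x ∈ I, ∀ y ∈ N x, y ∉ I) ∧
      (∀ v, C / (2 * d) ≤ ∑ I ∈ Finset.univ.filter (fun I : Finset (Fin n) => v ∈ I), w I) ∧
      ∑ I, w I = 1 := by
  obtain ⟨K, hK, h⟩ := D_bound R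
  refine ⟨K, hK, ?_⟩
  intro C hC d hd n N adj hN hNd hadj hCl
  have hC0 : 0 < C := by linarith
  have hbound := (h C hC).trans hd
  obtain ⟨ρ, ε, η, T, hp, hTm, hT0, n1, n2, eρ, eT, eQ⟩ := params2 R hC0
  have ha : (0:ℝ) < (R:ℝ) + 1 := by positivity
  have hst := st_bound (a := (R:ℝ) + 1) (b := 13 * R) (C := C) ha hC R
  obtain ⟨s1, s2, s3, s4, s5, s6, s7⟩ := hst
  have hY0 : (1:ℝ) ≤ (YV ((R:ℝ) + 1) (13 * R) C R).1 := hC.trans s1
  have hdR : (0:ℝ) < d := by
    refine lt_of_lt_of_le ?_ hbound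
    positivity
  have hd0 : 0 < d := by exact_mod_cast hdR
  have hexpY : Real.exp (YV ((R:ℝ) + 1) (13 * R) C R).1 ≤ d := by
    refine le_trans ?_ hbound
    have h1 : Real.exp (YV ((R:ℝ) + 1) (13 * R) C R).1 ≤
        Real.exp (2 * (YV ((R:ℝ) + 1) (13 * R) C R).1) := Real.exp_le_exp.2 (by linarith)
    have h2 : (1:ℝ) ≤ 16 * C * Real.exp (YV ((R:ℝ) + 1) (13 * R) C R).2 := by
      have : (1:ℝ) ≤ Real.exp (YV ((R:ℝ) + 1) (13 * R) C R).2 := Real.one_le_exp (by linarith)
      nlinarith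
    calc _ ≤ 1 * Real.exp (2 * (YV ((R:ℝ) + 1) (13 * R) C R).1) := by rw [one_mul]; exact h1
      _ ≤ _ := mul_le_mul_of_nonneg_right h2 (Real.exp_pos _).le
  have hρ : ∀ i, i < R → ρ i ≤ d := by
    intro i hi
    rw [eρ i]
    refine ((st_bound (a := (R:ℝ) + 1) (b := 13 * R) (C := C) ha hC i).2.2.2.2.2.1).trans ?_
    refine le_trans ?_ hexpY
    apply Real.exp_le_exp.2
    exact YV_mono (a := (R:ℝ) + 1) (b := 13 * R) ha hC (show i + 1 ≤ R by omega)
  have hB : C / d * (8 * Qp ρ ε η R) * Real.exp (2 * T (R + 1)) ≤ 1 / 2 := by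
    rw [eQ R, eT R]
    have h1 : 16 * C * (st ((R:ℝ) + 1) (13 * R) C R).2.2 *
        Real.exp (2 * (st ((R:ℝ) + 1) (13 * R) C R).1) ≤ d := by
      refine le_trans ?_ hbound
      apply mul_le_mul
      · exact mul_le_mul_of_nonneg_left s5 (by positivity)
      · apply Real.exp_le_exp.2
        linarith
      · exact (Real.exp_pos _).le
      · positivity
    have h2 : C / d * (8 * (st ((R:ℝ) + 1) (13 * R) C R).2.2) *
        Real.exp (2 * (st ((R:ℝ) + 1) (13 * R) C R).1) =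
        (16 * C * (st ((R:ℝ) + 1) (13 * R) C R).2.2 *
        Real.exp (2 * (st ((R:ℝ) + 1) (13 * R) C R).1)) / (2 * d) := by
      field_simp
      ring
    rw [h2, div_le_iff₀ (by positivity)]
    linarith
  obtain ⟨w, w0, w1, w2, _, w4⟩ := static_main2 hN hd0 hNd hadj hCl hp hρ hTm hT0 hC0 hB
    (fun L _ => n1 L) (fun j _ => n2 j)
  exact ⟨w, w0, w1, w2, w4⟩

/-- Iterated logarithms invert iterated exponentials. -/
theorem iter_log (m : ℕ) {x y : ℝ} (h : Real.exp^[m] x ≤ y) :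
    x ≤ Real.log^[m] y ∧ Real.exp^[m] (Real.log^[m] y) = y := by
  induction m generalizing y with
  | zero => exact ⟨h, rfl⟩
  | succ m ih =>
    rw [Function.iterate_succ_apply'] at h
    have hy : 0 < y := lt_of_lt_of_le (Real.exp_pos _) h
    have h' : Real.exp^[m] x ≤ Real.log y := by
      rw [Real.le_log_iff_exp_le hy]
      exact h
    obtain ⟨h1, h2⟩ := ih h'
    rw [Function.iterate_succ_apply Real.log, Function.iterate_succ_apply' Real.exp]
    refine ⟨h1, ?_⟩
    rw [h2, Real.exp_log hy]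

/-- The quantitative upper bound. -/
theorem upper (r : ℕ) (hr : 3 ≤ r) : ∃ K : ℝ, 0 < K ∧ ∃ d₀ : ℕ, ∀ d : ℕ, d₀ ≤ d →
      1 ≤ Real.log^[2 * r - 5] (d:ℝ) ∧
      ∀ (n : ℕ) (G : SimpleGraph (Fin n)),
        G.CliqueFree r →
        (∀ S : Finset (Fin n), S.Nonempty →
            ∃ v ∈ S, (S.filter (fun u => G.Adj v u)).card ≤ d) →
        ∃ w : Finset (Fin n) → ℝ,
          (∀ I, 0 ≤ w I) ∧
          (∀ I, w I ≠ 0 → G.IsIndepSet (↑I : Set (Fin n))) ∧
          (∀ v : Fin n, 1 ≤ ∑ I ∈ Finset.univ.filter (fun I : Finset (Fin n) => v ∈ I), w I) ∧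
          (∑ I, w I) ≤ K * (d : ℝ) / Real.log^[2 * r - 5] (d:ℝ) := by
  obtain ⟨R, rfl⟩ : ∃ R, r = R + 3 := ⟨r - 3, by omega⟩
  obtain ⟨K, hK, hmain⟩ := frac_explicit R
  refine ⟨2 * K, by linarith, ⌈Real.exp^[2 * R + 1] K⌉₊, ?_⟩
  intro d hd
  have e5 : 2 * (R + 3) - 5 = 2 * R + 1 := by omega
  rw [e5]
  have hd' : Real.exp^[2 * R + 1] K ≤ d := (Nat.le_ceil _).trans (by exact_mod_cast hd)
  obtain ⟨hL, hexp⟩ := iter_log (2 * R + 1) hd'
  set L : ℝ := Real.log^[2 * R + 1] (d:ℝ) with hLdef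
  have hK0 : 0 < K := by linarith
  have hL0 : 0 < L := by linarith
  refine ⟨by linarith, ?_⟩
  intro n G hG hdeg
  have hC1 : 1 ≤ L / K := by rwa [one_le_div hK0]
  have hC0 : 0 < L / K := by positivity
  have hd0 : (0:ℝ) < d := by
    have := iter_ge (x := K) hK (2 * R + 1)
    linarith
  obtain ⟨σ, N, hmem, g1, g2, g3, g4⟩ := graph_order R d n G hG hdeg
  obtain ⟨w, w0, w1, w2, w4⟩ := hmain (L / K) hC1 d (by
    rw [mul_div_cancel₀ L hK0.ne', hexp]) n N _ g1 g2 g3 g4
  set s : ℝ := 2 * d / (L / K) with hs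
  have hs0 : 0 < s := by positivity
  refine ⟨fun I => s * w (σ.finsetCongr I), fun I => mul_nonneg hs0.le (w0 _), ?_, ?_, ?_⟩
  · intro I hI x hx y hy hxy hadj
    have hI' : w (σ.finsetCongr I) ≠ 0 := right_ne_zero_of_mul hI
    have hx' : σ x ∈ σ.finsetCongr I := by simpa using hx
    have hy' : σ y ∈ σ.finsetCongr I := by simpa using hy
    have hne : σ x ≠ σ y := fun h => hxy (σ.injective h)
    rcases lt_or_gt_of_ne hne with h | h
    · refine w1 _ hI' (σ y) hy' (σ x) ?_ hx'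
      rw [hmem]
      simp only [Equiv.symm_apply_apply]
      exact ⟨h, hadj.symm⟩
    · refine w1 _ hI' (σ x) hx' (σ y) ?_ hy'
      rw [hmem]
      simp only [Equiv.symm_apply_apply]
      exact ⟨h, hadj⟩
  · intro v
    rw [← Finset.mul_sum]
    have h := w2 (σ v)
    have e : ∑ I ∈ Finset.univ.filter (fun I : Finset (Fin n) => v ∈ I), w (σ.finsetCongr I) =
        ∑ I ∈ Finset.univ.filter (fun I : Finset (Fin n) => σ v ∈ I), w I := by
      rw [Finset.sum_filter, Finset.sum_filter,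
        ← Equiv.sum_comp σ.finsetCongr (fun I => if σ v ∈ I then w I else 0)]
      apply Finset.sum_congr rfl
      intro I _
      have : σ v ∈ σ.finsetCongr I ↔ v ∈ I := by simp
      simp only [this]
    rw [e]
    calc (1:ℝ) = s * (L / K / (2 * d)) := by rw [hs]; field_simp
      _ ≤ _ := mul_le_mul_of_nonneg_left h hs0.le
  · rw [← Finset.mul_sum, Equiv.sum_comp σ.finsetCongr (fun I => w I), w4, mul_one, hs]
    apply le_of_eq
    field_simp

end Pool.Agent.Y415.Frac
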